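import Pool.Agent.Helper60.Quas.LowerOdd

/-!
Counting the triples with at least two changed products for a quasigroup that is obtained from
a group by changing cells whose rows, columns and symbols lie in cosets of a subgroup of prime
order.
-/

namespace Pool.Agent.Helper32.Q5

set_option linter.unusedSimpArgs false
set_option linter.unusedSectionVars false

open Finset Pool.Agent.Helper60.Quas

section weights

variable {p : ℕ}

/-- weight, first generic box -/
def w1 (F : ZMod p → ZMod p → ZMod p) (i j l : ZMod p) : ℕ :=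
  ((if F i j ≠ i + j then 1 else 0) + (if F i (j + l) ≠ i + (j + l) then 1 else 0)) -
    (if F i (j + l) ≠ F i j + l then 1 else 0)

/-- weight, second generic box -/
def w2 (F : ZMod p → ZMod p → ZMod p) (i j l : ZMod p) : ℕ :=
  ((if F j l ≠ j + l then 1 else 0) + (if F (i + j) l ≠ i + j + l then 1 else 0)) -
    (if i + F j l ≠ F (i + j) l then 1 else 0)

/-- weight, third generic box -/
def w3 (F : ZMod p → ZMod p → ZMod p) (i j l : ZMod p) : ℕ :=
  ((if F (i + j) l ≠ i + j + l then 1 else 0) + (if F i (j + l) ≠ i + (j + l) then 1 else 0)) -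
    (if F i (j + l) ≠ F (i + j) l then 1 else 0)

/-- weight, all cosets equal -/
def wI (H : ZMod p → ZMod p → ZMod p) (x y z : ZMod p) : ℕ :=
  ((if H x y ≠ x + y then 1 else 0) + (if H y z ≠ y + z then 1 else 0) +
   (if H (H x y) z ≠ H x y + z then 1 else 0) + (if H x (H y z) ≠ x + H y z then 1 else 0)) -
    (if H x (H y z) ≠ H (H x y) z then 1 else 0)

/-- weight, symbols and columns in the same coset -/
def wII (H : ZMod p → ZMod p → ZMod p) (i j l : ZMod p) : ℕ :=
  ((if H j l ≠ j + l then 1 else 0) + (if H (i + j) l ≠ i + j + l then 1 else 0) +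
    (if H i (H j l) ≠ i + H j l then 1 else 0)) -
    (if H i (H j l) ≠ H (i + j) l then 1 else 0)

/-- weight, symbols and rows in the same coset -/
def wIII (H : ZMod p → ZMod p → ZMod p) (i j l : ZMod p) : ℕ :=
  ((if H i j ≠ i + j then 1 else 0) + (if H (H i j) l ≠ H i j + l then 1 else 0) +
    (if H i (j + l) ≠ i + (j + l) then 1 else 0)) -
    (if H i (j + l) ≠ H (H i j) l then 1 else 0)

/-- weight, rows and columns in the same coset -/
def wIV (H : ZMod p → ZMod p → ZMod p) (i j l : ZMod p) : ℕ :=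
  ((if H i j ≠ i + j then 1 else 0) + (if H j l ≠ j + l then 1 else 0)) -
    (if i + H j l ≠ H i j + l then 1 else 0)

/-- weight, rows and columns with a single common element -/
def wV (F : ZMod p → ZMod p → ZMod p) (j k i l : ZMod p) : ℕ :=
  if F i j ≠ i + j ∧ F k l ≠ k + l then 2 else 0

/-- the sum over a box -/
def bs [NeZero p] (w : ZMod p → ZMod p → ZMod p → ℕ) : ℕ := ∑ i, ∑ j, ∑ l, w i j l

/-- shifted table -/
def H1 (F : ZMod p → ZMod p → ZMod p) (g a u v : ZMod p) : ZMod p := a + F (u - a + g) (v - g)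

/-- shifted table -/
def H2 (F : ZMod p → ZMod p → ZMod p) (a u v : ZMod p) : ZMod p := a + F (u - a) v

/-- shifted table -/
def H3 (F : ZMod p → ZMod p → ZMod p) (g i j : ZMod p) : ZMod p := F (i + g) (j - g)

/-- all the finite checks -/
structure Check [NeZero p] (F : ZMod p → ZMod p → ZMod p) (C : ℕ) : Prop where
  c1 : ∀ g a, bs (wI (H1 F g a)) ≤ C
  c2 : ∀ a, bs (wII (H2 F a)) + bs (w1 F) ≤ C
  c3 : ∀ g, bs (wIII (H3 F g)) + bs (w2 F) ≤ C
  c4 : ∀ a, bs (wIV (H2 F a)) + (bs (w1 F) + bs (w2 F) + bs (w3 F)) ≤ C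
  c5 : ∀ j k, (∑ i, ∑ l, wV F j k i l) + (bs (w1 F) + bs (w2 F) + bs (w3 F)) ≤ C

end weights

variable {Q : Type*} [Fintype Q] [DecidableEq Q] [Group Q] {m : Q → Q → Q}

/-- excess weight of a triple -/
def wt (m : Q → Q → Q) (x y z : Q) : ℕ :=
  ((if T m x y then 1 else 0) + (if T m y z then 1 else 0) +
    (if T m (m x y) z then 1 else 0) + (if T m x (m y z) then 1 else 0)) -
    (if m x (m y z) ≠ m (m x y) z then 1 else 0)

lemma master' (h : IsQuasigroup m) :
    4 * (tt m * Fintype.card Q) ≤ nonAssocTriples m +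
      ∑ τ : Q × Q × Q, wt m τ.1 τ.2.1 τ.2.2 := by
  have := master h (wt m) (fun x y z => by unfold wt; omega)
  rw [Fintype.sum_prod_type]
  simp only [Fintype.sum_prod_type]
  exact this

omit [Fintype Q] in
lemma wt_support {x y z : Q} (h : wt m x y z ≠ 0) :
    (T m x y ∧ T m y z) ∨ (T m x y ∧ T m (m x y) z) ∨ (T m x y ∧ T m x (m y z)) ∨
    (T m y z ∧ T m (m x y) z) ∨ (T m y z ∧ T m x (m y z)) ∨
    (T m (m x y) z ∧ T m x (m y z)) := by
  unfold wt at h
  by_cases a : T m x y <;> by_cases b : T m y z <;> by_cases c : T m (m x y) z <;>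
    by_cases d : T m x (m y z) <;>
    simp only [a, b, c, d, true_and, and_true, and_false, false_and, or_true, or_false,
      if_true, if_false, and_self, not_true_eq_false] at h ⊢
  · have := sA a b c d
    simp [this] at h
  · have := sB a b c d
    simp [this] at h
  · have := sC a b c d
    simp [this] at h
  · have := sD a b c d
    simp [this] at h
  · simp at h

omit [Group Q] in
lemma sum_le_of_cover {ι : Type*} [Fintype ι] (g : Q × Q × Q → ℕ) (φ : ι → Q × Q × Q)
    (hcov : ∀ τ, g τ ≠ 0 → ∃ i, φ i = τ) : ∑ τ, g τ ≤ ∑ i, g (φ i) := by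
  rw [Finset.sum_comp g φ]
  have h1 : ∑ τ, g τ = ∑ τ ∈ univ.image φ, g τ := by
    symm
    apply Finset.sum_subset (subset_univ _)
    intro τ _ hτ
    by_contra hne
    obtain ⟨i, hi⟩ := hcov τ hne
    exact hτ (mem_image.2 ⟨i, mem_univ _, hi⟩)
  rw [h1]
  apply Finset.sum_le_sum
  intro τ hτ
  obtain ⟨i, _, hi⟩ := mem_image.1 hτ
  have : 0 < #{a | φ a = τ} := Finset.card_pos.2 ⟨i, by simp [hi]⟩
  rw [smul_eq_mul]
  nlinarith [Nat.zero_le (g τ)]

/-- `m` is obtained from the group by a table on cosets of a subgroup of order `p` -/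
structure Cos (m : Q → Q → Q) (p : ℕ) (F : ZMod p → ZMod p → ZMod p) (e : ZMod p → Q)
    (c s : Q) : Prop where
  eadd : ∀ i j, e (i + j) = e i * e j
  einj : Function.Injective e
  fval : ∀ i j, m (s * e i * c⁻¹) (c * e j) = s * e (F i j)
  fout : ∀ x y, T m x y → (∃ i, x = s * e i * c⁻¹) ∧ (∃ j, y = c * e j)

namespace Cos

variable {p : ℕ} {F : ZMod p → ZMod p → ZMod p} {e : ZMod p → Q} {c s : Q}

omit [Fintype Q] [DecidableEq Q] in
lemma e0 (D : Cos m p F e c s) : e 0 = 1 := by
  have := D.eadd 0 0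
  rw [add_zero] at this
  exact (mul_eq_left.1 this.symm)

omit [Fintype Q] [DecidableEq Q] in
lemma eneg (D : Cos m p F e c s) (i : ZMod p) : e (-i) = (e i)⁻¹ := by
  rw [eq_inv_iff_mul_eq_one, ← D.eadd, neg_add_cancel, D.e0]

omit [Fintype Q] [DecidableEq Q] in
lemma esub (D : Cos m p F e c s) (i j : ZMod p) : e (i - j) = e i * (e j)⁻¹ := by
  rw [sub_eq_add_neg, D.eadd, D.eneg]

omit [Fintype Q] [DecidableEq Q] in
lemma ecomm (D : Cos m p F e c s) (i j : ZMod p) : e i * e j = e j * e i := by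
  rw [← D.eadd, ← D.eadd, add_comm]

omit [Fintype Q] [DecidableEq Q] in
lemma T_iff (D : Cos m p F e c s) (i j : ZMod p) :
    T m (s * e i * c⁻¹) (c * e j) ↔ F i j ≠ i + j := by
  unfold T
  rw [D.fval]
  have : s * e i * c⁻¹ * (c * e j) = s * e (i + j) := by
    rw [D.eadd]; group
  rw [this, ne_eq, ne_eq, not_iff_not]
  constructor
  · intro h
    exact D.einj (mul_left_cancel h)
  · intro h
    rw [h]

omit [Fintype Q] [DecidableEq Q] in
lemma se_eq (D : Cos m p F e c s) (i j : ZMod p) : s * e i = s * e j ↔ i = j := by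
  constructor
  · intro h; exact D.einj (mul_left_cancel h)
  · rintro rfl; rfl

omit [Fintype Q] [DecidableEq Q] in
/-- first generic box -/
lemma wt1 [DecidableEq Q] (D : Cos m p F e c s) (hc : ¬ ∃ g, c = e g) (i j l : ZMod p) :
    wt m (s * e i * c⁻¹) (c * e j) (e l) = w1 F i j l := by
  have hz : ∀ x, ¬ T m x (e l) := by
    intro x hx
    obtain ⟨-, k, hk⟩ := D.fout _ _ hx
    apply hc
    refine ⟨l - k, ?_⟩
    rw [D.esub, hk]; group
  have n1 := hz (c * e j)
  have n2 := hz (m (s * e i * c⁻¹) (c * e j))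
  have e1 : m (c * e j) (e l) = c * e (j + l) := by
    rw [not_T n1, D.eadd]; group
  have e2 : m (m (s * e i * c⁻¹) (c * e j)) (e l) = s * e (F i j + l) := by
    rw [not_T n2, D.fval, D.eadd]; group
  unfold wt w1
  rw [e2, e1, D.fval i (j + l)]
  simp only [n1, n2, D.T_iff, D.se_eq, if_false, ne_eq]
  rfl

omit [Fintype Q] [DecidableEq Q] in
/-- second generic box -/
lemma wt2 [DecidableEq Q] (D : Cos m p F e c s) (hs : ¬ ∃ a, s = c * e a) (i j l : ZMod p) :
    wt m (s * e i * s⁻¹) (s * e j * c⁻¹) (c * e l) = w2 F i j l := by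
  have hz : ∀ x, ¬ T m (s * e i * s⁻¹) x := by
    intro x hx
    obtain ⟨⟨k, hk⟩, -⟩ := D.fout _ _ hx
    apply hs
    refine ⟨-k + i, ?_⟩
    have h1 : e i * s⁻¹ = e k * c⁻¹ := by
      rw [mul_assoc, mul_assoc] at hk
      exact mul_left_cancel hk
    have h2 : s⁻¹ = (e i)⁻¹ * e k * c⁻¹ := by
      rw [mul_assoc, ← h1]; group
    rw [← inv_inv s, h2, D.eadd, D.eneg]; group
  have n1 := hz (s * e j * c⁻¹)
  have n2 := hz (m (s * e j * c⁻¹) (c * e l))
  have e1 : m (s * e i * s⁻¹) (s * e j * c⁻¹) = s * e (i + j) * c⁻¹ := by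
    rw [not_T n1, D.eadd]; group
  have e2 : m (s * e i * s⁻¹) (m (s * e j * c⁻¹) (c * e l)) = s * e (i + F j l) := by
    rw [not_T n2, D.fval, D.eadd]; group
  unfold wt w2
  rw [e2, e1, D.fval (i + j) l]
  simp only [n1, n2, D.T_iff, D.se_eq, if_false, ne_eq, zero_add, add_zero]

omit [Fintype Q] [DecidableEq Q] in
/-- third generic box -/
lemma wt3 [DecidableEq Q] (D : Cos m p F e c s) (hc : ¬ ∃ g, c = e g)
    (hs : ¬ ∃ a, s = c * e a) (i j l : ZMod p) :
    wt m (s * e i * c⁻¹) (c * e j * c⁻¹) (c * e l) = w3 F i j l := by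
  have hy : ∀ x, ¬ T m x (c * e j * c⁻¹) := by
    intro x hx
    obtain ⟨-, k, hk⟩ := D.fout _ _ hx
    apply hc
    refine ⟨-k + j, ?_⟩
    have h1 : e j * c⁻¹ = e k := by
      rw [mul_assoc] at hk
      exact mul_left_cancel hk
    have h2 : c⁻¹ = (e j)⁻¹ * e k := by
      rw [← h1]; group
    rw [← inv_inv c, h2, D.eadd, D.eneg]; group
  have hx : ∀ x, ¬ T m (c * e j * c⁻¹) x := by
    intro x hx
    obtain ⟨⟨k, hk⟩, -⟩ := D.fout _ _ hx
    apply hs
    refine ⟨j - k, ?_⟩
    have h1 : c * e j = s * e k := mul_right_cancel hk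
    rw [D.esub, ← mul_assoc, h1]; group
  have n1 := hy (s * e i * c⁻¹)
  have n2 := hx (c * e l)
  have e1 : m (s * e i * c⁻¹) (c * e j * c⁻¹) = s * e (i + j) * c⁻¹ := by
    rw [not_T n1, D.eadd]; group
  have e2 : m (c * e j * c⁻¹) (c * e l) = c * e (j + l) := by
    rw [not_T n2, D.eadd]; group
  unfold wt w3
  rw [e2, e1, D.fval (i + j) l, D.fval i (j + l)]
  simp only [n1, n2, D.T_iff, D.se_eq, if_false, ne_eq, zero_add, add_zero]

omit [Fintype Q] [DecidableEq Q] in
/-- all cosets equal -/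
lemma wtI [DecidableEq Q] (D : Cos m p F e c s) {g a : ZMod p} (hc : c = e g) (hs : s = e a)
    (i j l : ZMod p) : wt m (e i) (e j) (e l) = wI (H1 F g a) i j l := by
  have hX : ∀ u, e u = s * e (u - a + g) * c⁻¹ := by
    intro u
    rw [hc, hs, ← D.eadd, ← D.eneg, ← D.eadd]
    congr 1; ring
  have hY : ∀ v, e v = c * e (v - g) := by
    intro v
    rw [hc, ← D.eadd]
    congr 1; ring
  have hval : ∀ u v, m (e u) (e v) = e (H1 F g a u v) := by
    intro u v
    rw [hX u, hY v, D.fval, hs, ← D.eadd]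
    rfl
  have hT : ∀ u v, T m (e u) (e v) ↔ H1 F g a u v ≠ u + v := by
    intro u v
    unfold T
    rw [hval, ← D.eadd, ne_eq, ne_eq, not_iff_not]
    exact D.einj.eq_iff
  unfold wt wI
  rw [hval i j, hval j l, hval i (H1 F g a j l), hval (H1 F g a i j) l]
  simp only [hT, ne_eq, D.einj.eq_iff]

omit [Fintype Q] [DecidableEq Q] in
/-- symbols and columns in the same coset -/
lemma wtII [DecidableEq Q] (D : Cos m p F e c s) (hc : ¬ ∃ g, c = e g) {a : ZMod p}
    (hs : s = c * e a) (i j l : ZMod p) :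
    wt m (c * e i * c⁻¹) (c * e j * c⁻¹) (c * e l) = wII (H2 F a) i j l := by
  have hX : ∀ u, c * e u * c⁻¹ = s * e (u - a) * c⁻¹ := by
    intro u
    rw [hs, mul_assoc c (e a), ← D.eadd]
    congr 3; ring
  have hy : ∀ x, ¬ T m x (c * e j * c⁻¹) := by
    intro x hx
    obtain ⟨-, k, hk⟩ := D.fout _ _ hx
    apply hc
    refine ⟨-k + j, ?_⟩
    have h1 : e j * c⁻¹ = e k := by
      rw [mul_assoc] at hk
      exact mul_left_cancel hk
    have h2 : c⁻¹ = (e j)⁻¹ * e k := by
      rw [← h1]; group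
    rw [← inv_inv c, h2, D.eadd, D.eneg]; group
  have hval : ∀ u v, m (c * e u * c⁻¹) (c * e v) = c * e (H2 F a u v) := by
    intro u v
    rw [hX u, D.fval, hs, mul_assoc, ← D.eadd]
    rfl
  have hT : ∀ u v, T m (c * e u * c⁻¹) (c * e v) ↔ H2 F a u v ≠ u + v := by
    intro u v
    unfold T
    rw [hval, ne_eq, ne_eq, not_iff_not]
    have : c * e u * c⁻¹ * (c * e v) = c * e (u + v) := by
      rw [D.eadd]; group
    rw [this]
    constructor
    · intro h; exact D.einj (mul_left_cancel h)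
    · intro h; rw [h]
  have n1 := hy (c * e i * c⁻¹)
  have e1 : m (c * e i * c⁻¹) (c * e j * c⁻¹) = c * e (i + j) * c⁻¹ := by
    rw [not_T n1, D.eadd]; group
  have ce : ∀ u v, c * e u = c * e v ↔ u = v := by
    intro u v
    constructor
    · intro h; exact D.einj (mul_left_cancel h)
    · intro h; rw [h]
  unfold wt wII
  rw [e1, hval j l, hval i (H2 F a j l), hval (i + j) l]
  simp only [n1, hT, ne_eq, ce, if_false, zero_add]

omit [Fintype Q] [DecidableEq Q] in
/-- symbols and rows in the same coset -/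
lemma wtIII [DecidableEq Q] (D : Cos m p F e c s) {g : ZMod p} (hc : c = e g)
    (hs : ¬ ∃ a, s = c * e a) (i j l : ZMod p) :
    wt m (s * e i) (e j) (e l) = wIII (H3 F g) i j l := by
  have hX : ∀ u, s * e u = s * e (u + g) * c⁻¹ := by
    intro u
    rw [hc, mul_assoc, ← D.eneg, ← D.eadd]
    congr 2; ring
  have hY : ∀ v, e v = c * e (v - g) := by
    intro v
    rw [hc, ← D.eadd]
    congr 1; ring
  have hy : ∀ x, ¬ T m (e j) x := by
    intro x hx
    obtain ⟨⟨k, hk⟩, -⟩ := D.fout _ _ hx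
    apply hs
    refine ⟨j - k, ?_⟩
    have h1 : s = e j * c * (e k)⁻¹ := by
      rw [hk]; group
    rw [h1, hc, D.ecomm j g, D.esub, mul_assoc]
  have hval : ∀ u v, m (s * e u) (e v) = s * e (H3 F g u v) := by
    intro u v
    rw [hX u, hY v, D.fval]
    rfl
  have hT : ∀ u v, T m (s * e u) (e v) ↔ H3 F g u v ≠ u + v := by
    intro u v
    unfold T
    rw [hval, mul_assoc, ← D.eadd, ne_eq, ne_eq, not_iff_not, D.se_eq]
  have n1 := hy (e l)
  have e1 : m (e j) (e l) = e (j + l) := by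
    rw [not_T n1, D.eadd]
  unfold wt wIII
  rw [e1, hval i j, hval i (j + l), hval (H3 F g i j) l]
  simp only [n1, hT, ne_eq, D.se_eq, if_false, add_zero]

omit [Fintype Q] [DecidableEq Q] in
/-- rows and columns in the same coset -/
lemma wtIV [DecidableEq Q] (D : Cos m p F e c s) (hc : ¬ ∃ g, c = e g)
    (hcomm : ∀ i, c * e i = e i * c) {a : ZMod p}
    (hs : s = c * c * e a) (i j l : ZMod p) :
    wt m (c * e i) (c * e j) (c * e l) = wIV (H2 F a) i j l := by
  have hX : ∀ u, c * e u = s * e (u - a) * c⁻¹ := by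
    intro u
    rw [hs, mul_assoc (c * c), ← D.eadd, add_sub_cancel, mul_assoc c c, hcomm]
    group
    exact (hcomm u).symm
  have hval : ∀ u v, m (c * e u) (c * e v) = c * c * e (H2 F a u v) := by
    intro u v
    rw [hX u, D.fval, hs, mul_assoc, ← D.eadd]
    rfl
  have cce : ∀ u v, c * c * e u = c * c * e v ↔ u = v := by
    intro u v
    constructor
    · intro h; exact D.einj (mul_left_cancel h)
    · intro h; rw [h]
  have hT : ∀ u v, T m (c * e u) (c * e v) ↔ H2 F a u v ≠ u + v := by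
    intro u v
    unfold T
    rw [hval, ne_eq, ne_eq, not_iff_not]
    have : c * e u * (c * e v) = c * c * e (u + v) := by
      rw [D.eadd, mul_assoc c (e u), ← mul_assoc (e u) c, ← hcomm u]
      group
    rw [this, cce]
  have hout : ∀ w x, ¬ T m (c * c * e w) x ∧ ¬ T m x (c * c * e w) := by
    intro w x
    constructor
    · intro hx
      obtain ⟨⟨k, hk⟩, -⟩ := D.fout _ _ hx
      apply hc
      refine ⟨a + k - w, ?_⟩
      have h1 : c * c * e w * c = c * c * (e a * e k) := by
        rw [hk, hs]; group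
      rw [mul_assoc (c * c)] at h1
      have h2 := mul_left_cancel h1
      rw [← hcomm] at h2
      rw [D.esub, D.eadd, ← h2]; group
    · intro hx
      obtain ⟨-, k, hk⟩ := D.fout _ _ hx
      apply hc
      refine ⟨k - w, ?_⟩
      rw [mul_assoc] at hk
      have h2 := mul_left_cancel hk
      rw [D.esub, ← h2]; group
  have n1 := (hout (H2 F a i j) (c * e l)).1
  have n2 := (hout (H2 F a j l) (c * e i)).2
  have e1 : m (c * c * e (H2 F a i j)) (c * e l) = c * c * c * e (H2 F a i j + l) := by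
    rw [not_T n1, D.eadd, mul_assoc (c * c), ← mul_assoc (e _) c, ← hcomm]
    group
  have e2 : m (c * e i) (c * c * e (H2 F a j l)) = c * c * c * e (i + H2 F a j l) := by
    rw [not_T n2, D.eadd, hcomm, mul_assoc (e i) c, ← mul_assoc c (c * c), ← mul_assoc c c c,
      ← mul_assoc (e i), ← mul_assoc (e i), ← mul_assoc (e i), ← hcomm, mul_assoc c (e i),
      ← hcomm, ← mul_assoc c c, mul_assoc (c * c) (e i), ← hcomm, ← mul_assoc (c * c),
      mul_assoc (c * c * c)]
  unfold wt wIV
  rw [hval i j, hval j l, e1, e2]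
  simp only [n1, n2, hT, ne_eq, if_false, add_zero, mul_right_inj, D.einj.eq_iff]

end Cos

end Pool.Agent.Helper32.Q5
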