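import Pool.Agent.Helper32.Q5.Local

/-!
Seven changed cells are impossible in orders coprime to six; tools for eight and nine cells.
-/

namespace Pool.Agent.Helper32.Q5

open Finset Pool.Agent.Helper60.Quas

set_option linter.unusedSimpArgs false
set_option linter.unusedSectionVars false

section sums

variable {Q : Type*} [DecidableEq Q] {B : Finset Q} {f : Q → ℕ}

lemma all_two (hge : ∀ x ∈ B, 2 ≤ f x) (hs : ∑ x ∈ B, f x = 2 * B.card) :
    ∀ x ∈ B, f x = 2 := by
  intro x hx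
  have h1 := Finset.add_sum_erase B f hx
  have h2 : (B.erase x).card * 2 ≤ ∑ y ∈ B.erase x, f y := by
    rw [← smul_eq_mul]
    exact Finset.card_nsmul_le_sum _ _ _ fun y hy => hge y (Finset.mem_of_mem_erase hy)
  rw [Finset.card_erase_of_mem hx] at h2
  have h3 := hge x hx
  have h4 : 0 < B.card := Finset.card_pos.2 ⟨x, hx⟩
  omega

lemma exists_big (hge : ∀ x ∈ B, 2 ≤ f x) (hs : ∑ x ∈ B, f x = 2 * B.card + 1) :
    ∃ x1 ∈ B, f x1 = 3 ∧ ∀ x ∈ B, x ≠ x1 → f x = 2 := by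
  obtain ⟨x1, hx1, h1⟩ : ∃ x1 ∈ B, f x1 ≠ 2 := by
    by_contra hcon
    push Not at hcon
    rw [Finset.sum_congr rfl hcon, Finset.sum_const, smul_eq_mul] at hs
    omega
  have h2 := Finset.add_sum_erase B f hx1
  have hc := Finset.card_erase_of_mem hx1
  have h3 : (B.erase x1).card * 2 ≤ ∑ y ∈ B.erase x1, f y := by
    rw [← smul_eq_mul]
    exact Finset.card_nsmul_le_sum _ _ _ fun y hy => hge y (Finset.mem_of_mem_erase hy)
  have h4 : 0 < B.card := Finset.card_pos.2 ⟨x1, hx1⟩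
  have h5 := hge x1 hx1
  have h6 : ∑ y ∈ B.erase x1, f y = 2 * (B.erase x1).card := by omega
  refine ⟨x1, hx1, by omega, ?_⟩
  intro x hx hne
  exact all_two (fun y hy => hge y (Finset.mem_of_mem_erase hy)) h6 x
    (Finset.mem_erase.2 ⟨hne, hx⟩)

lemma exists_small (hge : ∀ x ∈ B, 2 ≤ f x) (hle : ∀ x ∈ B, f x ≤ 3)
    (hs : ∑ x ∈ B, f x + 1 = 3 * B.card) :
    ∃ x1 ∈ B, f x1 = 2 ∧ ∀ x ∈ B, x ≠ x1 → f x = 3 := by
  have h1 : ∑ x ∈ B, (5 - f x) = 2 * B.card + 1 := by
    have : ∑ x ∈ B, (5 - f x) + ∑ x ∈ B, f x = 5 * B.card := by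
      rw [← Finset.sum_add_distrib, mul_comm, ← smul_eq_mul, ← Finset.sum_const]
      refine Finset.sum_congr rfl fun x hx => ?_
      have := hle x hx
      omega
    omega
  obtain ⟨x1, hx1, h2, h3⟩ := exists_big (f := fun x => 5 - f x) (B := B) (by
    intro x hx
    have := hle x hx
    omega) h1
  refine ⟨x1, hx1, ?_, ?_⟩
  · omega
  · intro x hx hne
    have := h3 x hx hne
    have := hle x hx
    omega

end sums

variable {Q : Type*} [Fintype Q] [DecidableEq Q] [Group Q] {m : Q → Q → Q}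

lemma full_row {x : Q} (hr : rho m x = (C0 m).card) {y : Q} (hy : y ∈ C0 m) : T m x y := by
  have hE : (univ.filter fun y => T m x y) = C0 m := by
    apply Finset.eq_of_subset_of_card_le
    · intro w hw
      rw [mem_filter] at hw
      exact mem_C0.2 ⟨x, hw.2⟩
    · rw [← rho_eq_card, hr]
  rw [← hE, mem_filter] at hy
  exact hy.2

lemma full_col {y : Q} (hr : gam m y = (B0 m).card) {x : Q} (hx : x ∈ B0 m) : T m x y := by
  have hE : (univ.filter fun x => T m x y) = B0 m := by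
    apply Finset.eq_of_subset_of_card_le
    · intro w hw
      rw [mem_filter] at hw
      exact mem_B0.2 ⟨y, hw.2⟩
    · rw [← gam_eq_card, hr]
  rw [← hE, mem_filter] at hx
  exact hx.2

/-- two cells of a row and two cells of a column force an involution -/
lemma no_square (h2 : ¬ 2 ∣ Fintype.card Q) (h3 : ¬ 3 ∣ Fintype.card Q) {x x' y y' : Q}
    (hy : y ≠ y') (h1 : x' * y = x * y') (h4 : x' * y' = x * y) : False := by
  apply hy
  have hd : (y⁻¹ * y') ^ 2 = 1 := by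
    have : x * y * (y⁻¹ * y') ^ 2 = x * y := by
      calc x * y * (y⁻¹ * y') ^ 2 = x * y' * y⁻¹ * y' := by rw [pow_two]; group
        _ = x' * y' := by rw [← h1]; group
        _ = x * y := h4
    exact mul_eq_left.1 this
  have := eq_one_of_dvd12 h2 h3 (by norm_num) hd
  rwa [inv_mul_eq_one] at this

/-- seven changed cells are impossible -/
theorem not_seven (h : IsQuasigroup m) (h2 : ¬ 2 ∣ Fintype.card Q)
    (h3 : ¬ 3 ∣ Fintype.card Q) (hB : (B0 m).card = 3) (hC : (C0 m).card = 3)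
    (ht : tt m = 7) : False := by
  obtain ⟨x1, hx1, r1, r2⟩ := exists_big (B := B0 m) (f := rho m)
    (fun x hx => two_le_rho h hx) (by rw [← tt_rho, ht, hB])
  obtain ⟨y1, hy1, c1, c2⟩ := exists_big (B := C0 m) (f := gam m)
    (fun x hx => two_le_gam h hx) (by rw [← tt_gam, ht, hC])
  have T11 : T m x1 y1 := full_row (by rw [r1, hC]) hy1
  obtain ⟨y', n1, Ty', v1⟩ := row_other h T11
  obtain ⟨x', n2, Tx', -⟩ := col_other h Ty'
  have hy' : y' ∈ C0 m := mem_C0.2 ⟨_, Ty'⟩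
  have hx' : x' ∈ B0 m := mem_B0.2 ⟨_, Tx'⟩
  have T4 : T m x' y1 := full_col (by rw [c1, hB]) hx'
  obtain ⟨a1, a2, -⟩ := row2 h T4 Tx' n1.symm (r2 x' hx' n2)
  obtain ⟨b1, b2, -⟩ := col2 h Ty' Tx' n2.symm (c2 y' hy' n1)
  apply no_square h2 h3 (x := x1) (x' := x') n1.symm
  · rw [← a2, b2]
  · rw [← b1, v1]

/-- eight changed cells in four rows and four columns are impossible -/
theorem not_eight44 (h : IsQuasigroup m) (h2 : ¬ 2 ∣ Fintype.card Q)
    (h3 : ¬ 3 ∣ Fintype.card Q) (hB : (B0 m).card = 4) (hC : (C0 m).card = 4)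
    (ht : tt m = 8) : False := by
  have hr := all_two (B := B0 m) (f := rho m) (fun x hx => two_le_rho h hx)
    (by rw [← tt_rho, ht, hB])
  have hg := all_two (B := C0 m) (f := gam m) (fun x hx => two_le_gam h hx)
    (by rw [← tt_gam, ht, hC])
  obtain ⟨x1, hx1⟩ : (B0 m).Nonempty := by rw [← Finset.card_pos]; omega
  obtain ⟨y1, T11⟩ := mem_B0.1 hx1
  obtain ⟨y2, n1, T12, -⟩ := row_other h T11
  set a := x1 * y1 with ha
  set d := y1⁻¹ * y2 with hd
  have hy2 : y2 = y1 * d := by rw [hd]; group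
  classical
  set S : Finset Q := univ.filter fun y => ∃ x, T m x y ∧ T m x (y * d) ∧ x * y = a with hS
  have hSC : S ⊆ C0 m := by
    intro y hy
    rw [hS, mem_filter] at hy
    obtain ⟨-, x, hx, -⟩ := hy
    exact mem_C0.2 ⟨x, hx⟩
  have hd1 : d ≠ 1 := by
    intro hh
    rw [hh, mul_one] at hy2
    exact n1 hy2
  apply hd1
  apply closed_small h2 h3 (S := S) ⟨y1, ?_⟩ ((Finset.card_le_card hSC).trans hC.le)
  · intro y hy
    rw [hS, mem_filter] at hy ⊢
    obtain ⟨-, x, hx, hxd, hxa⟩ := hy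
    have hne : y ≠ y * d := fun hh => hd1 (mul_eq_left.1 hh.symm)
    obtain ⟨e1, e2, -⟩ := row2 h hx hxd hne (hr x (mem_B0.2 ⟨_, hx⟩))
    obtain ⟨x', n2, hx', -⟩ := col_other h hxd
    obtain ⟨f1, f2, -⟩ := col2 h hxd hx' n2.symm (hg _ (mem_C0.2 ⟨_, hxd⟩))
    obtain ⟨y', n3, hy', -⟩ := row_other h hx'
    obtain ⟨g1, g2, -⟩ := row2 h hx' hy' n3.symm (hr x' (mem_B0.2 ⟨_, hx'⟩))
    have k1 : x' * (y * d) = a := by rw [← f1, e2, hxa]
    have k2 : x' * y' = a * d := by
      rw [← g1, f2, ← mul_assoc, hxa]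
    have k3 : y' = y * d * d := by
      have : x' * y' = x' * (y * d * d) := by
        rw [k2, ← k1]; group
      exact mul_left_cancel this
    refine ⟨mem_univ _, x', hx', ?_, k1⟩
    rw [← k3]; exact hy'
  · rw [hS, mem_filter]
    exact ⟨mem_univ _, x1, T11, by rw [← hy2]; exact T12, rfl⟩

end Pool.Agent.Helper32.Q5
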