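import Pool.Agent.Helper32.Q5.Class7

/-!
Eight changed cells.
-/

namespace Pool.Agent.Helper32.Q5

open Finset Pool.Agent.Helper60.Quas

set_option linter.unusedSimpArgs false
set_option linter.unusedSectionVars false

variable {Q : Type*} [Fintype Q] [DecidableEq Q] [Group Q] {m : Q → Q → Q}

omit [Fintype Q] [DecidableEq Q] in
/-- building the coset structure -/
lemma mk_cos {p : ℕ} {F : ZMod p → ZMod p → ZMod p} {e : ZMod p → Q} {c s : Q}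
    (eadd : ∀ i j, e (i + j) = e i * e j) (einj : Function.Injective e)
    (hT : ∀ x y, T m x y → ∃ i j, x = s * e i * c⁻¹ ∧ y = c * e j ∧ F i j ≠ i + j)
    (hv : ∀ i j, F i j ≠ i + j → m (s * e i * c⁻¹) (c * e j) = s * e (F i j)) :
    Cos m p F e c s where
  eadd := eadd
  einj := einj
  fval := by
    intro i j
    by_cases hF : F i j ≠ i + j
    · exact hv i j hF
    · push Not at hF
      have hn : ¬ T m (s * e i * c⁻¹) (c * e j) := by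
        intro hh
        obtain ⟨i', j', h1, h2, h3⟩ := hT _ _ hh
        have h4 : i = i' := einj (mul_left_cancel (mul_right_cancel h1))
        have h5 : j = j' := einj (mul_left_cancel h2)
        rw [← h4, ← h5] at h3
        exact h3 hF
      rw [not_T hn, hF, eadd]; group
  fout := by
    intro x y hxy
    obtain ⟨i, j, h1, h2, -⟩ := hT x y hxy
    exact ⟨⟨i, h1⟩, j, h2⟩

/-- powers of an element of order `p` -/
def pw {Q : Type*} [Group Q] (p : ℕ) (d : Q) (i : ZMod p) : Q := d ^ i.val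

omit [Fintype Q] [DecidableEq Q] in
lemma pw_add {p : ℕ} [NeZero p] {d : Q} (hd : d ^ p = 1) (i j : ZMod p) :
    pw p d (i + j) = pw p d i * pw p d j := by
  unfold pw
  rw [ZMod.val_add, ← pow_add]
  exact (pow_eq_pow_mod _ hd).symm

omit [Fintype Q] [DecidableEq Q] in
lemma pw_inj {p : ℕ} [Fact p.Prime] {d : Q} (hd : d ^ p = 1) (hd1 : d ≠ 1) :
    Function.Injective (pw p d) := by
  intro i j hij
  have ho : orderOf d = p := orderOf_eq_prime hd hd1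
  unfold pw at hij
  have h1 := pow_injOn_Iio_orderOf (x := d) (by
    rw [Set.mem_Iio, ho]; exact ZMod.val_lt i) (by
    rw [Set.mem_Iio, ho]; exact ZMod.val_lt j) hij
  exact ZMod.val_injective p h1

lemma Frow_ne : (Frow 0 0 ≠ 0 + 0 ∧ Frow 0 1 ≠ 0 + 1) ∧ (Frow 1 0 ≠ 1 + 0 ∧ Frow 1 1 ≠ 1 + 1) ∧
    (Frow 2 3 ≠ 2 + 3 ∧ Frow 2 0 ≠ 2 + 0) ∧ Frow 4 3 ≠ 4 + 3 ∧ Frow 4 1 ≠ 4 + 1 := by decide

lemma Frow_list : ∀ i j : ZMod 5, Frow i j ≠ i + j → (i = 0 ∧ j = 0) ∨ (i = 0 ∧ j = 1) ∨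
    (i = 1 ∧ j = 0) ∨ (i = 1 ∧ j = 1) ∨ (i = 2 ∧ j = 0) ∨ (i = 2 ∧ j = 3) ∨
    (i = 4 ∧ j = 1) ∨ (i = 4 ∧ j = 3) := by decide

lemma Frow_vals : (Frow 0 0 = 1 ∧ Frow 0 1 = 0) ∧ (Frow 1 0 = 2 ∧ Frow 1 1 = 1) ∧
    (Frow 2 0 = 0 ∧ Frow 2 3 = 2) ∧ Frow 4 1 = 2 ∧ Frow 4 3 = 0 := by decide

/-- four rows and three columns -/
theorem eight43 (h : IsQuasigroup m) (h2 : ¬ 2 ∣ Fintype.card Q)
    (h3 : ¬ 3 ∣ Fintype.card Q) (hB : (B0 m).card = 4) (hC : (C0 m).card = 3)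
    (ht : tt m = 8) : ∃ c d s : Q, d ≠ 1 ∧ d ^ 5 = 1 ∧ Cos m 5 Frow (pw 5 d) c s := by
  have hr := all_two (B := B0 m) (f := rho m) (fun x hx => two_le_rho h hx)
    (by rw [← tt_rho, ht, hB])
  have hr' : ∀ {x y}, T m x y → rho m x = 2 := fun {x y} hx => hr x (mem_B0.2 ⟨y, hx⟩)
  -- a column with two cells
  obtain ⟨y3, hy3, g3⟩ : ∃ y ∈ C0 m, gam m y = 2 := by
    by_contra hcon
    push Not at hcon
    have h4 : (C0 m).card * 3 ≤ ∑ y ∈ C0 m, gam m y := by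
      rw [← smul_eq_mul]
      refine Finset.card_nsmul_le_sum _ _ _ fun y hy => ?_
      have := hcon y hy
      have := two_le_gam h hy
      omega
    rw [← tt_gam, ht, hC] at h4
    omega
  obtain ⟨x3, T33⟩ := mem_C0.1 hy3
  obtain ⟨x4, n34, T43, -⟩ := col_other h T33
  obtain ⟨v33, v43, only3⟩ := col2 h T33 T43 n34.symm g3
  obtain ⟨c, na3, T3a, -⟩ := row_other h T33
  obtain ⟨yb, nb3, T4b, -⟩ := row_other h T43
  obtain ⟨w33, w3a, row3'⟩ := row2 h T33 T3a na3.symm (hr' T33)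
  obtain ⟨w43, w4b, row4'⟩ := row2 h T43 T4b nb3.symm (hr' T43)
  -- the columns are different
  have nab : c ≠ yb := by
    intro hab
    subst hab
    apply no_square h2 h3 (x := x3) (x' := x4) (y := y3) (y' := c) na3.symm
    · rw [← v33, w33]
    · rw [← w43, v43]
  have hCe : ∀ y, y ∈ C0 m → y = c ∨ y = yb ∨ y = y3 := by
    intro y hy
    have hE : ({c, yb, y3} : Finset Q) = C0 m := by
      apply Finset.eq_of_subset_of_card_le
      · intro w hw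
        simp only [mem_insert, mem_singleton] at hw
        rcases hw with rfl | rfl | rfl
        · exact mem_C0.2 ⟨_, T3a⟩
        · exact mem_C0.2 ⟨_, T4b⟩
        · exact hy3
      · rw [hC, Finset.card_eq_three.2 ⟨c, yb, y3, nab, na3, nb3, rfl⟩]
    rw [← hE] at hy
    simpa using hy
  have n4a : ¬ T m x4 c := by
    intro hh
    rcases row4' _ hh with e | e
    · exact na3 e
    · exact nab e
  have n3b : ¬ T m x3 yb := by
    intro hh
    rcases row3' _ hh with e | e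
    · exact nb3 e
    · exact nab e.symm
  -- other rows
  have hoth : ∀ x, x ∈ B0 m → x ≠ x3 → x ≠ x4 → T m x c ∧ T m x yb := by
    intro x hx hx3 hx4
    obtain ⟨y, hy⟩ := mem_B0.1 hx
    have hn3 : ∀ y, T m x y → y ≠ y3 := by
      rintro y hy rfl
      rcases only3 x hy with e | e
      · exact hx3 e
      · exact hx4 e
    obtain ⟨y', n, hy', -⟩ := row_other h hy
    rcases hCe y (mem_C0.2 ⟨x, hy⟩) with rfl | rfl | rfl
    · rcases hCe y' (mem_C0.2 ⟨x, hy'⟩) with rfl | rfl | rfl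
      · exact absurd rfl n
      · exact ⟨hy, hy'⟩
      · exact absurd rfl (hn3 _ hy')
    · rcases hCe y' (mem_C0.2 ⟨x, hy'⟩) with rfl | rfl | rfl
      · exact ⟨hy', hy⟩
      · exact absurd rfl n
      · exact absurd rfl (hn3 _ hy')
    · exact absurd rfl (hn3 _ hy)
  obtain ⟨x1, n13, T1a, s3a⟩ := col_src h T3a
  have n14 : x1 ≠ x4 := by
    rintro rfl
    exact n4a T1a
  obtain ⟨-, T1b⟩ := hoth x1 (mem_B0.2 ⟨_, T1a⟩) n13 n14
  obtain ⟨x2, hx2, hx2'⟩ : ∃ x2 ∈ B0 m, x2 ∉ ({x1, x3, x4} : Finset Q) := by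
    by_contra hcon
    push Not at hcon
    have h5 := Finset.card_le_card hcon
    rw [hB] at h5
    have := Finset.card_le_three (a := x1) (b := x3) (c := x4)
    omega
  simp only [mem_insert, mem_singleton, not_or] at hx2'
  obtain ⟨n21', n23, n24⟩ := hx2'
  have n21 : x2 ≠ x1 := n21'
  obtain ⟨T2a, T2b⟩ := hoth x2 hx2 n23 n24
  have hBe : ∀ x, x ∈ B0 m → x = x1 ∨ x = x2 ∨ x = x3 ∨ x = x4 := by
    intro x hx
    have hE : ({x1, x2, x3, x4} : Finset Q) = B0 m := by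
      apply Finset.eq_of_subset_of_card_le
      · intro w hw
        simp only [mem_insert, mem_singleton] at hw
        rcases hw with rfl | rfl | rfl | rfl
        · exact mem_B0.2 ⟨_, T1a⟩
        · exact hx2
        · exact mem_B0.2 ⟨_, T33⟩
        · exact mem_B0.2 ⟨_, T43⟩
      · rw [hB, Finset.card_insert_of_notMem, Finset.card_insert_of_notMem,
          Finset.card_pair n34.symm]
        · simp only [mem_insert, mem_singleton, not_or]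
          exact ⟨n23, n24⟩
        · simp only [mem_insert, mem_singleton, not_or]
          exact ⟨n21.symm, n13, n14⟩
    rw [← hE] at hx
    simpa using hx
  -- column c has three cells
  have ga : gam m c = 3 := by
    rw [gam_eq_card, Finset.card_eq_three]
    refine ⟨x1, x2, x3, n21.symm, n13, n23, ?_⟩
    ext x
    simp only [mem_filter, mem_univ, true_and, mem_insert, mem_singleton]
    constructor
    · intro hx
      rcases hBe x (mem_B0.2 ⟨_, hx⟩) with rfl | rfl | rfl | rfl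
      · exact Or.inl rfl
      · exact Or.inr (Or.inl rfl)
      · exact Or.inr (Or.inr rfl)
      · exact absurd hx n4a
    · rintro (rfl | rfl | rfl)
      · exact T1a
      · exact T2a
      · exact T3a
  obtain ⟨r1a, r1b, row1'⟩ := row2 h T1a T1b nab (hr' T1a)
  obtain ⟨r2a, r2b, row2'⟩ := row2 h T2a T2b nab (hr' T2a)
  obtain ⟨hcyc, -⟩ := col3 h T1a T2a T3a n21.symm n13 n23 ga
  have hcyc' : m x1 c = x2 * c ∧ m x2 c = x3 * c := by
    rcases hcyc with ⟨e1, e2, -⟩ | ⟨-, -, e3⟩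
    · exact ⟨e1, e2⟩
    · rw [s3a] at e3
      exact absurd (mul_right_cancel e3).symm n21
  obtain ⟨k1, k2⟩ := hcyc'
  obtain ⟨d, hd⟩ : ∃ d, d = c⁻¹ * yb := ⟨_, rfl⟩
  obtain ⟨s, hs⟩ : ∃ s, s = x1 * c := ⟨_, rfl⟩
  have hyb : yb = c * d := by rw [hd]; group
  have hd1 : d ≠ 1 := by
    intro hh
    rw [hh, mul_one] at hyb
    exact nab hyb.symm
  have q1 : x1 = s * c⁻¹ := by rw [hs]; group
  have q2 : x2 = s * d * c⁻¹ := by
    have : x2 * c = s * d := by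
      rw [← k1, r1a, hd, hs]; group
    rw [← this]; group
  have q3 : x3 = s * d ^ 2 * c⁻¹ := by
    have : x3 * c = s * d ^ 2 := by
      rw [← k2, r2a, hyb, q2, pow_two]; group
    rw [← this]; group
  have q4 : y3 = c * (d ^ 2)⁻¹ := by
    have : x3 * y3 = s := by rw [← w3a, s3a, hs]
    have h5 : y3 = x3⁻¹ * s := by rw [← this]; group
    rw [h5, q3]; group
  have q5 : x4 = s * d ^ 4 * c⁻¹ := by
    have : x4 * y3 = s * d ^ 2 := by
      rw [← v33, w33, q3]; group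
    have h5 : x4 = s * d ^ 2 * y3⁻¹ := by rw [← this]; group
    rw [h5, q4]; group
  have h5 : d ^ 5 = 1 := by
    have : x4 * yb = x3 * y3 := by rw [← w43, v43]
    rw [q5, hyb, q3, q4] at this
    have h6 : s * d ^ 5 = s := by
      calc s * d ^ 5 = s * d ^ 4 * c⁻¹ * (c * d) := by group
        _ = s * d ^ 2 * c⁻¹ * (c * (d ^ 2)⁻¹) := this
        _ = s := by group
    exact mul_eq_left.1 h6
  refine ⟨c, d, s, hd1, h5, ?_⟩
  have p0 : pw 5 d 0 = 1 := pow_zero d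
  have p1 : pw 5 d 1 = d := pow_one d
  have p2 : pw 5 d 2 = d ^ 2 := rfl
  have p3 : pw 5 d 3 = d ^ 3 := rfl
  have p4 : pw 5 d 4 = d ^ 4 := rfl
  have padd := fun i j => pw_add (p := 5) h5 i j
  have p3' : pw 5 d 3 = (d ^ 2)⁻¹ := by
    rw [p3, eq_inv_iff_mul_eq_one, ← pow_add]
    exact h5
  have : Fact (Nat.Prime 5) := ⟨by norm_num⟩
  have X0 : s * pw 5 d 0 * c⁻¹ = x1 := by rw [p0, mul_one, ← q1]
  have X1 : s * pw 5 d 1 * c⁻¹ = x2 := by rw [p1, ← q2]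
  have X2 : s * pw 5 d 2 * c⁻¹ = x3 := by rw [p2, ← q3]
  have X4 : s * pw 5 d 4 * c⁻¹ = x4 := by rw [p4, ← q5]
  have Y0 : c * pw 5 d 0 = c := by rw [p0, mul_one]
  have Y1 : c * pw 5 d 1 = yb := by rw [p1, ← hyb]
  have Y3 : c * pw 5 d 3 = y3 := by rw [p3', ← q4]
  apply mk_cos padd (pw_inj h5 hd1)
  · intro x y hxy
    rcases hBe x (mem_B0.2 ⟨_, hxy⟩) with rfl | rfl | rfl | rfl
    · rcases row1' y hxy with rfl | rfl
      · exact ⟨0, 0, X0.symm, Y0.symm, Frow_ne.1.1⟩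
      · exact ⟨0, 1, X0.symm, Y1.symm, Frow_ne.1.2⟩
    · rcases row2' y hxy with rfl | rfl
      · exact ⟨1, 0, X1.symm, Y0.symm, Frow_ne.2.1.1⟩
      · exact ⟨1, 1, X1.symm, Y1.symm, Frow_ne.2.1.2⟩
    · rcases row3' y hxy with rfl | rfl
      · exact ⟨2, 3, X2.symm, Y3.symm, Frow_ne.2.2.1.1⟩
      · exact ⟨2, 0, X2.symm, Y0.symm, Frow_ne.2.2.1.2⟩
    · rcases row4' y hxy with rfl | rfl
      · exact ⟨4, 3, X4.symm, Y3.symm, Frow_ne.2.2.2.1⟩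
      · exact ⟨4, 1, X4.symm, Y1.symm, Frow_ne.2.2.2.2⟩
  · obtain ⟨⟨f1, f2⟩, ⟨f3, f4⟩, ⟨f5, f6⟩, f7, f8⟩ := Frow_vals
    intro i j hij
    rcases Frow_list i j hij with ⟨rfl, rfl⟩ | ⟨rfl, rfl⟩ | ⟨rfl, rfl⟩ | ⟨rfl, rfl⟩ | ⟨rfl, rfl⟩ |
      ⟨rfl, rfl⟩ | ⟨rfl, rfl⟩ | ⟨rfl, rfl⟩
    · rw [X0, Y0, f1, p1, r1a, q1, hyb]; group
    · rw [X0, Y1, f2, p0, r1b, q1]; group
    · rw [X1, Y0, f3, p2, r2a, q2, hyb, pow_two]; group
    · rw [X1, Y1, f4, p1, r2b, q2]; group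
    · rw [X2, Y0, f5, p0, s3a, hs, mul_one]
    · rw [X2, Y3, f6, p2, w33, q3]; group
    · rw [X4, Y1, f7, p2, w4b, q5, q4]; group
    · rw [X4, Y3, f8, p0, v43, q3, q4]; group

lemma Fsym_list : ∀ i j : ZMod 5, Fsym i j ≠ i + j → (i = 0 ∧ j = 0) ∨ (i = 0 ∧ j = 1) ∨
    (i = 0 ∧ j = 3) ∨ (i = 1 ∧ j = 0) ∨ (i = 1 ∧ j = 1) ∨ (i = 2 ∧ j = 0) ∨
    (i = 2 ∧ j = 1) ∨ (i = 2 ∧ j = 3) := by decide

lemma Fsym_vals : (Fsym 0 0 = 1 ∧ Fsym 0 1 = 3 ∧ Fsym 0 3 = 0) ∧ (Fsym 1 0 = 2 ∧ Fsym 1 1 = 1) ∧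
    (Fsym 2 0 = 0 ∧ Fsym 2 1 = 2 ∧ Fsym 2 3 = 3) := by decide

lemma Fsym_ne : (Fsym 0 0 ≠ 0 + 0 ∧ Fsym 0 1 ≠ 0 + 1 ∧ Fsym 0 3 ≠ 0 + 3) ∧
    (Fsym 1 0 ≠ 1 + 0 ∧ Fsym 1 1 ≠ 1 + 1) ∧
    (Fsym 2 0 ≠ 2 + 0 ∧ Fsym 2 1 ≠ 2 + 1 ∧ Fsym 2 3 ≠ 2 + 3) := by decide

/-- three rows and three columns -/
theorem eight33 (h : IsQuasigroup m) (hB : (B0 m).card = 3) (hC : (C0 m).card = 3)
    (ht : tt m = 8) : ∃ c d s : Q, d ≠ 1 ∧ d ^ 5 = 1 ∧ Cos m 5 Fsym (pw 5 d) c s := by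
  have hle : ∀ x ∈ B0 m, rho m x ≤ 3 := fun x _ => (rho_le x).trans hC.le
  have hle' : ∀ x ∈ C0 m, gam m x ≤ 3 := fun x _ => (gam_le x).trans hB.le
  obtain ⟨x3, hx3, r3, r3'⟩ := exists_small (B := B0 m) (f := rho m)
    (fun x hx => two_le_rho h hx) hle (by rw [← tt_rho, ht, hB])
  obtain ⟨y3, hy3, g3, g3'⟩ := exists_small (B := C0 m) (f := gam m)
    (fun x hx => two_le_gam h hx) hle' (by rw [← tt_gam, ht, hC])
  obtain ⟨x1, hx1, n13⟩ : ∃ x1 ∈ B0 m, x1 ≠ x3 := by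
    by_contra hcon
    push Not at hcon
    have : B0 m ⊆ {x3} := fun x hx => by rw [mem_singleton]; exact hcon x hx
    have := Finset.card_le_card this
    rw [hB, Finset.card_singleton] at this
    omega
  obtain ⟨x2, hx2, hx2'⟩ : ∃ x2 ∈ B0 m, x2 ∉ ({x1, x3} : Finset Q) := by
    by_contra hcon
    push Not at hcon
    have h5 := Finset.card_le_card hcon
    rw [hB] at h5
    have := Finset.card_le_two (a := x1) (b := x3)
    omega
  simp only [mem_insert, mem_singleton, not_or] at hx2'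
  obtain ⟨n21', n23'⟩ := hx2'
  have n21 : x2 ≠ x1 := n21'
  have n23 : x2 ≠ x3 := n23'
  have T13 : T m x1 y3 := full_row (by rw [r3' x1 hx1 n13, hC]) hy3
  have T23 : T m x2 y3 := full_row (by rw [r3' x2 hx2 n23, hC]) hy3
  obtain ⟨y1, n1, T11, v13⟩ := row_src h T13
  have hy1 : y1 ∈ C0 m := mem_C0.2 ⟨_, T11⟩
  obtain ⟨y2, hy2, hy2'⟩ : ∃ y2 ∈ C0 m, y2 ∉ ({y1, y3} : Finset Q) := by
    by_contra hcon
    push Not at hcon
    have h5 := Finset.card_le_card hcon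
    rw [hC] at h5
    have := Finset.card_le_two (a := y1) (b := y3)
    omega
  simp only [mem_insert, mem_singleton, not_or] at hy2'
  obtain ⟨m21', m23'⟩ := hy2'
  have m21 : y2 ≠ y1 := m21'
  have m23 : y2 ≠ y3 := m23'
  have T12 : T m x1 y2 := full_row (by rw [r3' x1 hx1 n13, hC]) hy2
  have T21 : T m x2 y1 := full_row (by rw [r3' x2 hx2 n23, hC]) hy1
  have T22 : T m x2 y2 := full_row (by rw [r3' x2 hx2 n23, hC]) hy2
  have T31 : T m x3 y1 := full_col (by rw [g3' y1 hy1 n1, hB]) hx3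
  have T32 : T m x3 y2 := full_col (by rw [g3' y2 hy2 m23, hB]) hx3
  obtain ⟨u1, u2, only3⟩ := row2 h T31 T32 m21.symm r3
  obtain ⟨w1, w2, onlyc3⟩ := col2 h T13 T23 n21.symm g3
  obtain ⟨R1, only1⟩ := row3 h T11 T12 T13 m21.symm n1 m23 (r3' x1 hx1 n13)
  obtain ⟨R2, only2⟩ := row3 h T21 T22 T23 m21.symm n1 m23 (r3' x2 hx2 n23)
  obtain ⟨C1, -⟩ := col3 h T11 T21 T31 n21.symm n13 n23 (g3' y1 hy1 n1)
  obtain ⟨C2, -⟩ := col3 h T12 T22 T32 n21.symm n13 n23 (g3' y2 hy2 m23)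
  have hBe : ∀ x, x ∈ B0 m → x = x1 ∨ x = x2 ∨ x = x3 := by
    intro x hx
    have hE : ({x1, x2, x3} : Finset Q) = B0 m := by
      apply Finset.eq_of_subset_of_card_le
      · intro w hw
        simp only [mem_insert, mem_singleton] at hw
        rcases hw with rfl | rfl | rfl
        · exact hx1
        · exact hx2
        · exact hx3
      · rw [hB, Finset.card_eq_three.2 ⟨x1, x2, x3, n21.symm, n13, n23, rfl⟩]
    rw [← hE] at hx
    simpa using hx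
  -- disequalities of the cell products
  have rne : ∀ {x y y' : Q}, y ≠ y' → x * y ≠ x * y' := fun hne hh => hne (mul_left_cancel hh)
  have cne : ∀ {x x' y : Q}, x ≠ x' → x * y ≠ x' * y := fun hne hh => hne (mul_right_cancel hh)
  have R1' : m x1 y1 = x1 * y2 ∧ m x1 y2 = x1 * y3 := by
    rcases R1 with ⟨e1, e2, -⟩ | ⟨-, -, e3⟩
    · exact ⟨e1, e2⟩
    · rw [v13] at e3
      exact absurd e3 (rne m21.symm)
  obtain ⟨a1, a2⟩ := R1'
  have R2' : m x2 y1 = x2 * y3 ∧ m x2 y2 = x2 * y1 ∧ m x2 y3 = x2 * y2 := by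
    rcases R2 with ⟨b1, b2, b3⟩ | hh
    · exfalso
      rcases C1 with ⟨c1, c2, c3⟩ | ⟨c1, c2, c3⟩
      · -- x1 y2 = x2 y1 = x1 y3
        apply rne (x := x1) m23
        rw [← a1, c1, ← b3, w2]
      · -- x2 y2 = m x2 y1 = x1 y1 = m x1 y3 = x2 y3
        apply rne (x := x2) m23
        rw [← b1, c2, ← v13, w1]
    · exact hh
  obtain ⟨b1, b2, b3⟩ := R2'
  have C1' : m x1 y1 = x3 * y1 ∧ m x2 y1 = x1 * y1 ∧ m x3 y1 = x2 * y1 := by
    rcases C1 with ⟨c1, c2, c3⟩ | hh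
    · exfalso
      rcases C2 with ⟨d1, d2, d3⟩ | ⟨d1, d2, d3⟩
      · apply cne (y := y1) n23
        rw [← c1, a1, ← d3, u2]
      · apply rne (x := x2) m23.symm
        rw [← b1, c2, ← u2, d3]
    · exact hh
  obtain ⟨c1, c2, c3⟩ := C1'
  have C2' : m x1 y2 = x2 * y2 ∧ m x2 y2 = x3 * y2 ∧ m x3 y2 = x1 * y2 := by
    rcases C2 with hh | ⟨d1, d2, d3⟩
    · exact hh
    · exfalso
      apply cne (y := y2) n13
      rw [← d2, b2, ← c3, u1]
  obtain ⟨d1, d2, d3⟩ := C2'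
  obtain ⟨c, hc⟩ : ∃ c, c = y1 := ⟨_, rfl⟩
  subst hc
  obtain ⟨d, hd⟩ : ∃ d, d = c⁻¹ * y2 := ⟨_, rfl⟩
  obtain ⟨s, hs⟩ : ∃ s, s = x1 * c := ⟨_, rfl⟩
  have hyb : y2 = c * d := by rw [hd]; group
  have hdn : d ≠ 1 := by
    intro hh
    rw [hh, mul_one] at hyb
    exact m21 hyb
  have q1 : x1 = s * c⁻¹ := by rw [hs]; group
  have q3 : x3 = s * d * c⁻¹ := by
    have : x3 * c = s * d := by
      rw [← c1, a1, hd, hs]; group
    rw [← this]; group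
  have q2 : x2 = s * d ^ 2 * c⁻¹ := by
    have : x2 * c = s * d ^ 2 := by
      rw [← c3, u1, hyb, q3, pow_two]; group
    rw [← this]; group
  have q4 : y3 = c * d ^ 3 := by
    have : x1 * y3 = s * d ^ 3 := by
      rw [← a2, d1, q2, hyb, pow_succ d 2]; group
    have h5 : y3 = x1⁻¹ * (s * d ^ 3) := by rw [← this]; group
    rw [h5, q1]; group
  have h5 : d ^ 5 = 1 := by
    have : x2 * y3 = s := by rw [← b1, c2, hs]
    rw [q2, q4] at this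
    have h6 : s * d ^ 5 = s := by
      calc s * d ^ 5 = s * d ^ 2 * c⁻¹ * (c * d ^ 3) := by group
        _ = s := this
    exact mul_eq_left.1 h6
  refine ⟨c, d, s, hdn, h5, ?_⟩
  have p0 : pw 5 d 0 = 1 := pow_zero d
  have p1 : pw 5 d 1 = d := pow_one d
  have p2 : pw 5 d 2 = d ^ 2 := rfl
  have p3 : pw 5 d 3 = d ^ 3 := rfl
  have padd := fun i j => pw_add (p := 5) h5 i j
  have : Fact (Nat.Prime 5) := ⟨by norm_num⟩
  have X0 : s * pw 5 d 0 * c⁻¹ = x1 := by rw [p0, mul_one, ← q1]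
  have X1 : s * pw 5 d 1 * c⁻¹ = x3 := by rw [p1, ← q3]
  have X2 : s * pw 5 d 2 * c⁻¹ = x2 := by rw [p2, ← q2]
  have Y0 : c * pw 5 d 0 = c := by rw [p0, mul_one]
  have Y1 : c * pw 5 d 1 = y2 := by rw [p1, ← hyb]
  have Y3 : c * pw 5 d 3 = y3 := by rw [p3, ← q4]
  obtain ⟨⟨z1, z2, z3⟩, ⟨z4, z5⟩, z6, z7, z8⟩ := Fsym_ne
  apply mk_cos padd (pw_inj h5 hdn)
  · intro x y hxy
    rcases hBe x (mem_B0.2 ⟨_, hxy⟩) with rfl | rfl | rfl
    · rcases only1 y hxy with rfl | rfl | rfl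
      · exact ⟨0, 0, X0.symm, Y0.symm, z1⟩
      · exact ⟨0, 1, X0.symm, Y1.symm, z2⟩
      · exact ⟨0, 3, X0.symm, Y3.symm, z3⟩
    · rcases only2 y hxy with rfl | rfl | rfl
      · exact ⟨2, 0, X2.symm, Y0.symm, z6⟩
      · exact ⟨2, 1, X2.symm, Y1.symm, z7⟩
      · exact ⟨2, 3, X2.symm, Y3.symm, z8⟩
    · rcases only3 y hxy with rfl | rfl
      · exact ⟨1, 0, X1.symm, Y0.symm, z4⟩
      · exact ⟨1, 1, X1.symm, Y1.symm, z5⟩
  · obtain ⟨⟨f1, f2, f3⟩, ⟨f4, f5⟩, f6, f7, f8⟩ := Fsym_vals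
    intro i j hij
    rcases Fsym_list i j hij with ⟨rfl, rfl⟩ | ⟨rfl, rfl⟩ | ⟨rfl, rfl⟩ | ⟨rfl, rfl⟩ |
      ⟨rfl, rfl⟩ | ⟨rfl, rfl⟩ | ⟨rfl, rfl⟩ | ⟨rfl, rfl⟩
    · rw [X0, Y0, f1, p1, a1, q1, hyb]; group
    · rw [X0, Y1, f2, p3, a2, q1, q4]; group
    · rw [X0, Y3, f3, p0, v13, hs, mul_one]
    · rw [X1, Y0, f4, p2, u1, q3, hyb, pow_two]; group
    · rw [X1, Y1, f5, p1, u2, q3]; group
    · rw [X2, Y0, f6, p0, c2, hs, mul_one]
    · rw [X2, Y1, f7, p2, b2, q2]; group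
    · rw [X2, Y3, f8, p3, b3, q2, hyb, pow_succ d 2]; group

end Pool.Agent.Helper32.Q5
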