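import Pool.Agent.Helper32.Q5.Cover

/-!
The table of order seven with four rows and four columns, and the finite checks.
-/

namespace Pool.Agent.Helper32.Q5

/-- four rows, four columns -/
def F44 : ZMod 7 → ZMod 7 → ZMod 7 := fun i j =>
  if i = 0 then (if j = 1 then 2 else if j = 2 then 4 else if j = 4 then 1 else i + j) else
  if i = 1 then (if j = 0 then 2 else if j = 1 then 1 else i + j) else
  if i = 2 then (if j = 0 then 4 else if j = 2 then 2 else i + j) else
  if i = 4 then (if j = 0 then 1 else if j = 4 then 4 else i + j) else i + j

theorem check44 : Check F44 134 where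
  c1 := by decide +kernel
  c2 := by decide +kernel
  c3 := by decide +kernel
  c4 := by decide +kernel
  c5 := by decide +kernel

end Pool.Agent.Helper32.Q5
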