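import Pool.Agent.Helper32.Q5.Class8
import Pool.Agent.Helper32.Q5.Tables7
import Pool.Agent.Helper32.Q5.Tables7b

/-!
Nine changed cells.
-/

namespace Pool.Agent.Helper32.Q5

open Finset Pool.Agent.Helper60.Quas

set_option linter.unusedSimpArgs false
set_option linter.unusedSectionVars false

variable {Q : Type*} [Fintype Q] [DecidableEq Q] [Group Q] {m : Q → Q → Q}

lemma F44_list : ∀ i j : ZMod 7, F44 i j ≠ i + j → (i = 0 ∧ j = 1) ∨ (i = 0 ∧ j = 2) ∨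
    (i = 0 ∧ j = 4) ∨ (i = 1 ∧ j = 0) ∨ (i = 1 ∧ j = 1) ∨ (i = 2 ∧ j = 0) ∨
    (i = 2 ∧ j = 2) ∨ (i = 4 ∧ j = 0) ∨ (i = 4 ∧ j = 4) := by decide

lemma F44_vals : (F44 0 1 = 2 ∧ F44 0 2 = 4 ∧ F44 0 4 = 1) ∧ (F44 1 0 = 2 ∧ F44 1 1 = 1) ∧
    (F44 2 0 = 4 ∧ F44 2 2 = 2) ∧ (F44 4 0 = 1 ∧ F44 4 4 = 4) := by decide

lemma F44_ne : (F44 0 1 ≠ 0 + 1 ∧ F44 0 2 ≠ 0 + 2 ∧ F44 0 4 ≠ 0 + 4) ∧
    (F44 1 0 ≠ 1 + 0 ∧ F44 1 1 ≠ 1 + 1) ∧ (F44 2 0 ≠ 2 + 0 ∧ F44 2 2 ≠ 2 + 2) ∧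
    (F44 4 0 ≠ 4 + 0 ∧ F44 4 4 ≠ 4 + 4) := by decide

lemma F43_list : ∀ i j : ZMod 7, F43 i j ≠ i + j → (i = 0 ∧ j = 0) ∨ (i = 0 ∧ j = 1) ∨
    (i = 0 ∧ j = 5) ∨ (i = 1 ∧ j = 0) ∨ (i = 1 ∧ j = 1) ∨ (i = 2 ∧ j = 0) ∨
    (i = 2 ∧ j = 5) ∨ (i = 4 ∧ j = 1) ∨ (i = 4 ∧ j = 5) := by decide

lemma F43_vals : (F43 0 0 = 1 ∧ F43 0 1 = 5 ∧ F43 0 5 = 0) ∧ (F43 1 0 = 2 ∧ F43 1 1 = 1) ∧
    (F43 2 0 = 0 ∧ F43 2 5 = 2) ∧ (F43 4 1 = 2 ∧ F43 4 5 = 5) := by decide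

lemma F43_ne : (F43 0 0 ≠ 0 + 0 ∧ F43 0 1 ≠ 0 + 1 ∧ F43 0 5 ≠ 0 + 5) ∧
    (F43 1 0 ≠ 1 + 0 ∧ F43 1 1 ≠ 1 + 1) ∧ (F43 2 0 ≠ 2 + 0 ∧ F43 2 5 ≠ 2 + 5) ∧
    (F43 4 1 ≠ 4 + 1 ∧ F43 4 5 ≠ 4 + 5) := by decide

lemma mem4 {B : Finset Q} (hB : B.card = 4) {x1 x2 x3 x4 : Q} (h1 : x1 ∈ B) (h2 : x2 ∈ B)
    (h3 : x3 ∈ B) (h4 : x4 ∈ B) (n12 : x1 ≠ x2) (n13 : x1 ≠ x3) (n14 : x1 ≠ x4)
    (n23 : x2 ≠ x3) (n24 : x2 ≠ x4) (n34 : x3 ≠ x4) :
    ∀ x, x ∈ B → x = x1 ∨ x = x2 ∨ x = x3 ∨ x = x4 := by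
  intro x hx
  have hE : ({x1, x2, x3, x4} : Finset Q) = B := by
    apply Finset.eq_of_subset_of_card_le
    · intro w hw
      simp only [mem_insert, mem_singleton] at hw
      rcases hw with rfl | rfl | rfl | rfl <;> assumption
    · rw [hB, Finset.card_insert_of_notMem, Finset.card_insert_of_notMem,
        Finset.card_pair n34]
      · simp only [mem_insert, mem_singleton, not_or]
        exact ⟨n23, n24⟩
      · simp only [mem_insert, mem_singleton, not_or]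
        exact ⟨n12, n13, n14⟩
  rw [← hE] at hx
  simpa using hx

lemma mem3 {B : Finset Q} (hB : B.card = 3) {x1 x2 x3 : Q} (h1 : x1 ∈ B) (h2 : x2 ∈ B)
    (h3 : x3 ∈ B) (n12 : x1 ≠ x2) (n13 : x1 ≠ x3) (n23 : x2 ≠ x3) :
    ∀ x, x ∈ B → x = x1 ∨ x = x2 ∨ x = x3 := by
  intro x hx
  have hE : ({x1, x2, x3} : Finset Q) = B := by
    apply Finset.eq_of_subset_of_card_le
    · intro w hw
      simp only [mem_insert, mem_singleton] at hw
      rcases hw with rfl | rfl | rfl <;> assumption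
    · rw [hB, Finset.card_eq_three.2 ⟨x1, x2, x3, n12, n13, n23, rfl⟩]
  rw [← hE] at hx
  simpa using hx

lemma third {B : Finset Q} (hB : B.card = 3) (a b : Q) : ∃ c ∈ B, c ≠ a ∧ c ≠ b := by
  by_contra hcon
  push Not at hcon
  have : B ⊆ {a, b} := by
    intro x hx
    rw [mem_insert, mem_singleton]
    by_cases hxa : x = a
    · exact Or.inl hxa
    · exact Or.inr (hcon x hx hxa)
  have h1 := Finset.card_le_card this
  have := Finset.card_le_two (a := a) (b := b)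
  omega

lemma fourth {B : Finset Q} (hB : B.card = 4) (a b c : Q) :
    ∃ d ∈ B, d ≠ a ∧ d ≠ b ∧ d ≠ c := by
  by_contra hcon
  push Not at hcon
  have : B ⊆ {a, b, c} := by
    intro x hx
    rw [mem_insert, mem_insert, mem_singleton]
    by_cases hxa : x = a
    · exact Or.inl hxa
    · by_cases hxb : x = b
      · exact Or.inr (Or.inl hxb)
      · exact Or.inr (Or.inr (hcon x hx hxa hxb))
  have h1 := Finset.card_le_card this
  have := Finset.card_le_three (a := a) (b := b) (c := c)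
  omega

/-- if one row is missing from a column with `|B0| - 1` cells then all other rows are there -/
lemma almost_full_col {y x0 : Q} (hx0 : x0 ∈ B0 m) (hr : gam m y + 1 = (B0 m).card)
    (h0 : ¬ T m x0 y) {x : Q} (hx : x ∈ B0 m) (hne : x ≠ x0) : T m x y := by
  have hE : (univ.filter fun x => T m x y) = (B0 m).erase x0 := by
    apply Finset.eq_of_subset_of_card_le
    · intro w hw
      rw [mem_filter] at hw
      rw [mem_erase]
      refine ⟨?_, mem_B0.2 ⟨y, hw.2⟩⟩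
      rintro rfl
      exact h0 hw.2
    · rw [← gam_eq_card, Finset.card_erase_of_mem hx0]
      omega
  have : x ∈ (B0 m).erase x0 := mem_erase.2 ⟨hne, hx⟩
  rw [← hE, mem_filter] at this
  exact this.2

lemma almost_full_row {x y0 : Q} (hy0 : y0 ∈ C0 m) (hr : rho m x + 1 = (C0 m).card)
    (h0 : ¬ T m x y0) {y : Q} (hy : y ∈ C0 m) (hne : y ≠ y0) : T m x y := by
  have hE : (univ.filter fun y => T m x y) = (C0 m).erase y0 := by
    apply Finset.eq_of_subset_of_card_le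
    · intro w hw
      rw [mem_filter] at hw
      rw [mem_erase]
      refine ⟨?_, mem_C0.2 ⟨x, hw.2⟩⟩
      rintro rfl
      exact h0 hw.2
    · rw [← rho_eq_card, Finset.card_erase_of_mem hy0]
      omega
  have : y ∈ (C0 m).erase y0 := mem_erase.2 ⟨hne, hy⟩
  rw [← hE, mem_filter] at this
  exact this.2

/-- four rows and four columns -/
theorem nine44 (h : IsQuasigroup m) (h2 : ¬ 2 ∣ Fintype.card Q)
    (h3 : ¬ 3 ∣ Fintype.card Q) (hB : (B0 m).card = 4) (hC : (C0 m).card = 4)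
    (ht : tt m = 9) : ∃ c d s : Q, d ≠ 1 ∧ d ^ 7 = 1 ∧ Cos m 7 F44 (pw 7 d) c s := by
  obtain ⟨x1, hx1, r1, r2⟩ := exists_big (B := B0 m) (f := rho m)
    (fun x hx => two_le_rho h hx) (by rw [← tt_rho, ht, hB])
  obtain ⟨y1, hy1, c1, c2⟩ := exists_big (B := C0 m) (f := gam m)
    (fun x hx => two_le_gam h hx) (by rw [← tt_gam, ht, hC])
  by_cases T11 : T m x1 y1
  · exfalso
    obtain ⟨ya, na, T1a, v1a⟩ := row_other h T11
    obtain ⟨x', nx', Tx'a, -⟩ := col_other h T1a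
    obtain ⟨e1, e2, -⟩ := col2 h T1a Tx'a nx'.symm (c2 ya (mem_C0.2 ⟨_, T1a⟩) na)
    have hx' : x' ∈ B0 m := mem_B0.2 ⟨_, Tx'a⟩
    have n1 : ¬ T m x' y1 := by
      intro hh
      obtain ⟨f1, f2, -⟩ := row2 h hh Tx'a na.symm (r2 x' hx' nx')
      apply no_square h2 h3 (x := x1) (x' := x') na.symm
      · rw [← f2, e2]
      · rw [← e1, v1a]
    obtain ⟨y4, n4, Tx'4, -⟩ := row_other h Tx'a
    obtain ⟨f1, f2, -⟩ := row2 h Tx'a Tx'4 n4.symm (r2 x' hx' nx')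
    have n41 : y4 ≠ y1 := by
      rintro rfl
      exact n1 Tx'4
    have hy4 : y4 ∈ C0 m := mem_C0.2 ⟨_, Tx'4⟩
    obtain ⟨x2, n2, T24, -⟩ := col_other h Tx'4
    obtain ⟨g1, g2, -⟩ := col2 h Tx'4 T24 n2.symm (c2 y4 hy4 n41)
    have n21 : x2 ≠ x1 := by
      rintro rfl
      apply n41
      have : x2 * y4 = x2 * y1 := by
        rw [← g1, f2, ← e1, v1a]
      exact mul_left_cancel this
    have hx2 : x2 ∈ B0 m := mem_B0.2 ⟨_, T24⟩
    have T21 : T m x2 y1 := almost_full_col hx' (by rw [c1, hB]) n1 hx2 n2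
    obtain ⟨k1, k2, -⟩ := row2 h T21 T24 n41.symm (r2 x2 hx2 n21)
    -- the four equations
    have q1 : x' * ya = x1 * y1 := by rw [← e1, v1a]
    have q2 : x' * y4 = x1 * ya := by rw [← f1, e2]
    have q3 : x2 * y4 = x1 * y1 := by rw [← g1, f2, q1]
    have q4 : x2 * y1 = x1 * ya := by rw [← k2, g2, q2]
    have hu : (y1⁻¹ * ya) ^ 3 = 1 := by
      have a1 : x' = x1 * y1 * ya⁻¹ := by rw [← q1]; group
      have a2 : x2 = x1 * ya * y1⁻¹ := by rw [← q4]; group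
      have a3 : y4 = ya * y1⁻¹ * ya := by
        have : y4 = x'⁻¹ * (x1 * ya) := by rw [← q2]; group
        rw [this, a1]; group
      rw [a2, a3] at q3
      have : x1 * y1 * (y1⁻¹ * ya) ^ 3 = x1 * y1 := by
        calc x1 * y1 * (y1⁻¹ * ya) ^ 3 = x1 * ya * y1⁻¹ * (ya * y1⁻¹ * ya) := by
              simp only [pow_succ, pow_zero, one_mul]; group
          _ = x1 * y1 := q3
      exact mul_eq_left.1 this
    have := eq_one_of_dvd12 h2 h3 (by norm_num) hu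
    rw [inv_mul_eq_one] at this
    exact na this.symm
  · -- the cell (x1, y1) is not changed
    have hcol : ∀ x, x ∈ B0 m → x ≠ x1 → T m x y1 := fun x hx hne =>
      almost_full_col hx1 (by rw [c1, hB]) T11 hx hne
    have hrow : ∀ y, y ∈ C0 m → y ≠ y1 → T m x1 y := fun y hy hne =>
      almost_full_row hy1 (by rw [r1, hC]) T11 hy hne
    have key : ∀ x, x ∈ B0 m → x ≠ x1 → ∃ y, y ≠ y1 ∧ T m x y ∧ T m x1 y ∧ m x y1 = x * y ∧
        m x y = x * y1 ∧ (∀ z, T m x z → z = y1 ∨ z = y) ∧ m x1 y = x * y ∧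
        x * y1 = x1 * y := by
      intro x hx hne
      have Tx1 := hcol x hx hne
      obtain ⟨y, ny, Txy, -⟩ := row_other h Tx1
      obtain ⟨a1, a2, a3⟩ := row2 h Tx1 Txy ny.symm (r2 x hx hne)
      have hy : y ∈ C0 m := mem_C0.2 ⟨_, Txy⟩
      have T1y := hrow y hy ny
      obtain ⟨b1, b2, -⟩ := col2 h T1y Txy hne.symm (c2 y hy ny)
      exact ⟨y, ny, Txy, T1y, a1, a2, a3, b1, by rw [← a2, b2]⟩
    obtain ⟨x2, hx2, n21, -⟩ := fourth hB x1 x1 x1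
    obtain ⟨y2, m21, T22, T12, v21, v22, only2, v12, w2⟩ := key x2 hx2 n21
    obtain ⟨x3, n32, T31, u2⟩ := col_src h (hcol x2 hx2 n21)
    have n31 : x3 ≠ x1 := by
      rintro rfl
      exact T11 T31
    have hx3 : x3 ∈ B0 m := mem_B0.2 ⟨_, T31⟩
    obtain ⟨y3, m31, T33, T13, v31, v33, only3, v13, w3⟩ := key x3 hx3 n31
    obtain ⟨x4, n43, T41, u3⟩ := col_src h (hcol x3 hx3 n31)
    have n41 : x4 ≠ x1 := by
      rintro rfl
      exact T11 T41
    have hx4 : x4 ∈ B0 m := mem_B0.2 ⟨_, T41⟩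
    obtain ⟨y4, m41, T44, T14, v41, v44, only4, v14, w4⟩ := key x4 hx4 n41
    obtain ⟨x5, n54, T51, u4⟩ := col_src h (hcol x4 hx4 n41)
    have n51 : x5 ≠ x1 := by
      rintro rfl
      exact T11 T51
    have hx5 : x5 ∈ B0 m := mem_B0.2 ⟨_, T51⟩
    obtain ⟨c, hc⟩ : ∃ c, c = y1 := ⟨_, rfl⟩
    subst hc
    obtain ⟨d, hd⟩ : ∃ d, d = c⁻¹ * y2 := ⟨_, rfl⟩
    obtain ⟨s, hs⟩ : ∃ s, s = x1 * c := ⟨_, rfl⟩
    have hyb : y2 = c * d := by rw [hd]; group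
    have hdn : d ≠ 1 := by
      intro hh
      rw [hh, mul_one] at hyb
      exact m21 hyb
    have q1 : x1 = s * c⁻¹ := by rw [hs]; group
    have q2 : x2 = s * d * c⁻¹ := by
      have : x2 * c = s * d := by
        rw [w2, hd, hs]; group
      rw [← this]; group
    have q3 : x3 = s * d ^ 2 * c⁻¹ := by
      have : x3 * c = s * d ^ 2 := by
        rw [← u2, v21, hyb, q2, pow_two]; group
      rw [← this]; group
    have z3 : y3 = c * d ^ 2 := by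
      have : y3 = x1⁻¹ * (x3 * c) := by rw [w3]; group
      rw [this, q1, q3]; group
    have q4 : x4 = s * d ^ 4 * c⁻¹ := by
      have : x4 * c = s * d ^ 4 := by
        rw [← u3, v31, z3, q3]; group
      rw [← this]; group
    have z4 : y4 = c * d ^ 4 := by
      have : y4 = x1⁻¹ * (x4 * c) := by rw [w4]; group
      rw [this, q1, q4]; group
    have q5 : x5 = s * d ^ 8 * c⁻¹ := by
      have : x5 * c = s * d ^ 8 := by
        rw [← u4, v41, z4, q4]; group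
      rw [← this]; group
    have n42 : x4 ≠ x2 := by
      intro hh
      rw [q4, q2] at hh
      have h5 : d ^ 4 = d := mul_left_cancel (mul_right_cancel hh)
      have h6 : d ^ 3 = 1 := by
        have : d * d ^ 3 = d := by rw [← pow_succ']; exact h5
        exact mul_eq_left.1 this
      exact hdn (eq_one_of_dvd12 h2 h3 (by norm_num) h6)
    have hBe := mem4 hB hx1 hx2 hx3 hx4 n21.symm n31.symm n41.symm n32.symm n42.symm n43.symm
    have h7 : d ^ 7 = 1 := by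
      rcases hBe x5 hx5 with e | e | e | e
      · exact absurd e n51
      · rw [q5, q2] at e
        have h5 : d ^ 8 = d := mul_left_cancel (mul_right_cancel e)
        have : d * d ^ 7 = d := by rw [← pow_succ']; exact h5
        exact mul_eq_left.1 this
      · rw [q5, q3] at e
        have h5 : d ^ 8 = d ^ 2 := mul_left_cancel (mul_right_cancel e)
        have h6 : d ^ 6 = 1 := by
          have : d ^ 2 * d ^ 6 = d ^ 2 := by rw [← pow_add]; exact h5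
          exact mul_eq_left.1 this
        exact absurd (eq_one_of_dvd12 h2 h3 (by norm_num) h6) hdn
      · exact absurd e n54
    have h8 : d ^ 8 = d := by rw [pow_succ, h7, one_mul]
    have m32 : y3 ≠ y2 := by
      intro hh
      rw [z3, hyb] at hh
      have h5 : d ^ 2 = d := mul_left_cancel hh
      apply hdn
      rw [pow_two] at h5
      exact mul_eq_left.1 h5
    have m42 : y4 ≠ y2 := by
      intro hh
      rw [z4, hyb] at hh
      have h5 : d ^ 4 = d := mul_left_cancel hh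
      apply n42
      rw [q4, q2, h5]
    have m43 : y4 ≠ y3 := by
      intro hh
      apply n43
      rw [q4, q3]
      rw [z4, z3] at hh
      rw [mul_left_cancel hh]
    have hCe := mem4 hC hy1 (mem_C0.2 ⟨_, T22⟩) (mem_C0.2 ⟨_, T33⟩) (mem_C0.2 ⟨_, T44⟩)
      m21.symm m31.symm m41.symm m32.symm m42.symm m43.symm
    refine ⟨c, d, s, hdn, h7, ?_⟩
    have p0 : pw 7 d 0 = 1 := pow_zero d
    have p1 : pw 7 d 1 = d := pow_one d
    have p2 : pw 7 d 2 = d ^ 2 := rfl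
    have p4 : pw 7 d 4 = d ^ 4 := rfl
    have padd := fun i j => pw_add (p := 7) h7 i j
    have : Fact (Nat.Prime 7) := ⟨by norm_num⟩
    have X0 : s * pw 7 d 0 * c⁻¹ = x1 := by rw [p0, mul_one, ← q1]
    have X1 : s * pw 7 d 1 * c⁻¹ = x2 := by rw [p1, ← q2]
    have X2 : s * pw 7 d 2 * c⁻¹ = x3 := by rw [p2, ← q3]
    have X4 : s * pw 7 d 4 * c⁻¹ = x4 := by rw [p4, ← q4]
    have Y0 : c * pw 7 d 0 = c := by rw [p0, mul_one]
    have Y1 : c * pw 7 d 1 = y2 := by rw [p1, ← hyb]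
    have Y2 : c * pw 7 d 2 = y3 := by rw [p2, ← z3]
    have Y4 : c * pw 7 d 4 = y4 := by rw [p4, ← z4]
    obtain ⟨⟨t1, t2, t3⟩, ⟨t4, t5⟩, ⟨t6, t7⟩, t8, t9⟩ := F44_ne
    apply mk_cos padd (pw_inj h7 hdn)
    · intro x y hxy
      rcases hBe x (mem_B0.2 ⟨_, hxy⟩) with rfl | rfl | rfl | rfl
      · rcases hCe y (mem_C0.2 ⟨_, hxy⟩) with rfl | rfl | rfl | rfl
        · exact absurd hxy T11
        · exact ⟨0, 1, X0.symm, Y1.symm, t1⟩
        · exact ⟨0, 2, X0.symm, Y2.symm, t2⟩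
        · exact ⟨0, 4, X0.symm, Y4.symm, t3⟩
      · rcases only2 y hxy with rfl | rfl
        · exact ⟨1, 0, X1.symm, Y0.symm, t4⟩
        · exact ⟨1, 1, X1.symm, Y1.symm, t5⟩
      · rcases only3 y hxy with rfl | rfl
        · exact ⟨2, 0, X2.symm, Y0.symm, t6⟩
        · exact ⟨2, 2, X2.symm, Y2.symm, t7⟩
      · rcases only4 y hxy with rfl | rfl
        · exact ⟨4, 0, X4.symm, Y0.symm, t8⟩
        · exact ⟨4, 4, X4.symm, Y4.symm, t9⟩
    · obtain ⟨⟨f1, f2, f3⟩, ⟨f4, f5⟩, ⟨f6, f7⟩, f8, f9⟩ := F44_vals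
      intro i j hij
      rcases F44_list i j hij with ⟨rfl, rfl⟩ | ⟨rfl, rfl⟩ | ⟨rfl, rfl⟩ | ⟨rfl, rfl⟩ |
        ⟨rfl, rfl⟩ | ⟨rfl, rfl⟩ | ⟨rfl, rfl⟩ | ⟨rfl, rfl⟩ | ⟨rfl, rfl⟩
      · rw [X0, Y1, f1, p2, v12, q2, hyb, pow_two]; group
      · rw [X0, Y2, f2, p4, v13, q3, z3]; group
      · rw [X0, Y4, f3, p1, v14, q4, z4]
        calc s * d ^ 4 * c⁻¹ * (c * d ^ 4) = s * d ^ 8 := by group
          _ = s * d := by rw [h8]
      · rw [X1, Y0, f4, p2, v21, q2, hyb, pow_two]; group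
      · rw [X1, Y1, f5, p1, v22, q2]; group
      · rw [X2, Y0, f6, p4, v31, q3, z3]; group
      · rw [X2, Y2, f7, p2, v33, q3]; group
      · rw [X4, Y0, f8, p1, v41, q4, z4]
        calc s * d ^ 4 * c⁻¹ * (c * d ^ 4) = s * d ^ 8 := by group
          _ = s * d := by rw [h8]
      · rw [X4, Y4, f9, p4, v44, q4]; group

end Pool.Agent.Helper32.Q5
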