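import Pool.Agent.Helper32.Q5.Class9

/-!
Nine changed cells, three columns.
-/

namespace Pool.Agent.Helper32.Q5

open Finset Pool.Agent.Helper60.Quas

set_option linter.unusedSimpArgs false
set_option linter.unusedSectionVars false

variable {Q : Type*} [Fintype Q] [DecidableEq Q] [Group Q] {m : Q → Q → Q}

/-- four rows and three columns -/
theorem nine43 (h : IsQuasigroup m) (h2 : ¬ 2 ∣ Fintype.card Q)
    (h3 : ¬ 3 ∣ Fintype.card Q) (hB : (B0 m).card = 4) (hC : (C0 m).card = 3)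
    (ht : tt m = 9) : ∃ c d s : Q, d ≠ 1 ∧ d ^ 7 = 1 ∧ Cos m 7 F43 (pw 7 d) c s := by
  obtain ⟨x1, hx1, r1, r2⟩ := exists_big (B := B0 m) (f := rho m)
    (fun x hx => two_le_rho h hx) (by rw [← tt_rho, ht, hB])
  have hfull : ∀ y, y ∈ C0 m → T m x1 y := fun y hy => full_row (by rw [r1, hC]) hy
  by_cases hg : ∃ y ∈ C0 m, gam m y = 2
  · exfalso
    obtain ⟨yc, hyc, gc⟩ := hg
    have T1c := hfull yc hyc
    obtain ⟨x4, n41, T4c, -⟩ := col_other h T1c
    obtain ⟨a1, a2, onlyc⟩ := col2 h T1c T4c n41.symm gc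
    have hx4 : x4 ∈ B0 m := mem_B0.2 ⟨_, T4c⟩
    obtain ⟨ya, nac, T4a, -⟩ := row_other h T4c
    obtain ⟨b1, b2, only4⟩ := row2 h T4c T4a nac.symm (r2 x4 hx4 n41)
    have hya : ya ∈ C0 m := mem_C0.2 ⟨_, T4a⟩
    obtain ⟨yb, hyb, nba, nbc⟩ := third hC ya yc
    have hCe := mem3 hC hya hyb hyc nba.symm nac nbc
    have T1a := hfull ya hya
    have T1b := hfull yb hyb
    obtain ⟨R1, -⟩ := row3 h T1a T1b T1c nba.symm nac nbc r1
    have k1 : x4 * ya = x1 * yc := by rw [← b1, a2]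
    rcases R1 with ⟨-, -, e3⟩ | ⟨e1, e2, e3⟩
    · -- m x1 yc = x1 ya
      apply no_square h2 h3 (x := x1) (x' := x4) (y := ya) (y' := yc) nac k1
      rw [← a1, e3]
    · -- m x1 ya = x1 yc, m x1 yb = x1 ya, m x1 yc = x1 yb
      have T4b : ¬ T m x4 yb := by
        intro hh
        rcases only4 _ hh with e | e
        · exact nbc e
        · exact nba e
      obtain ⟨x2, n21, T2b, k2⟩ := col_src h T1b
      have n24 : x2 ≠ x4 := by
        rintro rfl
        exact T4b T2b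
      have hx2 : x2 ∈ B0 m := mem_B0.2 ⟨_, T2b⟩
      obtain ⟨x3, hx3, n31, n32, n34⟩ := fourth hB x1 x2 x4
      have hab : ∀ x, x ∈ B0 m → x ≠ x1 → x ≠ x4 → T m x ya ∧ T m x yb := by
        intro x hx hx1' hx4'
        have nc : ¬ T m x yc := by
          intro hh
          rcases onlyc _ hh with e | e
          · exact hx1' e
          · exact hx4' e
        have hr : rho m x + 1 = (C0 m).card := by rw [r2 x hx hx1', hC]
        exact ⟨almost_full_row hyc hr nc hya nac, almost_full_row hyc hr nc hyb nbc⟩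
      obtain ⟨T2a, -⟩ := hab x2 hx2 n21 n24
      obtain ⟨T3a, T3b⟩ := hab x3 hx3 n31 n34
      obtain ⟨g1, g2, -⟩ := row2 h T2a T2b nba.symm (r2 x2 hx2 n21)
      obtain ⟨i1, i2, -⟩ := row2 h T3a T3b nba.symm (r2 x3 hx3 n31)
      have hBe := mem4 hB hx1 hx2 hx3 hx4 n21.symm n31.symm n41.symm n32.symm n24 n34
      have gb : gam m yb = 3 := by
        rw [gam_eq_card, Finset.card_eq_three]
        refine ⟨x1, x2, x3, n21.symm, n31.symm, n32.symm, ?_⟩
        ext x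
        simp only [mem_filter, mem_univ, true_and, mem_insert, mem_singleton]
        constructor
        · intro hx
          rcases hBe x (mem_B0.2 ⟨_, hx⟩) with rfl | rfl | rfl | rfl
          · exact Or.inl rfl
          · exact Or.inr (Or.inl rfl)
          · exact Or.inr (Or.inr rfl)
          · exact absurd hx T4b
        · rintro (rfl | rfl | rfl)
          · exact T1b
          · exact T2b
          · exact T3b
      obtain ⟨Cb, -⟩ := col3 h T1b T2b T3b n21.symm n31.symm n32.symm gb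
      rcases Cb with ⟨j1, j2, j3⟩ | ⟨j1, -, -⟩
      · -- x2 ya = x3 yb, x3 ya = x1 yb
        have w1 : x2 * yb = x1 * ya := by rw [← j1, e2]
        have w2 : x2 * ya = x3 * yb := by rw [← g2, j2]
        have w3 : x3 * ya = x1 * yb := by rw [← i2, j3]
        have hu : (ya⁻¹ * yb) ^ 3 = 1 := by
          have a3 : x2 = x1 * ya * yb⁻¹ := by rw [← w1]; group
          have a4 : x3 = x2 * ya * yb⁻¹ := by rw [w2]; group
          have a5 : x1 * ya = x1 * yb * ya⁻¹ * yb * ya⁻¹ * yb := by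
            calc x1 * ya = x2 * yb := w1.symm
              _ = x3 * yb * ya⁻¹ * yb := by rw [← w2]; group
              _ = x1 * yb * ya⁻¹ * yb * ya⁻¹ * yb := by rw [← w3]; group
          have : x1 * ya * (ya⁻¹ * yb) ^ 3 = x1 * ya := by
            conv_rhs => rw [a5]
            simp only [pow_succ, pow_zero, one_mul]; group
          exact mul_eq_left.1 this
        have := eq_one_of_dvd12 h2 h3 (by norm_num) hu
        rw [inv_mul_eq_one] at this
        exact nba this.symm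
      · rw [k2] at j1
        exact n32 (mul_right_cancel j1).symm
  · push Not at hg
    have g3 : ∀ y ∈ C0 m, gam m y = 3 := by
      have hge : ∀ y ∈ C0 m, 3 ≤ gam m y := by
        intro y hy
        have a1 := two_le_gam h hy
        have a2 := hg y hy
        omega
      intro y hy
      have h1 := Finset.add_sum_erase (C0 m) (gam m) hy
      have h4 : ((C0 m).erase y).card * 3 ≤ ∑ z ∈ (C0 m).erase y, gam m z := by
        rw [← smul_eq_mul]
        exact Finset.card_nsmul_le_sum _ _ _ fun z hz => hge z (Finset.mem_of_mem_erase hz)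
      rw [Finset.card_erase_of_mem hy, hC] at h4
      rw [← tt_gam, ht] at h1
      have := hge y hy
      omega
    obtain ⟨y1, hy1⟩ : (C0 m).Nonempty := by rw [← Finset.card_pos]; omega
    have T11 := hfull y1 hy1
    obtain ⟨y2, m21, T12, v11⟩ := row_src h T11
    have hy2 : y2 ∈ C0 m := mem_C0.2 ⟨_, T12⟩
    obtain ⟨y3, hy3, m31, m32⟩ := third hC y1 y2
    have T13 := hfull y3 hy3
    have hCe := mem3 hC hy1 hy2 hy3 m21.symm m31.symm m32.symm
    obtain ⟨R1, -⟩ := row3 h T11 T12 T13 m21.symm m31.symm m32.symm r1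
    have R1' : m x1 y2 = x1 * y3 ∧ m x1 y3 = x1 * y1 := by
      rcases R1 with ⟨-, e2, e3⟩ | ⟨e1, -, -⟩
      · exact ⟨e2, e3⟩
      · rw [v11] at e1
        exact absurd (mul_left_cancel e1).symm m32
    obtain ⟨v12, v13⟩ := R1'
    have hmiss : ∀ y ∈ C0 m, ∃ x ∈ B0 m, x ≠ x1 ∧ ¬ T m x y ∧
        ∀ z ∈ C0 m, z ≠ y → T m x z := by
      intro y hy
      obtain ⟨x, hx, hxy⟩ : ∃ x ∈ B0 m, ¬ T m x y := by
        by_contra hcon
        push Not at hcon
        have : B0 m ⊆ univ.filter fun x => T m x y := by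
          intro x hx
          rw [mem_filter]
          exact ⟨mem_univ _, hcon x hx⟩
        have := Finset.card_le_card this
        rw [← gam_eq_card, g3 y hy, hB] at this
        omega
      have hne : x ≠ x1 := by
        rintro rfl
        exact hxy (hfull y hy)
      exact ⟨x, hx, hne, hxy, fun z hz hzy =>
        almost_full_row hy (by rw [r2 x hx hne, hC]) hxy hz hzy⟩
    obtain ⟨x2, hx2, n21, N21, A2⟩ := hmiss y1 hy1
    obtain ⟨x3, hx3, n31, N32, A3⟩ := hmiss y2 hy2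
    obtain ⟨x4, hx4, n41, N43, A4⟩ := hmiss y3 hy3
    have T22 := A2 y2 hy2 m21
    have T23 := A2 y3 hy3 m31
    have T31 := A3 y1 hy1 m21.symm
    have T33 := A3 y3 hy3 m32
    have T41 := A4 y1 hy1 m31.symm
    have T42 := A4 y2 hy2 m32.symm
    have n23 : x2 ≠ x3 := by
      rintro rfl
      exact N32 T22
    have n24 : x2 ≠ x4 := by
      rintro rfl
      exact N43 T23
    have n34 : x3 ≠ x4 := by
      rintro rfl
      exact N43 T33
    obtain ⟨v22, v23, only2⟩ := row2 h T22 T23 m32.symm (r2 x2 hx2 n21)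
    obtain ⟨v31, v33, only3⟩ := row2 h T31 T33 m31.symm (r2 x3 hx3 n31)
    obtain ⟨v41, v42, only4⟩ := row2 h T41 T42 m21.symm (r2 x4 hx4 n41)
    obtain ⟨C1, -⟩ := col3 h T11 T31 T41 n31.symm n41.symm n34 (g3 y1 hy1)
    obtain ⟨C2, -⟩ := col3 h T12 T22 T42 n21.symm n41.symm n24 (g3 y2 hy2)
    obtain ⟨C3, -⟩ := col3 h T13 T23 T33 n21.symm n31.symm n23 (g3 y3 hy3)
    have hBe := mem4 hB hx1 hx2 hx3 hx4 n21.symm n31.symm n41.symm n23 n24 n34
    have C1' : m x1 y1 = x4 * y1 ∧ m x3 y1 = x1 * y1 ∧ m x4 y1 = x3 * y1 := by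
      rcases C1 with ⟨e1, e2, e3⟩ | hh
      · exfalso
        rcases C2 with ⟨f1, f2, f3⟩ | ⟨f1, f2, f3⟩
        · -- x3 y1 = x1 y2 = x4 y1
          apply n34
          have : x3 * y1 = x4 * y1 := by
            rw [← e1, v11, ← f3, v42]
          exact mul_right_cancel this
        · -- x4 y2 = x1 y1 and x1 y3 = x4 y2
          apply m31
          have : x1 * y3 = x1 * y1 := by
            rw [← v12, f1, ← v41, e3]
          exact mul_left_cancel this
      · exact hh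
    obtain ⟨c1, c2, c3⟩ := C1'
    have C2' : m x1 y2 = x2 * y2 ∧ m x2 y2 = x4 * y2 ∧ m x4 y2 = x1 * y2 := by
      rcases C2 with hh | ⟨f1, f2, f3⟩
      · exact hh
      · exfalso
        -- x1 y2 = x4 y1 = x2 y2
        apply n21
        have : x2 * y2 = x1 * y2 := by
          rw [← f3, v42, ← c1, v11]
        exact mul_right_cancel this
    obtain ⟨d1, d2, d3⟩ := C2'
    have C3' : m x1 y3 = x3 * y3 ∧ m x2 y3 = x1 * y3 ∧ m x3 y3 = x2 * y3 := by
      rcases C3 with ⟨f1, f2, f3⟩ | hh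
      · exfalso
        -- x3 y1 = x1 y3 but x3 y1 = x4 y2 = x2 y3
        apply n21
        have : x2 * y3 = x1 * y3 := by
          rw [← v22, d2, ← v41, c3, ← v33, f3]
        exact mul_right_cancel this
      · exact hh
    obtain ⟨g1, g2, g3'⟩ := C3'
    obtain ⟨c, hc⟩ : ∃ c, c = y1 := ⟨_, rfl⟩
    subst hc
    obtain ⟨d, hd⟩ : ∃ d, d = c⁻¹ * y2 := ⟨_, rfl⟩
    obtain ⟨s, hs⟩ : ∃ s, s = x1 * c := ⟨_, rfl⟩
    have hyb : y2 = c * d := by rw [hd]; group
    have hdn : d ≠ 1 := by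
      intro hh
      rw [hh, mul_one] at hyb
      exact m21 hyb
    have q1 : x1 = s * c⁻¹ := by rw [hs]; group
    have q4 : x4 = s * d * c⁻¹ := by
      have : x4 * c = s * d := by
        rw [← c1, v11, hd, hs]; group
      rw [← this]; group
    have q3 : x3 = s * d ^ 2 * c⁻¹ := by
      have : x3 * c = s * d ^ 2 := by
        rw [← c3, v41, hyb, q4, pow_two]; group
      rw [← this]; group
    have z3 : y3 = c * (d ^ 2)⁻¹ := by
      have : x3 * y3 = s := by rw [← v31, c2, hs]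
      have h5 : y3 = x3⁻¹ * s := by rw [← this]; group
      rw [h5, q3]; group
    have q2 : x2 = s * (d ^ 3)⁻¹ * c⁻¹ := by
      have : x2 * y2 = s * (d ^ 2)⁻¹ := by
        rw [← d1, v12, q1, z3]; group
      have h5 : x2 = s * (d ^ 2)⁻¹ * y2⁻¹ := by rw [← this]; group
      rw [h5, hyb]
      simp only [pow_succ, pow_zero, one_mul]; group
    have h7 : d ^ 7 = 1 := by
      have : x2 * y3 = s * d ^ 2 := by
        rw [← g3', v33, q3]; group
      rw [q2, z3] at this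
      have h6 : s * d ^ 7 = s := by
        calc s * d ^ 7 = s * d ^ 2 * (c⁻¹ * (c * (d ^ 5))) := by group
          _ = s * (d ^ 3)⁻¹ * c⁻¹ * (c * (d ^ 2)⁻¹) * (c⁻¹ * (c * (d ^ 5))) := by rw [this]
          _ = s := by group
      exact mul_eq_left.1 h6
    refine ⟨c, d, s, hdn, h7, ?_⟩
    have p0 : pw 7 d 0 = 1 := pow_zero d
    have p1 : pw 7 d 1 = d := pow_one d
    have p2 : pw 7 d 2 = d ^ 2 := rfl
    have p4 : pw 7 d 4 = d ^ 4 := rfl
    have p4' : pw 7 d 4 = (d ^ 3)⁻¹ := by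
      rw [p4, eq_inv_iff_mul_eq_one, ← pow_add]
      exact h7
    have p5 : pw 7 d 5 = d ^ 5 := rfl
    have p5' : pw 7 d 5 = (d ^ 2)⁻¹ := by
      rw [p5, eq_inv_iff_mul_eq_one, ← pow_add]
      exact h7
    have padd := fun i j => pw_add (p := 7) h7 i j
    have : Fact (Nat.Prime 7) := ⟨by norm_num⟩
    have X0 : s * pw 7 d 0 * c⁻¹ = x1 := by rw [p0, mul_one, ← q1]
    have X1 : s * pw 7 d 1 * c⁻¹ = x4 := by rw [p1, ← q4]
    have X2 : s * pw 7 d 2 * c⁻¹ = x3 := by rw [p2, ← q3]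
    have X4 : s * pw 7 d 4 * c⁻¹ = x2 := by rw [p4', ← q2]
    have Y0 : c * pw 7 d 0 = c := by rw [p0, mul_one]
    have Y1 : c * pw 7 d 1 = y2 := by rw [p1, ← hyb]
    have Y5 : c * pw 7 d 5 = y3 := by rw [p5', ← z3]
    obtain ⟨⟨t1, t2, t3⟩, ⟨t4, t5⟩, ⟨t6, t7⟩, t8, t9⟩ := F43_ne
    apply mk_cos padd (pw_inj h7 hdn)
    · intro x y hxy
      rcases hBe x (mem_B0.2 ⟨_, hxy⟩) with rfl | rfl | rfl | rfl
      · rcases hCe y (mem_C0.2 ⟨_, hxy⟩) with rfl | rfl | rfl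
        · exact ⟨0, 0, X0.symm, Y0.symm, t1⟩
        · exact ⟨0, 1, X0.symm, Y1.symm, t2⟩
        · exact ⟨0, 5, X0.symm, Y5.symm, t3⟩
      · rcases only2 y hxy with rfl | rfl
        · exact ⟨4, 1, X4.symm, Y1.symm, t8⟩
        · exact ⟨4, 5, X4.symm, Y5.symm, t9⟩
      · rcases only3 y hxy with rfl | rfl
        · exact ⟨2, 0, X2.symm, Y0.symm, t6⟩
        · exact ⟨2, 5, X2.symm, Y5.symm, t7⟩
      · rcases only4 y hxy with rfl | rfl
        · exact ⟨1, 0, X1.symm, Y0.symm, t4⟩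
        · exact ⟨1, 1, X1.symm, Y1.symm, t5⟩
    · obtain ⟨⟨f1, f2, f3⟩, ⟨f4, f5⟩, ⟨f6, f7⟩, f8, f9⟩ := F43_vals
      intro i j hij
      rcases F43_list i j hij with ⟨rfl, rfl⟩ | ⟨rfl, rfl⟩ | ⟨rfl, rfl⟩ | ⟨rfl, rfl⟩ |
        ⟨rfl, rfl⟩ | ⟨rfl, rfl⟩ | ⟨rfl, rfl⟩ | ⟨rfl, rfl⟩ | ⟨rfl, rfl⟩
      · rw [X0, Y0, f1, p1, v11, q1, hyb]; group
      · rw [X0, Y1, f2, p5', v12, q1, z3]; group
      · rw [X0, Y5, f3, p0, v13, hs, mul_one]
      · rw [X1, Y0, f4, p2, v41, q4, hyb, pow_two]; group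
      · rw [X1, Y1, f5, p1, v42, q4]; group
      · rw [X2, Y0, f6, p0, c2, hs, mul_one]
      · rw [X2, Y5, f7, p2, v33, q3]; group
      · rw [X4, Y1, f8, p2, v22, ← g3', v33, q3]; group
      · rw [X4, Y5, f9, p5', v23, ← d1, v12, q1, z3]; group

/-- two columns with the same orientation are impossible in a full `3 × 3` square -/
lemma no_two_cols (h3 : ¬ 3 ∣ Fintype.card Q) (h2 : ¬ 2 ∣ Fintype.card Q)
    {x1 x2 x3 y1 y2 y3 : Q} (n12 : x1 ≠ x2) (n23 : x2 ≠ x3) (n31 : x3 ≠ x1)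
    (m12 : y1 ≠ y2)
    (hC : ∀ x y, T m x y → y = y1 ∨ y = y2 ∨ y = y3)
    (src : ∀ x y, T m x y → ∃ y', y' ≠ y ∧ T m x y' ∧ m x y = x * y')
    (T11 : T m x1 y1) (T12 : T m x1 y2) (T21 : T m x2 y1) (T22 : T m x2 y2)
    (T31 : T m x3 y1) (T32 : T m x3 y2)
    (a1 : m x1 y1 = x2 * y1) (a2 : m x2 y1 = x3 * y1) (a3 : m x3 y1 = x1 * y1)
    (b1 : m x1 y2 = x2 * y2) (b2 : m x2 y2 = x3 * y2) (b3 : m x3 y2 = x1 * y2) : False := by
  set a := y2 * y1⁻¹ with ha
  have key : ∀ x x', T m x y1 → T m x y2 → m x y1 = x' * y1 → m x y2 = x' * y2 → x ≠ x' →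
      (x⁻¹ * x' = a ∧ y3 = a * y2) ∨ (x⁻¹ * x' = a⁻¹ ∧ y3 = a⁻¹ * y1) := by
    intro x x' t1 t2 e1 e2 hne
    obtain ⟨z1, p1, p2, p3⟩ := src x y1 t1
    obtain ⟨z2, q1, q2, q3⟩ := src x y2 t2
    have g1 : x⁻¹ * x' * y1 = z1 := by rw [mul_assoc, ← e1, p3]; group
    have g2 : x⁻¹ * x' * y2 = z2 := by rw [mul_assoc, ← e2, q3]; group
    have hz : z1 ≠ z2 := by
      intro hh
      rw [← g1, ← g2] at hh
      exact m12 (mul_left_cancel hh)
    rcases hC x z1 p2 with e | e | e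
    · exact absurd e p1
    · rcases hC x z2 q2 with f | f | f
      · -- swap
        exfalso
        have hu : (x⁻¹ * x') ^ 2 = 1 := by
          have : (x⁻¹ * x') ^ 2 * y1 = y1 := by
            rw [pow_two, mul_assoc, g1, e, g2, f]
          exact mul_eq_right.1 this
        have := eq_one_of_dvd12 h2 h3 (by norm_num) hu
        rw [inv_mul_eq_one] at this
        exact hne this
      · exact absurd f q1
      · left
        have h4 : x⁻¹ * x' = a := by rw [ha, ← e, ← g1]; group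
        refine ⟨h4, ?_⟩
        rw [← h4, g2, f]
    · rcases hC x z2 q2 with f | f | f
      · right
        have h4 : x⁻¹ * x' = a⁻¹ := by
          rw [ha, mul_inv_rev, inv_inv, ← f, ← g2]; group
        refine ⟨h4, ?_⟩
        rw [← h4, g1, e]
      · exact absurd f q1
      · exact absurd (e.trans f.symm) hz
  have a3ne : a ^ 3 ≠ 1 := by
    intro hh
    have := eq_one_of_dvd12 h2 h3 (by norm_num) hh
    rw [ha, mul_inv_eq_one] at this
    exact m12 this.symm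
  have mix : ¬ (y3 = a * y2 ∧ y3 = a⁻¹ * y1) := by
    rintro ⟨e1, e2⟩
    apply a3ne
    have h4 : a * y2 = a⁻¹ * y1 := by rw [← e1, e2]
    have h5 : y2 = a * y1 := by rw [ha]; group
    have h6 : a ^ 3 * y1 = y1 := by
      calc a ^ 3 * y1 = a * (a * (a * y1)) := by simp only [pow_succ, pow_zero, one_mul, mul_assoc]
        _ = a * (a⁻¹ * y1) := by rw [← h5, h4]
        _ = y1 := by group
    exact mul_eq_right.1 h6
  have prod : (x1⁻¹ * x2) * (x2⁻¹ * x3) * (x3⁻¹ * x1) = 1 := by group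
  rcases key x1 x2 T11 T12 a1 b1 n12 with ⟨k1, l1⟩ | ⟨k1, l1⟩
  · rcases key x2 x3 T21 T22 a2 b2 n23 with ⟨k2, l2⟩ | ⟨k2, l2⟩
    · rcases key x3 x1 T31 T32 a3 b3 n31 with ⟨k3, l3⟩ | ⟨k3, l3⟩
      · apply a3ne
        rw [k1, k2, k3] at prod
        rw [← prod]
        simp only [pow_succ, pow_zero, one_mul]
      · exact mix ⟨l1, l3⟩
    · exact mix ⟨l1, l2⟩
  · rcases key x2 x3 T21 T22 a2 b2 n23 with ⟨k2, l2⟩ | ⟨k2, l2⟩
    · exact mix ⟨l2, l1⟩
    · rcases key x3 x1 T31 T32 a3 b3 n31 with ⟨k3, l3⟩ | ⟨k3, l3⟩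
      · exact mix ⟨l3, l1⟩
      · apply a3ne
        rw [k1, k2, k3] at prod
        have : (a ^ 3)⁻¹ = 1 := by
          rw [← prod]
          simp only [pow_succ, pow_zero, one_mul, mul_inv_rev, mul_assoc]
        exact inv_eq_one.1 this

/-- a full `3 × 3` square is impossible -/
theorem not_nine33 (h : IsQuasigroup m) (h2 : ¬ 2 ∣ Fintype.card Q)
    (h3 : ¬ 3 ∣ Fintype.card Q) (hB : (B0 m).card = 3) (hC : (C0 m).card = 3)
    (ht : tt m = 9) : False := by
  have hg : ∀ y ∈ C0 m, gam m y = 3 := by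
    have hle : ∀ y ∈ C0 m, gam m y ≤ 3 := fun y _ => (gam_le y).trans hB.le
    intro y hy
    have h1 := Finset.add_sum_erase (C0 m) (gam m) hy
    have h4 : ∑ z ∈ (C0 m).erase y, gam m z ≤ ((C0 m).erase y).card * 3 := by
      rw [← smul_eq_mul]
      exact Finset.sum_le_card_nsmul _ _ _ fun z hz => hle z (Finset.mem_of_mem_erase hz)
    rw [Finset.card_erase_of_mem hy, hC] at h4
    rw [← tt_gam, ht] at h1
    have := hle y hy
    omega
  have hfull : ∀ x y, x ∈ B0 m → y ∈ C0 m → T m x y := fun x y hx hy =>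
    full_col (by rw [hg y hy, hB]) hx
  obtain ⟨x1, x2, x3, n12, n13, n23, hBe⟩ := Finset.card_eq_three.1 hB
  obtain ⟨y1, y2, y3, m12, m13, m23, hCe⟩ := Finset.card_eq_three.1 hC
  have hx1 : x1 ∈ B0 m := by rw [hBe]; simp
  have hx2 : x2 ∈ B0 m := by rw [hBe]; simp
  have hx3 : x3 ∈ B0 m := by rw [hBe]; simp
  have hy1 : y1 ∈ C0 m := by rw [hCe]; simp
  have hy2 : y2 ∈ C0 m := by rw [hCe]; simp
  have hy3 : y3 ∈ C0 m := by rw [hCe]; simp
  have hC' : ∀ x y, T m x y → y = y1 ∨ y = y2 ∨ y = y3 := by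
    intro x y hxy
    have : y ∈ C0 m := mem_C0.2 ⟨x, hxy⟩
    rw [hCe] at this
    simpa using this
  have src : ∀ x y, T m x y → ∃ y', y' ≠ y ∧ T m x y' ∧ m x y = x * y' :=
    fun x y hxy => row_src h hxy
  have T11 := hfull x1 y1 hx1 hy1
  have T12 := hfull x1 y2 hx1 hy2
  have T13 := hfull x1 y3 hx1 hy3
  have T21 := hfull x2 y1 hx2 hy1
  have T22 := hfull x2 y2 hx2 hy2
  have T23 := hfull x2 y3 hx2 hy3
  have T31 := hfull x3 y1 hx3 hy1
  have T32 := hfull x3 y2 hx3 hy2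
  have T33 := hfull x3 y3 hx3 hy3
  obtain ⟨C1, -⟩ := col3 h T11 T21 T31 n12 n13 n23 (hg y1 hy1)
  obtain ⟨C2, -⟩ := col3 h T12 T22 T32 n12 n13 n23 (hg y2 hy2)
  obtain ⟨C3, -⟩ := col3 h T13 T23 T33 n12 n13 n23 (hg y3 hy3)
  have hC1' : ∀ x y, T m x y → y = y1 ∨ y = y3 ∨ y = y2 := fun x y hh => by
    have := hC' x y hh
    tauto
  have hC2' : ∀ x y, T m x y → y = y2 ∨ y = y3 ∨ y = y1 := fun x y hh => by
    have := hC' x y hh
    tauto
  rcases C1 with ⟨a1, a2, a3⟩ | ⟨a1, a2, a3⟩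
  · rcases C2 with ⟨b1, b2, b3⟩ | ⟨b1, b2, b3⟩
    · exact no_two_cols h3 h2 n12 n23 n13.symm m12 hC' src T11 T12 T21 T22 T31 T32
        a1 a2 a3 b1 b2 b3
    · rcases C3 with ⟨c1, c2, c3⟩ | ⟨c1, c2, c3⟩
      · exact no_two_cols h3 h2 n12 n23 n13.symm m13 hC1' src T11 T13 T21 T23 T31 T33
          a1 a2 a3 c1 c2 c3
      · exact no_two_cols h3 h2 n13 n23.symm n12.symm m23 hC2' src T12 T13 T32 T33 T22 T23
          b1 b3 b2 c1 c3 c2
  · rcases C2 with ⟨b1, b2, b3⟩ | ⟨b1, b2, b3⟩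
    · rcases C3 with ⟨c1, c2, c3⟩ | ⟨c1, c2, c3⟩
      · exact no_two_cols h3 h2 n12 n23 n13.symm m23 hC2' src T12 T13 T22 T23 T32 T33
          b1 b2 b3 c1 c2 c3
      · exact no_two_cols h3 h2 n13 n23.symm n12.symm m13 hC1' src T11 T13 T31 T33 T21 T23
          a1 a3 a2 c1 c3 c2
    · exact no_two_cols h3 h2 n13 n23.symm n12.symm m12 hC' src T11 T12 T31 T32 T21 T22
        a1 a3 a2 b1 b3 b2

end Pool.Agent.Helper32.Q5
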