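import Pool.Agent.Helper32.Q5.Box

/-!
The bound for quasigroups obtained from a group by a table on cosets of a subgroup of prime
order.
-/

namespace Pool.Agent.Helper32.Q5

open Finset Pool.Agent.Helper60.Quas

set_option linter.unusedSimpArgs false
set_option linter.unusedSectionVars false

namespace Cos

variable {Q : Type*} [Fintype Q] [DecidableEq Q] [Group Q] {m : Q → Q → Q}
variable {p : ℕ} {F : ZMod p → ZMod p → ZMod p} {e : ZMod p → Q} {c s : Q}

lemma support (D : Cos m p F e c s) {x y z : Q} (h : wt m x y z ≠ 0) :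
    (T m x y ∧ T m y z) ∨ (T m x y ∧ T m (m x y) z) ∨ (T m y z ∧ T m x (m y z)) ∨
    (∃ i j l, x = s * e i * c⁻¹ ∧ y = c * e j ∧ z = e l) ∨
    (∃ i j l, x = s * e i * s⁻¹ ∧ y = s * e j * c⁻¹ ∧ z = c * e l) ∨
    (∃ i j l, x = s * e i * c⁻¹ ∧ y = c * e j * c⁻¹ ∧ z = c * e l) := by
  by_cases hA : T m x y
  · by_cases hB : T m y z
    · exact Or.inl ⟨hA, hB⟩
    · by_cases hC : T m (m x y) z
      · exact Or.inr (Or.inl ⟨hA, hC⟩)
      · have hD : T m x (m y z) := by
          have := wt_support h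
          tauto
        right; right; right; left
        obtain ⟨⟨i, hi⟩, j, hj⟩ := D.fout _ _ hA
        obtain ⟨-, k, hk⟩ := D.fout _ _ hD
        rw [not_T hB] at hk
        refine ⟨i, j, -j + k, hi, hj, ?_⟩
        rw [D.eadd, D.eneg]
        have : z = y⁻¹ * (c * e k) := by rw [← hk]; group
        rw [this, hj]; group
  · by_cases hB : T m y z
    · by_cases hD : T m x (m y z)
      · exact Or.inr (Or.inr (Or.inl ⟨hB, hD⟩))
      · have hC : T m (m x y) z := by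
          have := wt_support h
          tauto
        right; right; right; right; left
        obtain ⟨⟨j, hj⟩, l, hl⟩ := D.fout _ _ hB
        obtain ⟨⟨k, hk⟩, -⟩ := D.fout _ _ hC
        rw [not_T hA] at hk
        refine ⟨k - j, j, l, ?_, hj, hl⟩
        rw [D.esub]
        have : x = s * e k * c⁻¹ * y⁻¹ := by rw [← hk]; group
        rw [this, hj]; group
    · have hCD : T m (m x y) z ∧ T m x (m y z) := by
        have := wt_support h
        tauto
      obtain ⟨hC, hD⟩ := hCD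
      right; right; right; right; right
      obtain ⟨⟨k, hk⟩, l, hl⟩ := D.fout _ _ hC
      obtain ⟨⟨i, hi⟩, -⟩ := D.fout _ _ hD
      rw [not_T hA] at hk
      refine ⟨i, -i + k, l, hi, ?_, hl⟩
      rw [D.eadd, D.eneg]
      have : y = x⁻¹ * (s * e k * c⁻¹) := by rw [← hk]; group
      rw [this, hi]; group

lemma AC (D : Cos m p F e c s) {x y z : Q} (hA : T m x y) (hC : T m (m x y) z) :
    ∃ g, c = e g := by
  obtain ⟨⟨i, hi⟩, j, hj⟩ := D.fout _ _ hA
  obtain ⟨⟨k, hk⟩, -⟩ := D.fout _ _ hC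
  rw [hi, hj, D.fval] at hk
  refine ⟨-F i j + k, ?_⟩
  rw [mul_assoc] at hk
  have h1 := mul_left_cancel hk
  rw [D.eadd, D.eneg, h1]; group

lemma BD (D : Cos m p F e c s) {x y z : Q} (hB : T m y z) (hD : T m x (m y z)) :
    ∃ a, s = c * e a := by
  obtain ⟨⟨i, hi⟩, j, hj⟩ := D.fout _ _ hB
  obtain ⟨-, k, hk⟩ := D.fout _ _ hD
  rw [hi, hj, D.fval] at hk
  refine ⟨k - F i j, ?_⟩
  rw [D.esub, ← mul_assoc, ← hk]; group

variable [NeZero p]

lemma bs_eq (w : ZMod p → ZMod p → ZMod p → ℕ) :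
    bs w = ∑ t : ZMod p × ZMod p × ZMod p, w t.1 t.2.1 t.2.2 := by
  rw [Fintype.sum_prod_type]
  simp only [Fintype.sum_prod_type]
  rfl

/-- all three cosets equal -/
lemma boundI (D : Cos m p F e c s) {g a : ZMod p} (hc : c = e g) (hs : s = e a) :
    ∑ τ : Q × Q × Q, wt m τ.1 τ.2.1 τ.2.2 ≤ bs (wI (H1 F g a)) := by
  have hT : ∀ x y, T m x y → (∃ u, x = e u) ∧ (∃ v, y = e v) := by
    intro x y hx
    obtain ⟨⟨i, hi⟩, j, hj⟩ := D.fout _ _ hx
    refine ⟨⟨a + i - g, ?_⟩, ⟨g + j, ?_⟩⟩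
    · rw [hi, hs, hc, D.esub, D.eadd]
    · rw [hj, hc, D.eadd]
  rw [bs_eq]
  refine (sum_le_of_cover (fun τ => wt m τ.1 τ.2.1 τ.2.2)
    (fun t : ZMod p × ZMod p × ZMod p => (e t.1, e t.2.1, e t.2.2)) ?_).trans ?_
  · rintro ⟨x, y, z⟩ h
    replace h : wt m x y z ≠ 0 := h
    have key : (∃ i, x = e i) ∧ (∃ j, y = e j) ∧ (∃ l, z = e l) := by
      rcases D.support h with ⟨h1, h2⟩ | ⟨h1, h2⟩ | ⟨h1, h2⟩ | ⟨i, j, l, h1, h2, h3⟩ |
        ⟨i, j, l, h1, h2, h3⟩ | ⟨i, j, l, h1, h2, h3⟩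
      · exact ⟨(hT _ _ h1).1, (hT _ _ h1).2, (hT _ _ h2).2⟩
      · exact ⟨(hT _ _ h1).1, (hT _ _ h1).2, (hT _ _ h2).2⟩
      · exact ⟨(hT _ _ h2).1, (hT _ _ h1).1, (hT _ _ h1).2⟩
      · exact ⟨⟨a + i - g, by rw [h1, hs, hc, D.esub, D.eadd]⟩,
          ⟨g + j, by rw [h2, hc, D.eadd]⟩, ⟨l, h3⟩⟩
      · exact ⟨⟨a + i - a, by rw [h1, hs, D.esub, D.eadd]⟩,
          ⟨a + j - g, by rw [h2, hs, hc, D.esub, D.eadd]⟩, ⟨g + l, by rw [h3, hc, D.eadd]⟩⟩
      · exact ⟨⟨a + i - g, by rw [h1, hs, hc, D.esub, D.eadd]⟩,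
          ⟨g + j - g, by rw [h2, hc, D.esub, D.eadd]⟩, ⟨g + l, by rw [h3, hc, D.eadd]⟩⟩
    obtain ⟨⟨i, rfl⟩, ⟨j, rfl⟩, l, rfl⟩ := key
    exact ⟨(i, j, l), rfl⟩
  · apply Finset.sum_le_sum
    rintro ⟨i, j, l⟩ -
    exact (D.wtI hc hs i j l).le

/-- symbols and columns in the same coset -/
lemma boundII (D : Cos m p F e c s) (hc : ¬ ∃ g, c = e g) {a : ZMod p} (hs : s = c * e a) :
    ∑ τ : Q × Q × Q, wt m τ.1 τ.2.1 τ.2.2 ≤ bs (wII (H2 F a)) + bs (w1 F) := by
  rw [bs_eq, bs_eq]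
  refine (sum_le_of_cover (fun τ => wt m τ.1 τ.2.1 τ.2.2)
    (Sum.elim (fun t : ZMod p × ZMod p × ZMod p =>
      (c * e t.1 * c⁻¹, c * e t.2.1 * c⁻¹, c * e t.2.2))
      (fun t : ZMod p × ZMod p × ZMod p =>
      (s * e t.1 * c⁻¹, c * e t.2.1, e t.2.2))) ?_).trans ?_
  · rintro ⟨x, y, z⟩ h
    replace h : wt m x y z ≠ 0 := h
    have key : ((∃ i, x = c * e i * c⁻¹) ∧ (∃ j, y = c * e j * c⁻¹) ∧ (∃ l, z = c * e l)) ∨
        ((∃ i, x = s * e i * c⁻¹) ∧ (∃ j, y = c * e j) ∧ (∃ l, z = e l)) := by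
      have hX : ∀ i, s * e i * c⁻¹ = c * e (a + i) * c⁻¹ := by
        intro i
        rw [hs, D.eadd]; group
      rcases D.support h with ⟨h1, h2⟩ | ⟨h1, h2⟩ | ⟨h1, h2⟩ | ⟨i, j, l, h1, h2, h3⟩ |
        ⟨i, j, l, h1, h2, h3⟩ | ⟨i, j, l, h1, h2, h3⟩
      · exfalso
        obtain ⟨-, j, hj⟩ := D.fout _ _ h1
        obtain ⟨⟨k, hk⟩, -⟩ := D.fout _ _ h2
        rw [hj, hX, mul_assoc] at hk
        apply hc
        have h4 := mul_left_cancel hk
        refine ⟨-j + (a + k), ?_⟩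
        rw [D.eadd (-j), D.eneg, h4]; group
      · exact absurd (D.AC h1 h2) hc
      · left
        obtain ⟨⟨j, hj⟩, l, hl⟩ := D.fout _ _ h1
        obtain ⟨⟨k, hk⟩, -⟩ := D.fout _ _ h2
        exact ⟨⟨a + k, by rw [hk, hX]⟩, ⟨a + j, by rw [hj, hX]⟩, ⟨l, hl⟩⟩
      · exact Or.inr ⟨⟨i, h1⟩, ⟨j, h2⟩, ⟨l, h3⟩⟩
      · left
        refine ⟨⟨i, ?_⟩, ⟨a + j, by rw [h2, hX]⟩, ⟨l, h3⟩⟩
        rw [h1, hs, mul_assoc c (e a), D.ecomm a i]; group
      · left
        exact ⟨⟨a + i, by rw [h1, hX]⟩, ⟨j, h2⟩, ⟨l, h3⟩⟩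
    rcases key with ⟨⟨i, rfl⟩, ⟨j, rfl⟩, l, rfl⟩ | ⟨⟨i, rfl⟩, ⟨j, rfl⟩, l, rfl⟩
    · exact ⟨Sum.inl (i, j, l), rfl⟩
    · exact ⟨Sum.inr (i, j, l), rfl⟩
  · rw [Fintype.sum_sum_type]
    apply add_le_add
    · apply Finset.sum_le_sum
      rintro ⟨i, j, l⟩ -
      exact (D.wtII hc hs i j l).le
    · apply Finset.sum_le_sum
      rintro ⟨i, j, l⟩ -
      exact (D.wt1 hc i j l).le

/-- symbols and rows in the same coset -/
lemma boundIII (D : Cos m p F e c s) {g : ZMod p} (hc : c = e g) (hs : ¬ ∃ a, s = c * e a) :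
    ∑ τ : Q × Q × Q, wt m τ.1 τ.2.1 τ.2.2 ≤ bs (wIII (H3 F g)) + bs (w2 F) := by
  rw [bs_eq, bs_eq]
  refine (sum_le_of_cover (fun τ => wt m τ.1 τ.2.1 τ.2.2)
    (Sum.elim (fun t : ZMod p × ZMod p × ZMod p => (s * e t.1, e t.2.1, e t.2.2))
      (fun t : ZMod p × ZMod p × ZMod p =>
      (s * e t.1 * s⁻¹, s * e t.2.1 * c⁻¹, c * e t.2.2))) ?_).trans ?_
  · rintro ⟨x, y, z⟩ h
    replace h : wt m x y z ≠ 0 := h
    have key : ((∃ i, x = s * e i) ∧ (∃ j, y = e j) ∧ (∃ l, z = e l)) ∨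
        ((∃ i, x = s * e i * s⁻¹) ∧ (∃ j, y = s * e j * c⁻¹) ∧ (∃ l, z = c * e l)) := by
      have hX : ∀ i, s * e i * c⁻¹ = s * e (i - g) := by
        intro i
        rw [hc, D.esub]; group
      have hY : ∀ j, c * e j = e (g + j) := by
        intro j
        rw [hc, D.eadd]
      rcases D.support h with ⟨h1, h2⟩ | ⟨h1, h2⟩ | ⟨h1, h2⟩ | ⟨i, j, l, h1, h2, h3⟩ |
        ⟨i, j, l, h1, h2, h3⟩ | ⟨i, j, l, h1, h2, h3⟩
      · exfalso
        obtain ⟨-, j, hj⟩ := D.fout _ _ h1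
        obtain ⟨⟨k, hk⟩, -⟩ := D.fout _ _ h2
        rw [hj, hX] at hk
        apply hs
        refine ⟨j - (k - g), ?_⟩
        rw [D.esub, ← mul_assoc, hk]; group
      · left
        obtain ⟨⟨i, hi⟩, j, hj⟩ := D.fout _ _ h1
        obtain ⟨-, l, hl⟩ := D.fout _ _ h2
        exact ⟨⟨i - g, by rw [hi, hX]⟩, ⟨g + j, by rw [hj, hY]⟩, ⟨g + l, by rw [hl, hY]⟩⟩
      · exact absurd (D.BD h1 h2) hs
      · left
        exact ⟨⟨i - g, by rw [h1, hX]⟩, ⟨g + j, by rw [h2, hY]⟩, ⟨l, h3⟩⟩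
      · exact Or.inr ⟨⟨i, h1⟩, ⟨j, h2⟩, ⟨l, h3⟩⟩
      · left
        refine ⟨⟨i - g, by rw [h1, hX]⟩, ⟨j, ?_⟩, ⟨g + l, by rw [h3, hY]⟩⟩
        rw [h2, hc, D.ecomm g j]; group
    rcases key with ⟨⟨i, rfl⟩, ⟨j, rfl⟩, l, rfl⟩ | ⟨⟨i, rfl⟩, ⟨j, rfl⟩, l, rfl⟩
    · exact ⟨Sum.inl (i, j, l), rfl⟩
    · exact ⟨Sum.inr (i, j, l), rfl⟩
  · rw [Fintype.sum_sum_type]
    apply add_le_add
    · apply Finset.sum_le_sum
      rintro ⟨i, j, l⟩ -
      exact (D.wtIII hc hs i j l).le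
    · apply Finset.sum_le_sum
      rintro ⟨i, j, l⟩ -
      exact (D.wt2 hs i j l).le

/-- the union of the three generic boxes with one more family -/
lemma boundG (D : Cos m p F e c s) (hc : ¬ ∃ g, c = e g) (hs : ¬ ∃ a, s = c * e a)
    {ι : Type*} [Fintype ι] (φ : ι → Q × Q × Q)
    (hφ : ∀ x y z, T m x y → T m y z → ∃ i, φ i = (x, y, z)) :
    ∑ τ : Q × Q × Q, wt m τ.1 τ.2.1 τ.2.2 ≤
      ∑ i, wt m (φ i).1 (φ i).2.1 (φ i).2.2 + (bs (w1 F) + bs (w2 F) + bs (w3 F)) := by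
  rw [bs_eq, bs_eq, bs_eq]
  refine (sum_le_of_cover (fun τ => wt m τ.1 τ.2.1 τ.2.2)
    (Sum.elim φ (Sum.elim (Sum.elim (fun t : ZMod p × ZMod p × ZMod p =>
      (s * e t.1 * c⁻¹, c * e t.2.1, e t.2.2))
      (fun t : ZMod p × ZMod p × ZMod p =>
      (s * e t.1 * s⁻¹, s * e t.2.1 * c⁻¹, c * e t.2.2)))
      (fun t : ZMod p × ZMod p × ZMod p =>
      (s * e t.1 * c⁻¹, c * e t.2.1 * c⁻¹, c * e t.2.2)))) ?_).trans ?_
  · rintro ⟨x, y, z⟩ h
    replace h : wt m x y z ≠ 0 := h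
    rcases D.support h with ⟨h1, h2⟩ | ⟨h1, h2⟩ | ⟨h1, h2⟩ | ⟨i, j, l, rfl, rfl, rfl⟩ |
        ⟨i, j, l, rfl, rfl, rfl⟩ | ⟨i, j, l, rfl, rfl, rfl⟩
    · obtain ⟨i, hi⟩ := hφ x y z h1 h2
      exact ⟨Sum.inl i, hi⟩
    · exact absurd (D.AC h1 h2) hc
    · exact absurd (D.BD h1 h2) hs
    · exact ⟨Sum.inr (Sum.inl (Sum.inl (i, j, l))), rfl⟩
    · exact ⟨Sum.inr (Sum.inl (Sum.inr (i, j, l))), rfl⟩
    · exact ⟨Sum.inr (Sum.inr (i, j, l)), rfl⟩
  · rw [Fintype.sum_sum_type, Fintype.sum_sum_type, Fintype.sum_sum_type]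
    apply add_le_add le_rfl
    apply add_le_add (add_le_add _ _)
    · apply Finset.sum_le_sum
      rintro ⟨i, j, l⟩ -
      exact (D.wt3 hc hs i j l).le
    · apply Finset.sum_le_sum
      rintro ⟨i, j, l⟩ -
      exact (D.wt1 hc i j l).le
    · apply Finset.sum_le_sum
      rintro ⟨i, j, l⟩ -
      exact (D.wt2 hs i j l).le

lemma epow (D : Cos m p F e c s) (i : ZMod p) (n : ℕ) : e (n * i) = e i ^ n := by
  induction n with
  | zero => simp [D.e0]
  | succ n ih =>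
    rw [Nat.cast_succ, add_mul, one_mul, D.eadd, ih, pow_succ]

/-- if conjugation by `c` maps one nontrivial element into the subgroup, `c` centralises it -/
lemma comm_of [Fact p.Prime] (D : Cos m p F e c s) (hcop : (Fintype.card Q).Coprime (p - 1))
    {u v : ZMod p} (hu : u ≠ 0) (huv : c * e u * c⁻¹ = e v) : ∀ i, c * e i = e i * c := by
  have hv : v ≠ 0 := by
    rintro rfl
    rw [D.e0] at huv
    apply hu
    apply D.einj
    rw [D.e0]
    have : e u = c⁻¹ * (c * e u * c⁻¹) * c := by group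
    rw [this, huv]; group
  set lam := v * u⁻¹ with hlam
  have h1 : ∀ i, c * e i * c⁻¹ = e (lam * i) := by
    intro i
    have hi : i = ((i * u⁻¹).val : ZMod p) * u := by
      rw [ZMod.natCast_zmod_val, mul_assoc, inv_mul_cancel₀ hu, mul_one]
    have hi2 : lam * i = ((i * u⁻¹).val : ZMod p) * v := by
      rw [ZMod.natCast_zmod_val, hlam]; ring
    rw [hi2, D.epow, ← huv]
    conv_lhs => rw [hi, D.epow]
    rw [conj_pow]
  have h2 : ∀ (n : ℕ) (i : ZMod p), c ^ n * e i * (c ^ n)⁻¹ = e (lam ^ n * i) := by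
    intro n
    induction n with
    | zero => intro i; simp
    | succ n ih =>
      intro i
      have : c ^ (n + 1) * e i * (c ^ (n + 1))⁻¹ = c * (c ^ n * e i * (c ^ n)⁻¹) * c⁻¹ := by
        rw [pow_succ']; group
      rw [this, ih, h1]
      congr 1; ring
  have h3 := h2 (Fintype.card Q) 1
  rw [pow_card_eq_one, one_mul, inv_one, mul_one, mul_one] at h3
  have h4 : lam ^ Fintype.card Q = 1 := (D.einj h3).symm
  have h5 : lam ^ (p - 1) = 1 := ZMod.pow_card_sub_one_eq_one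
    (mul_ne_zero hv (inv_ne_zero hu))
  have h6 : lam = 1 := by
    have a1 := orderOf_dvd_of_pow_eq_one h4
    have a2 := orderOf_dvd_of_pow_eq_one h5
    rw [← orderOf_eq_one_iff]
    exact Nat.eq_one_of_dvd_coprimes hcop a1 a2
  intro i
  have h7 := h1 i
  rw [h6, one_mul] at h7
  calc c * e i = (c * e i * c⁻¹) * c := by group
    _ = e i * c := by rw [h7]

/-- the bound in general -/
theorem bound [Fact p.Prime] (h : IsQuasigroup m) (D : Cos m p F e c s)
    (hcop : (Fintype.card Q).Coprime (p - 1)) {C : ℕ} (K : Check F C) :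
    4 * (tt m * Fintype.card Q) ≤ nonAssocTriples m + C := by
  refine (master' h).trans (Nat.add_le_add_left ?_ _)
  by_cases hc : ∃ g, c = e g
  · obtain ⟨g, hg⟩ := hc
    by_cases hs : ∃ a, s = c * e a
    · obtain ⟨a, ha⟩ := hs
      have ha' : s = e (g + a) := by rw [ha, hg, D.eadd]
      exact (D.boundI hg ha').trans (K.c1 _ _)
    · exact (D.boundIII hg hs).trans (K.c3 _)
  · by_cases hs : ∃ a, s = c * e a
    · obtain ⟨a, ha⟩ := hs
      exact (D.boundII hc ha).trans (K.c2 _)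
    · by_cases hxy : ∃ k j, s * e k * c⁻¹ = c * e j
      · obtain ⟨k, j, hkj⟩ := hxy
        by_cases hcomm : ∀ i, c * e i = e i * c
        · have hs' : s = c * c * e (j - k) := by
            have : s = c * e j * c * (e k)⁻¹ := by rw [← hkj]; group
            rw [this, D.esub, mul_assoc c (e j) c, ← hcomm j]; group
          have hb := D.boundG hc hs (fun t : ZMod p × ZMod p × ZMod p =>
            (c * e t.1, c * e t.2.1, c * e t.2.2)) (by
              intro x y z h1 h2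
              obtain ⟨⟨i, hi⟩, j', hj'⟩ := D.fout _ _ h1
              obtain ⟨-, l, hl⟩ := D.fout _ _ h2
              refine ⟨(j - k + i, j', l), ?_⟩
              simp only [Prod.mk.injEq]
              refine ⟨?_, hj'.symm, hl.symm⟩
              rw [hi]
              symm
              calc s * e i * c⁻¹ = c * (c * (e (j - k) * e i)) * c⁻¹ := by rw [hs']; group
                _ = c * (e (j - k + i) * c) * c⁻¹ := by rw [← D.eadd, hcomm (j - k + i)]
                _ = c * e (j - k + i) := by group)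
          refine hb.trans (le_trans ?_ (K.c4 (j - k)))
          apply add_le_add _ le_rfl
          rw [bs_eq]
          apply Finset.sum_le_sum
          rintro ⟨i, j', l⟩ -
          exact (D.wtIV hc hcomm hs' i j' l).le
        · have huniq : ∀ k' j', s * e k' * c⁻¹ = c * e j' → k' = k ∧ j' = j := by
            intro k' j' hkj'
            have h1 : c * e (-k + k') * c⁻¹ = e (-j + j') := by
              have : c * e (-k + k') * c⁻¹ = (s * e k * c⁻¹)⁻¹ * (s * e k' * c⁻¹) := by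
                rw [D.eadd, D.eneg]; group
              rw [this, hkj, hkj', D.eadd, D.eneg]; group
            have h2 : -k + k' = 0 := by
              by_contra hne
              exact hcomm (D.comm_of hcop hne h1)
            have h3 : k' = k := by linear_combination h2
            refine ⟨h3, ?_⟩
            rw [h3, hkj] at hkj'
            exact (D.einj (mul_left_cancel hkj')).symm
          have hb := D.boundG hc hs (fun t : ZMod p × ZMod p =>
            (s * e t.1 * c⁻¹, c * e j, c * e t.2)) (by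
              intro x y z h1 h2
              obtain ⟨⟨i, hi⟩, j', hj'⟩ := D.fout _ _ h1
              obtain ⟨⟨k', hk'⟩, l, hl⟩ := D.fout _ _ h2
              obtain ⟨-, rfl⟩ := huniq k' j' (hk'.symm.trans hj')
              exact ⟨(i, l), by rw [hi, hj', hl]⟩)
          refine hb.trans (le_trans ?_ (K.c5 j k))
          apply add_le_add _ le_rfl
          rw [Fintype.sum_prod_type]
          apply Finset.sum_le_sum
          intro i _
          apply Finset.sum_le_sum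
          intro l _
          show wt m (s * e i * c⁻¹) (c * e j) (c * e l) ≤ wV F j k i l
          have tA := D.T_iff i j
          have tB := D.T_iff k l
          rw [hkj] at tB
          by_cases hw : wt m (s * e i * c⁻¹) (c * e j) (c * e l) = 0
          · rw [hw]; exact Nat.zero_le _
          · have nC : ¬ T m (m (s * e i * c⁻¹) (c * e j)) (c * e l) := by
              intro hh
              obtain ⟨⟨k', hk'⟩, -⟩ := D.fout _ _ hh
              rw [D.fval, mul_assoc] at hk'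
              apply hc
              refine ⟨-F i j + k', ?_⟩
              rw [D.eadd, D.eneg, mul_left_cancel hk']; group
            have nD : ¬ T m (s * e i * c⁻¹) (m (c * e j) (c * e l)) := by
              intro hh
              obtain ⟨-, k', hk'⟩ := D.fout _ _ hh
              rw [← hkj, D.fval] at hk'
              apply hs
              refine ⟨k' - F k l, ?_⟩
              rw [D.esub, ← mul_assoc, ← hk']; group
            have hAB : T m (s * e i * c⁻¹) (c * e j) ∧ T m (c * e j) (c * e l) := by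
              have := wt_support hw
              tauto
            unfold wV
            rw [if_pos ⟨tA.1 hAB.1, tB.1 hAB.2⟩]
            unfold wt
            simp only [nC, nD, hAB.1, hAB.2, if_true, if_false]
            omega
      · have hb := D.boundG hc hs (fun t : Empty => t.elim) (by
              intro x y z h1 h2
              obtain ⟨-, j', hj'⟩ := D.fout _ _ h1
              obtain ⟨⟨k', hk'⟩, -⟩ := D.fout _ _ h2
              exact absurd ⟨k', j', hk'.symm.trans hj'⟩ hxy)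
        refine hb.trans (le_trans ?_ (K.c5 0 0))
        apply add_le_add _ le_rfl
        simp

end Cos

end Pool.Agent.Helper32.Q5
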