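import Pool.Agent.Helper32.Q5.Tables5

/-!
Local structure of the set of changed cells.
-/

namespace Pool.Agent.Helper32.Q5

open Finset Pool.Agent.Helper60.Quas

set_option linter.unusedSimpArgs false
set_option linter.unusedSectionVars false

variable {Q : Type*} [Fintype Q] [DecidableEq Q] [Group Q] {m : Q → Q → Q}

omit [Fintype Q] [DecidableEq Q] in
lemma row_src (h : IsQuasigroup m) {x y : Q} (hT : T m x y) :
    ∃ y', y' ≠ y ∧ T m x y' ∧ m x y = x * y' := by
  refine ⟨x⁻¹ * m x y, ?_, ?_, by group⟩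
  · intro hh
    exact hT (inv_mul_eq_iff_eq_mul.1 hh)
  · intro hh
    rw [mul_inv_cancel_left] at hh
    exact hT (inv_mul_eq_iff_eq_mul.1 ((h.1 x).1 hh))

omit [Fintype Q] [DecidableEq Q] in
lemma col_src (h : IsQuasigroup m) {x y : Q} (hT : T m x y) :
    ∃ x', x' ≠ x ∧ T m x' y ∧ m x y = x' * y := by
  refine ⟨m x y * y⁻¹, ?_, ?_, by group⟩
  · intro hh
    exact hT (mul_inv_eq_iff_eq_mul.1 hh)
  · intro hh
    rw [inv_mul_cancel_right] at hh
    exact hT (mul_inv_eq_iff_eq_mul.1 ((h.2 y).1 hh))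

lemma row2 (h : IsQuasigroup m) {x a b : Q} (Ta : T m x a) (Tb : T m x b) (hab : a ≠ b)
    (hr : rho m x = 2) :
    m x a = x * b ∧ m x b = x * a ∧ ∀ z, T m x z → z = a ∨ z = b := by
  have hz : ∀ z, T m x z → z = a ∨ z = b := by
    intro z hz
    have hE : ({a, b} : Finset Q) = univ.filter fun y => T m x y := by
      apply Finset.eq_of_subset_of_card_le
      · intro w hw
        simp only [mem_insert, mem_singleton] at hw
        rcases hw with rfl | rfl <;> simp [Ta, Tb]
      · rw [← rho_eq_card, hr, Finset.card_pair hab]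
    have : z ∈ ({a, b} : Finset Q) := by rw [hE]; simp [hz]
    simpa using this
  refine ⟨?_, ?_, hz⟩
  · obtain ⟨y', h1, h2, h3⟩ := row_src h Ta
    rcases hz y' h2 with e | e
    · exact absurd e h1
    · rw [h3, e]
  · obtain ⟨y', h1, h2, h3⟩ := row_src h Tb
    rcases hz y' h2 with e | e
    · rw [h3, e]
    · exact absurd e h1

lemma col2 (h : IsQuasigroup m) {y a b : Q} (Ta : T m a y) (Tb : T m b y) (hab : a ≠ b)
    (hr : gam m y = 2) :
    m a y = b * y ∧ m b y = a * y ∧ ∀ z, T m z y → z = a ∨ z = b := by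
  have hz : ∀ z, T m z y → z = a ∨ z = b := by
    intro z hz
    have hE : ({a, b} : Finset Q) = univ.filter fun x => T m x y := by
      apply Finset.eq_of_subset_of_card_le
      · intro w hw
        simp only [mem_insert, mem_singleton] at hw
        rcases hw with rfl | rfl <;> simp [Ta, Tb]
      · rw [← gam_eq_card, hr, Finset.card_pair hab]
    have : z ∈ ({a, b} : Finset Q) := by rw [hE]; simp [hz]
    simpa using this
  refine ⟨?_, ?_, hz⟩
  · obtain ⟨y', h1, h2, h3⟩ := col_src h Ta
    rcases hz y' h2 with e | e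
    · exact absurd e h1
    · rw [h3, e]
  · obtain ⟨y', h1, h2, h3⟩ := col_src h Tb
    rcases hz y' h2 with e | e
    · rw [h3, e]
    · exact absurd e h1

lemma row3 (h : IsQuasigroup m) {x a b c : Q} (Ta : T m x a) (Tb : T m x b) (Tc : T m x c)
    (hab : a ≠ b) (hac : a ≠ c) (hbc : b ≠ c) (hr : rho m x = 3) :
    ((m x a = x * b ∧ m x b = x * c ∧ m x c = x * a) ∨
      (m x a = x * c ∧ m x b = x * a ∧ m x c = x * b)) ∧
      ∀ z, T m x z → z = a ∨ z = b ∨ z = c := by
  have hz : ∀ z, T m x z → z = a ∨ z = b ∨ z = c := by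
    intro z hz
    have hE : ({a, b, c} : Finset Q) = univ.filter fun y => T m x y := by
      apply Finset.eq_of_subset_of_card_le
      · intro w hw
        simp only [mem_insert, mem_singleton] at hw
        rcases hw with rfl | rfl | rfl <;> simp [Ta, Tb, Tc]
      · rw [← rho_eq_card, hr, Finset.card_eq_three.2 ⟨a, b, c, hab, hac, hbc, rfl⟩]
    have : z ∈ ({a, b, c} : Finset Q) := by rw [hE]; simp [hz]
    simpa using this
  refine ⟨?_, hz⟩
  obtain ⟨ya, a1, a2, a3⟩ := row_src h Ta
  obtain ⟨yb, b1, b2, b3⟩ := row_src h Tb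
  obtain ⟨yc, c1, c2, c3⟩ := row_src h Tc
  have iab : ya ≠ yb := by
    intro hh
    rw [hh, ← b3] at a3
    exact hab ((h.1 x).1 a3)
  have iac : ya ≠ yc := by
    intro hh
    rw [hh, ← c3] at a3
    exact hac ((h.1 x).1 a3)
  have ibc : yb ≠ yc := by
    intro hh
    rw [hh, ← c3] at b3
    exact hbc ((h.1 x).1 b3)
  rcases hz _ a2 with e | e | e
  · exact absurd e a1
  · rcases hz _ b2 with f | f | f
    · -- ya = b, yb = a : yc = c
      rcases hz _ c2 with g | g | g
      · exact absurd (f.trans g.symm) ibc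
      · exact absurd (e.trans g.symm) iac
      · exact absurd g c1
    · exact absurd f b1
    · rcases hz _ c2 with g | g | g
      · left
        exact ⟨by rw [a3, e], by rw [b3, f], by rw [c3, g]⟩
      · exact absurd (e.trans g.symm) iac
      · exact absurd g c1
  · rcases hz _ b2 with f | f | f
    · rcases hz _ c2 with g | g | g
      · exact absurd (f.trans g.symm) ibc
      · right
        exact ⟨by rw [a3, e], by rw [b3, f], by rw [c3, g]⟩
      · exact absurd g c1
    · exact absurd f b1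
    · exact absurd (e.trans f.symm) iab

lemma col3 (h : IsQuasigroup m) {y a b c : Q} (Ta : T m a y) (Tb : T m b y) (Tc : T m c y)
    (hab : a ≠ b) (hac : a ≠ c) (hbc : b ≠ c) (hr : gam m y = 3) :
    ((m a y = b * y ∧ m b y = c * y ∧ m c y = a * y) ∨
      (m a y = c * y ∧ m b y = a * y ∧ m c y = b * y)) ∧
      ∀ z, T m z y → z = a ∨ z = b ∨ z = c := by
  have hz : ∀ z, T m z y → z = a ∨ z = b ∨ z = c := by
    intro z hz
    have hE : ({a, b, c} : Finset Q) = univ.filter fun x => T m x y := by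
      apply Finset.eq_of_subset_of_card_le
      · intro w hw
        simp only [mem_insert, mem_singleton] at hw
        rcases hw with rfl | rfl | rfl <;> simp [Ta, Tb, Tc]
      · rw [← gam_eq_card, hr, Finset.card_eq_three.2 ⟨a, b, c, hab, hac, hbc, rfl⟩]
    have : z ∈ ({a, b, c} : Finset Q) := by rw [hE]; simp [hz]
    simpa using this
  refine ⟨?_, hz⟩
  obtain ⟨ya, a1, a2, a3⟩ := col_src h Ta
  obtain ⟨yb, b1, b2, b3⟩ := col_src h Tb
  obtain ⟨yc, c1, c2, c3⟩ := col_src h Tc
  have iab : ya ≠ yb := by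
    intro hh
    rw [hh, ← b3] at a3
    exact hab ((h.2 y).1 a3)
  have iac : ya ≠ yc := by
    intro hh
    rw [hh, ← c3] at a3
    exact hac ((h.2 y).1 a3)
  have ibc : yb ≠ yc := by
    intro hh
    rw [hh, ← c3] at b3
    exact hbc ((h.2 y).1 b3)
  rcases hz _ a2 with e | e | e
  · exact absurd e a1
  · rcases hz _ b2 with f | f | f
    · rcases hz _ c2 with g | g | g
      · exact absurd (f.trans g.symm) ibc
      · exact absurd (e.trans g.symm) iac
      · exact absurd g c1
    · exact absurd f b1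
    · rcases hz _ c2 with g | g | g
      · left
        exact ⟨by rw [a3, e], by rw [b3, f], by rw [c3, g]⟩
      · exact absurd (e.trans g.symm) iac
      · exact absurd g c1
  · rcases hz _ b2 with f | f | f
    · rcases hz _ c2 with g | g | g
      · exact absurd (f.trans g.symm) ibc
      · right
        exact ⟨by rw [a3, e], by rw [b3, f], by rw [c3, g]⟩
      · exact absurd g c1
    · exact absurd f b1
    · exact absurd (e.trans f.symm) iab

/-- powers which are trivial in a group of order coprime to six -/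
lemma eq_one_of_pow {g : Q} {k : ℕ} (hcop : (Fintype.card Q).Coprime k) (hg : g ^ k = 1) :
    g = 1 := by
  have a1 := orderOf_dvd_of_pow_eq_one hg
  have a2 := orderOf_dvd_card (x := g)
  rw [← orderOf_eq_one_iff]
  exact Nat.eq_one_of_dvd_coprimes hcop a2 a1

lemma cop_of (h2 : ¬ 2 ∣ Fintype.card Q) (h3 : ¬ 3 ∣ Fintype.card Q) :
    (Fintype.card Q).Coprime 12 := by
  have a2 : (Fintype.card Q).Coprime 2 := by
    rw [Nat.coprime_comm]
    exact (Nat.Prime.coprime_iff_not_dvd Nat.prime_two).2 h2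
  have a3 : (Fintype.card Q).Coprime 3 := by
    rw [Nat.coprime_comm]
    exact (Nat.Prime.coprime_iff_not_dvd Nat.prime_three).2 h3
  have : (12 : ℕ) = 2 * 2 * 3 := by norm_num
  rw [this]
  exact (a2.mul_right a2).mul_right a3

lemma eq_one_of_dvd12 (h2 : ¬ 2 ∣ Fintype.card Q) (h3 : ¬ 3 ∣ Fintype.card Q) {g : Q} {k : ℕ}
    (hk : k ∣ 12) (hg : g ^ k = 1) : g = 1 :=
  eq_one_of_pow (Nat.Coprime.coprime_dvd_right hk (cop_of h2 h3)) hg

/-- a small nonempty set closed under right multiplication by `g` forces `g = 1` -/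
lemma closed_small (h2 : ¬ 2 ∣ Fintype.card Q) (h3 : ¬ 3 ∣ Fintype.card Q) {S : Finset Q}
    (hS : S.Nonempty) (hc : S.card ≤ 4) {g : Q} (hg : ∀ x ∈ S, x * g ∈ S) : g = 1 := by
  obtain ⟨x, hx⟩ := hS
  have hmem : ∀ k : ℕ, x * g ^ k ∈ S := by
    intro k
    induction k with
    | zero => simpa using hx
    | succ k ih =>
      rw [pow_succ, ← mul_assoc]
      exact hg _ ih
  obtain ⟨i, hi, j, hj, hij, he⟩ := Finset.exists_ne_map_eq_of_card_lt_of_maps_to
    (s := Finset.range 5) (t := S) (f := fun k => x * g ^ k)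
    (by rw [Finset.card_range]; omega) (by intro k _; exact hmem k)
  have he' : g ^ i = g ^ j := mul_left_cancel he
  rw [Finset.mem_range] at hi hj
  have key : ∀ i j : ℕ, i < j → j < 5 → g ^ i = g ^ j → g = 1 := by
    intro i j hij hj he
    obtain ⟨k, rfl⟩ : ∃ k, j = i + k := ⟨j - i, by omega⟩
    have h1 : g ^ k = 1 := by
      rw [pow_add] at he
      exact (mul_eq_left.1 he.symm)
    have hk : k ∣ 12 := by
      have : k ≤ 4 := by omega
      have : 1 ≤ k := by omega
      interval_cases k <;> norm_num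
    exact eq_one_of_dvd12 h2 h3 hk h1
  rcases Nat.lt_or_gt_of_ne hij with hlt | hlt
  · exact key i j hlt hj he'
  · exact key j i hlt hi he'.symm

lemma closed_small' (h2 : ¬ 2 ∣ Fintype.card Q) (h3 : ¬ 3 ∣ Fintype.card Q) {S : Finset Q}
    (hS : S.Nonempty) (hc : S.card ≤ 4) {g : Q} (hg : ∀ x ∈ S, g * x ∈ S) : g = 1 := by
  have h1 : g⁻¹ = 1 := by
    apply closed_small h2 h3 (S := S.image (fun x => x⁻¹)) (hS.image _)
      ((Finset.card_image_le).trans hc)
    intro x hx
    obtain ⟨y, hy, rfl⟩ := Finset.mem_image.1 hx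
    refine Finset.mem_image.2 ⟨g * y, hg y hy, by group⟩
  exact inv_eq_one.1 h1

/-- two changed rows -/
lemma not_two_rows (h : IsQuasigroup m) (h2 : ¬ 2 ∣ Fintype.card Q) (h3 : ¬ 3 ∣ Fintype.card Q)
    (hB : (B0 m).card = 2) (hC : (C0 m).card ≤ 4) : False := by
  obtain ⟨a, b, hab, hBe⟩ := Finset.card_eq_two.1 hB
  have hfull := fun {y} (hy : y ∈ C0 m) => two_rows_full h hBe hy
  have hg : a⁻¹ * b = 1 := by
    apply closed_small' h2 h3 (S := C0 m) _ hC
    · intro y hy
      obtain ⟨h1, h4⟩ := hfull hy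
      obtain ⟨x', c1, c2, c3⟩ := col_src h h1
      have hx' : x' = b := by
        have : x' ∈ B0 m := mem_B0.2 ⟨y, c2⟩
        rw [hBe, mem_insert, mem_singleton] at this
        rcases this with e | e
        · exact absurd e c1
        · exact e
      obtain ⟨y', d1, d2, d3⟩ := row_src h h1
      have : a⁻¹ * b * y = y' := by
        rw [mul_assoc, ← hx', ← c3, d3]; group
      rw [this]
      exact mem_C0.2 ⟨a, d2⟩
    · have ha : a ∈ B0 m := by rw [hBe]; simp
      obtain ⟨y, hy⟩ := mem_B0.1 ha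
      exact ⟨y, mem_C0.2 ⟨a, hy⟩⟩
  rw [inv_mul_eq_one] at hg
  exact hab hg

section opp

local instance mopFintype' : Fintype Qᵐᵒᵖ := Fintype.ofEquiv Q MulOpposite.opEquiv

lemma card_mop : Fintype.card Qᵐᵒᵖ = Fintype.card Q := Fintype.card_congr MulOpposite.opEquiv.symm

lemma tt_mop : tt (mop m) = tt m := by
  unfold tt
  rw [Finset.sum_comm]
  rw [← Equiv.sum_comp MulOpposite.opEquiv]
  refine Finset.sum_congr rfl fun x _ => ?_
  rw [← Equiv.sum_comp MulOpposite.opEquiv]
  refine Finset.sum_congr rfl fun y _ => ?_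
  simp only [T_mop, MulOpposite.opEquiv_apply, MulOpposite.unop_op]

/-- two changed columns -/
lemma not_two_cols (h : IsQuasigroup m) (h2 : ¬ 2 ∣ Fintype.card Q) (h3 : ¬ 3 ∣ Fintype.card Q)
    (hC : (C0 m).card = 2) (hB : (B0 m).card ≤ 4) : False := by
  apply not_two_rows (mop_isQuasigroup h)
  · rw [card_mop]; exact h2
  · rw [card_mop]; exact h3
  · rw [card_B0_mop]; exact hC
  · rw [card_C0_mop]; exact hB

end opp

end Pool.Agent.Helper32.Q5
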