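import Pool.Agent.Helper32.Q5.Class8

/-!
The lower bound `32 n - 114` for odd orders not divisible by three.
-/

namespace Pool.Agent.Helper32.Q5

open Finset Equiv Pool.Agent.Helper60.Quas

set_option linter.unusedSimpArgs false
set_option linter.unusedSectionVars false

section group

variable {Q : Type*} [Fintype Q] [DecidableEq Q] [Group Q] {m : Q → Q → Q}

/-- at least eight cells are changed -/
theorem eight_le (h : IsQuasigroup m) (h2 : ¬ 2 ∣ Fintype.card Q)
    (h3 : ¬ 3 ∣ Fintype.card Q) {x y : Q} (hT : T m x y) : 8 ≤ tt m := by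
  by_contra hcon
  have b2 := B0_ge_two h hT
  have c2 := C0_ge_two h hT
  have tb := two_B0 (m := m) h
  have tc := two_C0 (m := m) h
  have hb : (B0 m).card ≠ 2 := fun hb => not_two_rows h h2 h3 hb (by omega)
  have hc : (C0 m).card ≠ 2 := fun hc => not_two_cols h h2 h3 hc (by omega)
  have hb3 : (B0 m).card = 3 := by omega
  have hc3 : (C0 m).card = 3 := by omega
  rcases Nat.lt_or_ge (tt m) 7 with h7 | h7
  · have h6 : tt m = 6 := by omega
    obtain ⟨a, p, v, cf⟩ := three_three h hb3 hc3 h6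
    apply h3
    rw [← cf.order]
    exact orderOf_dvd_card
  · exact not_seven h h2 h3 hb3 hc3 (by omega)

local instance mopFintype2 : Fintype Qᵐᵒᵖ := Fintype.ofEquiv Q MulOpposite.opEquiv

lemma cop4 (h2 : ¬ 2 ∣ Fintype.card Q) : (Fintype.card Q).Coprime (5 - 1) := by
  have a2 : (Fintype.card Q).Coprime 2 := by
    rw [Nat.coprime_comm]
    exact (Nat.Prime.coprime_iff_not_dvd Nat.prime_two).2 h2
  exact a2.mul_right a2

/-- eight changed cells -/
theorem eight_bound (h : IsQuasigroup m) (h2 : ¬ 2 ∣ Fintype.card Q)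
    (h3 : ¬ 3 ∣ Fintype.card Q) (ht : tt m = 8) :
    (∃ d : Q, d ≠ 1 ∧ d ^ 5 = 1) ∧ 32 * Fintype.card Q ≤ nonAssocTriples m + 114 := by
  have : Fact (Nat.Prime 5) := ⟨by norm_num⟩
  have hne : ∃ x y, T m x y := by
    by_contra hall
    push Not at hall
    have : tt m = 0 := by
      unfold tt
      apply Finset.sum_eq_zero
      intro x _
      apply Finset.sum_eq_zero
      intro y _
      rw [if_neg (hall x y)]
    omega
  obtain ⟨x, y, hT⟩ := hne
  have b2 := B0_ge_two h hT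
  have c2 := C0_ge_two h hT
  have tb := two_B0 (m := m) h
  have tc := two_C0 (m := m) h
  have hb : (B0 m).card ≠ 2 := fun hb => not_two_rows h h2 h3 hb (by omega)
  have hc : (C0 m).card ≠ 2 := fun hc => not_two_cols h h2 h3 hc (by omega)
  by_cases hb3 : (B0 m).card = 3
  · by_cases hc3 : (C0 m).card = 3
    · obtain ⟨c, d, s, d1, d5, D⟩ := eight33 h hb3 hc3 ht
      refine ⟨⟨d, d1, d5⟩, ?_⟩
      have := D.bound h (cop4 h2) check_sym
      rw [ht] at this
      omega
    · have hc4 : (C0 m).card = 4 := by omega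
      have k2 : ¬ 2 ∣ Fintype.card Qᵐᵒᵖ := by rw [card_mop]; exact h2
      have k3 : ¬ 3 ∣ Fintype.card Qᵐᵒᵖ := by rw [card_mop]; exact h3
      obtain ⟨c, d, s, d1, d5, D⟩ := eight43 (mop_isQuasigroup h) k2 k3
        (by rw [card_B0_mop]; exact hc4) (by rw [card_C0_mop]; exact hb3) (by rw [tt_mop, ht])
      refine ⟨⟨d.unop, ?_, ?_⟩, ?_⟩
      · intro hh
        apply d1
        rw [← MulOpposite.op_unop d, hh, MulOpposite.op_one]
      · rw [← MulOpposite.unop_pow, d5, MulOpposite.unop_one]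
      · have := D.bound (mop_isQuasigroup h) (cop4 k2) check_row
        rw [tt_mop, ht, mop_nonAssoc, card_mop] at this
        omega
  · have hb4 : (B0 m).card = 4 := by omega
    by_cases hc3 : (C0 m).card = 3
    · obtain ⟨c, d, s, d1, d5, D⟩ := eight43 h h2 h3 hb4 hc3 ht
      refine ⟨⟨d, d1, d5⟩, ?_⟩
      have := D.bound h (cop4 h2) check_row
      rw [ht] at this
      omega
    · exact (not_eight44 h h2 h3 hb4 (by omega) ht).elim

lemma exists_T (hpos : 0 < nonAssocTriples m) : ∃ x y, T m x y := by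
  by_contra hall
  push Not at hall
  have : nonAssocTriples m = 0 := by
    unfold nonAssocTriples
    rw [Finset.card_eq_zero, Finset.filter_eq_empty_iff]
    intro t _
    rw [not_T (hall _ _), not_T (hall _ _), not_T (hall _ _), not_T (hall _ _), mul_assoc,
      not_not]
  omega

/-- the bound for any quasigroup which differs from a group inside a `5 × 5` subgrid -/
theorem near_group5 (h : IsQuasigroup m) (h2 : ¬ 2 ∣ Fintype.card Q)
    (h3 : ¬ 3 ∣ Fintype.card Q) (hn : 80 ≤ Fintype.card Q) (hB : (B0 m).card ≤ 5)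
    (hC : (C0 m).card ≤ 5) (hpos : 0 < nonAssocTriples m) :
    32 * Fintype.card Q ≤ nonAssocTriples m + 114 := by
  obtain ⟨x, y, hT⟩ := exists_T hpos
  have h8 := eight_le h h2 h3 hT
  have tb := two_B0 (m := m) h
  have tc := two_C0 (m := m) h
  have hBmem : ∀ x y, T m x y → x ∈ B0 m := fun x y hh => mem_B0.2 ⟨y, hh⟩
  rcases Nat.lt_or_ge (tt m) 9 with h9 | h9
  · exact (eight_bound h h2 h3 (by omega)).2
  rcases Nat.lt_or_ge (tt m) 10 with h10 | h10
  · have h9' : tt m = 9 := by omega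
    have hB4 : (B0 m).card ≤ 4 := by omega
    have hC4 : (C0 m).card ≤ 4 := by omega
    have hgen := general_lower h (M := 4) (fun x => (rho_le x).trans hC4)
      (fun x => (gam_le x).trans hB4) hB4 hBmem
    have hr := sumsq_le (rho m) 4 (fun x => (rho_le x).trans hC4)
    have hg := sumsq_le (gam m) 4 (fun x => (gam_le x).trans hB4)
    rw [tt_eq_rho] at hr
    rw [tt_eq_gam] at hg
    rw [h9'] at hgen hr hg
    omega
  · have hgen := general_lower h (M := 5) (fun x => (rho_le x).trans hC)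
      (fun x => (gam_le x).trans hB) hB hBmem
    have hr := sumsq_le (rho m) 5 (fun x => (rho_le x).trans hC)
    have hg := sumsq_le (gam m) 5 (fun x => (gam_le x).trans hB)
    rw [tt_eq_rho] at hr
    rw [tt_eq_gam] at hg
    obtain ⟨j, hj⟩ : ∃ j, Fintype.card Q = j + 80 := ⟨Fintype.card Q - 80, by omega⟩
    obtain ⟨i, hi⟩ : ∃ i, tt m = i + 10 := ⟨tt m - 10, by omega⟩
    rw [hj, hi] at hgen
    rw [hi] at hr hg
    rw [hj]
    nlinarith [Nat.zero_le (i * j)]

end group

section final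

variable {Q : Type*} [Fintype Q] [DecidableEq Q]

lemma arith_gap5 {k d s : ℕ} (hk : 40 ≤ k) (hs : s + 83 ≤ 64 * k)
    (h : 6 * (d * (2 * k + 1 - 2 * d)) ≤ s) : d ≤ 5 ∨ k - 5 ≤ d := by
  by_contra hc
  push Not at hc
  obtain ⟨e, he⟩ : ∃ e, k = d + e := ⟨k - d, by omega⟩
  have h1 : 2 * k + 1 - 2 * d = 2 * e + 1 := by omega
  rw [h1] at h
  obtain ⟨d', rfl⟩ : ∃ d', d = d' + 6 := ⟨d - 6, by omega⟩
  obtain ⟨e', rfl⟩ : ∃ e', e = e' + 6 := ⟨e - 6, by omega⟩
  nlinarith [Nat.zero_le (d' * e')]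

lemma arith_mix5 {k r s : ℕ} (hk : 40 ≤ k) (hs : s + 83 ≤ 64 * k) (hr : k - 5 ≤ r)
    (h : 3 * ((k - 5) * r) + 4 * (r * (2 * k + 1 - 2 * r)) ≤ s) : False := by
  obtain ⟨j, rfl⟩ : ∃ j, k = j + 40 := ⟨k - 40, by omega⟩
  have h0 : j + 40 - 5 = j + 35 := by omega
  rw [h0] at h hr
  have h2 : (j + 35) * (j + 35) ≤ (j + 35) * r := Nat.mul_le_mul_left _ hr
  nlinarith [Nat.zero_le (r * (2 * (j + 40) + 1 - 2 * r))]

lemma rows_bad5 {m : Q → Q → Q} (h : IsQuasigroup m) {k : ℕ} (hk : 40 ≤ k)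
    (hcard : Fintype.card Q = 2 * k + 1) (hs : nonAssocTriples m + 83 ≤ 64 * k)
    (hgap : ∀ g : Perm Q, dd h g ≤ 5 ∨ k - 5 ≤ dd h g) : ((good h 5)ᶜ).card ≤ 5 := by
  have hgap' : ∀ g : Perm Q, dd h g ≤ 5 ∨ 2 * 5 < dd h g := by
    intro g
    rcases hgap g with h1 | h1
    · exact Or.inl h1
    · right; omega
  have h1 := rows_lower h (good h 5) (good_ex h 5 hgap')
  have h2 := mix_lower h (good h 5) (k - 5) (by
    intro x hx
    rw [mem_good] at hx
    rcases hgap (Lp h x) with h1 | h1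
    · exact absurd h1 hx
    · exact h1) (good_ex h 5 hgap')
  rw [hcard] at h1 h2
  rcases arith_gap5 hk hs h1 with h3 | h3
  · exact h3
  · exact (arith_mix5 hk hs h3 h2).elim

theorem lower5 {m : Q → Q → Q} (h : IsQuasigroup m) (hn : 80 ≤ Fintype.card Q)
    (h2 : ¬ 2 ∣ Fintype.card Q) (h3 : ¬ 3 ∣ Fintype.card Q) (hpos : 0 < nonAssocTriples m) :
    32 * Fintype.card Q ≤ nonAssocTriples m + 114 := by
  by_contra hcon
  obtain ⟨k, hcard⟩ : ∃ k, Fintype.card Q = 2 * k + 1 := by
    refine ⟨Fintype.card Q / 2, ?_⟩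
    omega
  have hk : 40 ≤ k := by omega
  have hs : nonAssocTriples m + 83 ≤ 64 * k := by omega
  have hgap : ∀ g : Perm Q, dd h g ≤ 5 ∨ k - 5 ≤ dd h g := by
    intro g
    have := gap h g
    rw [hcard] at this
    exact arith_gap5 hk hs this
  have hso : nonAssocTriples (opp m) + 83 ≤ 64 * k := by rw [nonAssoc_opp]; exact hs
  have hgapo : ∀ g : Perm Q, dd h.opp g ≤ 5 ∨ k - 5 ≤ dd h.opp g := by
    intro g
    have := gap h.opp g
    rw [hcard] at this
    exact arith_gap5 hk hso this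
  have hr := rows_bad5 h hk hcard hs hgap
  have hr' := rows_bad5 h.opp hk hcard hso hgapo
  obtain ⟨_, B, B', hB, hB', hm⟩ := structure_thm h 5 (by omega) (by
    intro g
    rcases hgap g with h1 | h1
    · exact Or.inl h1
    · right; omega) hr hr'
  have hBs : B0 m ⊆ B := by
    intro x hx
    obtain ⟨y, hy⟩ := mem_B0.1 hx
    by_contra hn
    exact hy (hm x y (Or.inl hn))
  have hCs : C0 m ⊆ B' := by
    intro y hy
    obtain ⟨x, hx⟩ := mem_C0.1 hy
    by_contra hn
    exact hx (hm x y (Or.inr hn))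
  have := near_group5 h h2 h3 hn ((Finset.card_le_card hBs).trans hB)
    ((Finset.card_le_card hCs).trans hB') hpos
  exact hcon this

end final

end Pool.Agent.Helper32.Q5
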