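import Pool.Agent.Helper32.Q5.Lower5
import Pool.Agent.Helper32.Q5.Class9b

/-!
The lower bounds for odd orders not divisible by three.
-/

namespace Pool.Agent.Helper32.Q5

open Finset Equiv Pool.Agent.Helper60.Quas

set_option linter.unusedSimpArgs false
set_option linter.unusedSectionVars false

section group

variable {Q : Type*} [Fintype Q] [DecidableEq Q] [Group Q] {m : Q → Q → Q}

/-- General lower bound with separate parameters. -/
theorem general_lower' (h : IsQuasigroup m) {M M' : ℕ}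
    (hM : ∀ x, rho m x ≤ M) (hM' : ∀ x, gam m x ≤ M') :
    4 * (tt m * Fintype.card Q) ≤ nonAssocTriples m + 2 * (2 * (tt m * M) + tt m * M' +
      tt m * (B0 m).card + (∑ x, rho m x * rho m x + ∑ x, gam m x * gam m x)) := by
  have h0 := master h (fun x y z => 2 * ((if T m x y ∧ T m y z then 1 else 0) +
      (if T m x y ∧ T m (m x y) z then 1 else 0) +
        (if T m x y ∧ T m x (m y z) then 1 else 0) +
        (if T m y z ∧ T m (m x y) z then 1 else 0) +
        (if T m y z ∧ T m x (m y z) then 1 else 0) +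
        (if T m (m x y) z ∧ T m x (m y z) then 1 else 0))) (by
    intro x y z
    apply ptG
    · exact sA
    · exact sB
    · exact sC
    · exact sD)
  have h1 := sum_AB m hM
  have h2 := sum_AC m hM
  have h3 := sum_AD h
  have h4 := sum_BC h
  have h5 := sum_BD (m := m) hM'
  have h6 := sum_CD h (B := B0 m) (fun x y hh => mem_B0.2 ⟨y, hh⟩)
  simp only [← Finset.mul_sum, Finset.sum_add_distrib] at h0
  rw [h3, h4] at h0
  linarith

lemma sumsq2 {B : Finset Q} {f : Q → ℕ} {M : ℕ} (hge : ∀ x ∈ B, 2 ≤ f x)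
    (hle : ∀ x ∈ B, f x ≤ M) :
    ∑ x ∈ B, f x * f x + 2 * M * B.card ≤ (2 + M) * ∑ x ∈ B, f x := by
  have h1 : ∑ x ∈ B, (f x * f x + 2 * M) ≤ ∑ x ∈ B, (2 + M) * f x := by
    apply Finset.sum_le_sum
    intro x hx
    have a1 := hge x hx
    have a2 := hle x hx
    obtain ⟨i, hi⟩ : ∃ i, f x = 2 + i := ⟨f x - 2, by omega⟩
    obtain ⟨j, hj⟩ : ∃ j, M = f x + j := ⟨M - f x, by omega⟩
    rw [hj, hi]
    nlinarith [Nat.zero_le (i * j)]
  rw [Finset.sum_add_distrib, Finset.sum_const, smul_eq_mul, ← Finset.mul_sum] at h1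
  linarith [mul_comm B.card (2 * M)]

lemma le_of_sum {B : Finset Q} {f : Q → ℕ} (hge : ∀ x ∈ B, 2 ≤ f x) {x : Q} (hx : x ∈ B) :
    f x + 2 * B.card ≤ ∑ y ∈ B, f y + 2 := by
  have h1 := Finset.add_sum_erase B f hx
  have h2 : (B.erase x).card * 2 ≤ ∑ y ∈ B.erase x, f y := by
    rw [← smul_eq_mul]
    exact Finset.card_nsmul_le_sum _ _ _ fun y hy => hge y (Finset.mem_of_mem_erase hy)
  rw [Finset.card_erase_of_mem hx] at h2
  have h4 : 0 < B.card := Finset.card_pos.2 ⟨x, hx⟩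
  omega

lemma sum_rho_B0 : ∑ x, rho m x * rho m x = ∑ x ∈ B0 m, rho m x * rho m x := by
  symm
  apply Finset.sum_subset (subset_univ _)
  intro x _ hx
  rw [rho_zero hx, mul_zero]

lemma sum_gam_C0 : ∑ x, gam m x * gam m x = ∑ x ∈ C0 m, gam m x * gam m x := by
  symm
  apply Finset.sum_subset (subset_univ _)
  intro x _ hx
  rw [gam_zero hx, mul_zero]

/-- ten changed cells -/
theorem ten_bound (h : IsQuasigroup m) (ht : tt m = 10) :
    40 * Fintype.card Q ≤ nonAssocTriples m + 442 := by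
  have hne : ∃ x y, T m x y := by
    by_contra hall
    push Not at hall
    have : tt m = 0 := by
      unfold tt
      apply Finset.sum_eq_zero
      intro x _
      apply Finset.sum_eq_zero
      intro y _
      rw [if_neg (hall x y)]
    omega
  obtain ⟨x, y, hT⟩ := hne
  have b2 := B0_ge_two h hT
  have c2 := C0_ge_two h hT
  have tb := two_B0 (m := m) h
  have tc := two_C0 (m := m) h
  have hrho : ∀ x, rho m x ≤ min (C0 m).card (12 - 2 * (B0 m).card) := by
    intro x
    apply le_min (rho_le x)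
    by_cases hx : x ∈ B0 m
    · have := le_of_sum (B := B0 m) (f := rho m) (fun x hx => two_le_rho h hx) hx
      rw [← tt_rho, ht] at this
      omega
    · rw [rho_zero hx]; exact Nat.zero_le _
  have hgam : ∀ x, gam m x ≤ min (B0 m).card (12 - 2 * (C0 m).card) := by
    intro x
    apply le_min (gam_le x)
    by_cases hx : x ∈ C0 m
    · have := le_of_sum (B := C0 m) (f := gam m) (fun x hx => two_le_gam h hx) hx
      rw [← tt_gam, ht] at this
      omega
    · rw [gam_zero hx]; exact Nat.zero_le _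
  have hRC : 10 ≤ (B0 m).card * (C0 m).card := by
    have h1 : ∑ x ∈ B0 m, rho m x ≤ (B0 m).card * (C0 m).card := by
      rw [← smul_eq_mul]
      exact Finset.sum_le_card_nsmul _ _ _ fun x _ => rho_le x
    rw [← tt_rho, ht] at h1
    exact h1
  have hgen := general_lower' h hrho hgam
  have s1 := sumsq2 (B := B0 m) (f := rho m) (fun x hx => two_le_rho h hx)
    (fun x _ => hrho x)
  have s2 := sumsq2 (B := C0 m) (f := gam m) (fun x hx => two_le_gam h hx)
    (fun x _ => hgam x)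
  rw [← tt_rho, ht, ← sum_rho_B0] at s1
  rw [← tt_gam, ht, ← sum_gam_C0] at s2
  rw [ht] at hgen tb tc
  generalize (∑ x, rho m x * rho m x) = A at *
  generalize (∑ x, gam m x * gam m x) = A' at *
  generalize (B0 m).card = R at *
  generalize (C0 m).card = C at *
  generalize nonAssocTriples m = N at *
  generalize Fintype.card Q = n at *
  clear hrho hgam
  have hR : R ≤ 5 := by omega
  have hC : C ≤ 5 := by omega
  interval_cases R <;> interval_cases C <;>
    simp only [Nat.reduceMul, Nat.reduceSub, Nat.reduceAdd, Nat.reduceLeDiff, le_refl,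
      min_eq_left, min_eq_right, min_self] at * <;> omega

lemma cop6 (h2 : ¬ 2 ∣ Fintype.card Q) (h3 : ¬ 3 ∣ Fintype.card Q) :
    (Fintype.card Q).Coprime (7 - 1) :=
  Nat.Coprime.coprime_dvd_right (by norm_num) (cop_of h2 h3)

local instance mopFintype3 : Fintype Qᵐᵒᵖ := Fintype.ofEquiv Q MulOpposite.opEquiv

/-- nine changed cells -/
theorem nine_bound (h : IsQuasigroup m) (h2 : ¬ 2 ∣ Fintype.card Q)
    (h3 : ¬ 3 ∣ Fintype.card Q) (ht : tt m = 9) :
    36 * Fintype.card Q ≤ nonAssocTriples m + 134 := by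
  have : Fact (Nat.Prime 7) := ⟨by norm_num⟩
  have hne : ∃ x y, T m x y := by
    by_contra hall
    push Not at hall
    have : tt m = 0 := by
      unfold tt
      apply Finset.sum_eq_zero
      intro x _
      apply Finset.sum_eq_zero
      intro y _
      rw [if_neg (hall x y)]
    omega
  obtain ⟨x, y, hT⟩ := hne
  have b2 := B0_ge_two h hT
  have c2 := C0_ge_two h hT
  have tb := two_B0 (m := m) h
  have tc := two_C0 (m := m) h
  have hb : (B0 m).card ≠ 2 := fun hb => not_two_rows h h2 h3 hb (by omega)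
  have hc : (C0 m).card ≠ 2 := fun hc => not_two_cols h h2 h3 hc (by omega)
  by_cases hb3 : (B0 m).card = 3
  · by_cases hc3 : (C0 m).card = 3
    · exact (not_nine33 h h2 h3 hb3 hc3 ht).elim
    · have hc4 : (C0 m).card = 4 := by omega
      have k2 : ¬ 2 ∣ Fintype.card Qᵐᵒᵖ := by rw [card_mop]; exact h2
      have k3 : ¬ 3 ∣ Fintype.card Qᵐᵒᵖ := by rw [card_mop]; exact h3
      obtain ⟨c, d, s, d1, d5, D⟩ := nine43 (mop_isQuasigroup h) k2 k3
        (by rw [card_B0_mop]; exact hc4) (by rw [card_C0_mop]; exact hb3) (by rw [tt_mop, ht])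
      have := D.bound (mop_isQuasigroup h) (cop6 k2 k3) check43
      rw [tt_mop, ht, mop_nonAssoc, card_mop] at this
      omega
  · have hb4 : (B0 m).card = 4 := by omega
    by_cases hc3 : (C0 m).card = 3
    · obtain ⟨c, d, s, d1, d5, D⟩ := nine43 h h2 h3 hb4 hc3 ht
      have := D.bound h (cop6 h2 h3) check43
      rw [ht] at this
      omega
    · obtain ⟨c, d, s, d1, d5, D⟩ := nine44 h h2 h3 hb4 (by omega) ht
      have := D.bound h (cop6 h2 h3) check44
      rw [ht] at this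
      omega

/-- many changed cells inside a `6 × 6` subgrid -/
lemma many_bound (h : IsQuasigroup m) (hB : (B0 m).card ≤ 6) (hC : (C0 m).card ≤ 6)
    (ht : 11 ≤ tt m) (hn : 18 ≤ Fintype.card Q) :
    44 * Fintype.card Q ≤ nonAssocTriples m + 660 ∨
    48 * Fintype.card Q ≤ nonAssocTriples m + 864 := by
  have tb := two_B0 (m := m) h
  have tc := two_C0 (m := m) h
  have hBmem : ∀ x y, T m x y → x ∈ B0 m := fun x y hh => mem_B0.2 ⟨y, hh⟩
  rcases Nat.lt_or_ge (tt m) 12 with h12 | h12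
  · left
    have h11 : tt m = 11 := by omega
    have hgen := general_lower h (M := 5) (fun x => (rho_le x).trans (by omega))
      (fun x => (gam_le x).trans (by omega)) (by omega) hBmem
    have hr := sumsq_le (rho m) 5 (fun x => (rho_le x).trans (by omega))
    have hg := sumsq_le (gam m) 5 (fun x => (gam_le x).trans (by omega))
    rw [tt_eq_rho] at hr
    rw [tt_eq_gam] at hg
    rw [h11] at hgen hr hg
    omega
  · right
    have hgen := general_lower h (M := 6) (fun x => (rho_le x).trans hC)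
      (fun x => (gam_le x).trans hB) hB hBmem
    have hr := sumsq_le (rho m) 6 (fun x => (rho_le x).trans hC)
    have hg := sumsq_le (gam m) 6 (fun x => (gam_le x).trans hB)
    rw [tt_eq_rho] at hr
    rw [tt_eq_gam] at hg
    obtain ⟨j, hj⟩ : ∃ j, Fintype.card Q = j + 18 := ⟨Fintype.card Q - 18, by omega⟩
    obtain ⟨i, hi⟩ : ∃ i, tt m = i + 12 := ⟨tt m - 12, by omega⟩
    rw [hj, hi] at hgen
    rw [hi] at hr hg
    rw [hj]
    nlinarith [Nat.zero_le (i * j)]

/-- the bound for smallest prime five or larger -/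
theorem near_group5' (h : IsQuasigroup m) (h2 : ¬ 2 ∣ Fintype.card Q)
    (h3 : ¬ 3 ∣ Fintype.card Q) (hn : 55 ≤ Fintype.card Q) (hB : (B0 m).card ≤ 6)
    (hC : (C0 m).card ≤ 6) (hpos : 0 < nonAssocTriples m) :
    32 * Fintype.card Q ≤ nonAssocTriples m + 114 := by
  obtain ⟨x, y, hT⟩ := exists_T hpos
  have h8 := eight_le h h2 h3 hT
  rcases Nat.lt_or_ge (tt m) 9 with h9 | h9
  · exact (eight_bound h h2 h3 (by omega)).2
  rcases Nat.lt_or_ge (tt m) 10 with h10 | h10
  · have := nine_bound h h2 h3 (by omega)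
    omega
  rcases Nat.lt_or_ge (tt m) 11 with h11 | h11
  · have := ten_bound h (by omega)
    omega
  · have := many_bound h hB hC h11 (by omega)
    omega

/-- the bound for smallest prime seven or larger -/
theorem near_group7 (h : IsQuasigroup m) (h2 : ¬ 2 ∣ Fintype.card Q)
    (h3 : ¬ 3 ∣ Fintype.card Q) (h5 : ¬ 5 ∣ Fintype.card Q) (hn : 77 ≤ Fintype.card Q)
    (hB : (B0 m).card ≤ 6) (hC : (C0 m).card ≤ 6) (hpos : 0 < nonAssocTriples m) :
    36 * Fintype.card Q ≤ nonAssocTriples m + 134 := by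
  obtain ⟨x, y, hT⟩ := exists_T hpos
  have h8 := eight_le h h2 h3 hT
  rcases Nat.lt_or_ge (tt m) 9 with h9 | h9
  · exfalso
    obtain ⟨⟨d, d1, d5⟩, -⟩ := eight_bound h h2 h3 (by omega)
    apply h5
    have : Fact (Nat.Prime 5) := ⟨by norm_num⟩
    have ho : orderOf d = 5 := orderOf_eq_prime d5 d1
    rw [← ho]
    exact orderOf_dvd_card
  rcases Nat.lt_or_ge (tt m) 10 with h10 | h10
  · exact nine_bound h h2 h3 (by omega)
  rcases Nat.lt_or_ge (tt m) 11 with h11 | h11
  · have := ten_bound h (by omega)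
    omega
  · have := many_bound h hB hC h11 (by omega)
    omega

end group

section final

variable {Q : Type*} [Fintype Q] [DecidableEq Q]

lemma arith_gap6 {k d s : ℕ} (hs : (27 ≤ k ∧ s + 83 ≤ 64 * k) ∨ (38 ≤ k ∧ s + 99 ≤ 72 * k))
    (h : 6 * (d * (2 * k + 1 - 2 * d)) ≤ s) : d ≤ 6 ∨ k - 6 ≤ d := by
  by_contra hc
  push Not at hc
  obtain ⟨e, he⟩ : ∃ e, k = d + e := ⟨k - d, by omega⟩
  have h1 : 2 * k + 1 - 2 * d = 2 * e + 1 := by omega
  rw [h1] at h
  obtain ⟨d', rfl⟩ : ∃ d', d = d' + 7 := ⟨d - 7, by omega⟩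
  obtain ⟨e', rfl⟩ : ∃ e', e = e' + 7 := ⟨e - 7, by omega⟩
  rcases hs with ⟨hk, hs⟩ | ⟨hk, hs⟩
  · nlinarith [Nat.zero_le (d' * e')]
  · nlinarith [Nat.zero_le (d' * e')]

lemma arith_mix6 {k r s : ℕ} (hs : (27 ≤ k ∧ s + 83 ≤ 64 * k) ∨ (38 ≤ k ∧ s + 99 ≤ 72 * k))
    (hr : k - 6 ≤ r)
    (h : 3 * ((k - 6) * r) + 4 * (r * (2 * k + 1 - 2 * r)) ≤ s) : False := by
  obtain ⟨j, rfl⟩ : ∃ j, k = j + 27 := ⟨k - 27, by omega⟩
  have h0 : j + 27 - 6 = j + 21 := by omega
  rw [h0] at h hr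
  rcases Nat.lt_or_ge (j + 27) r with h1 | h1
  · have h2 : (j + 21) * (j + 28) ≤ (j + 21) * r := Nat.mul_le_mul_left _ h1
    rcases hs with ⟨hk, hs⟩ | ⟨hk, hs⟩
    · nlinarith [Nat.zero_le (r * (2 * (j + 27) + 1 - 2 * r))]
    · obtain ⟨i, rfl⟩ : ∃ i, j = i + 11 := ⟨j - 11, by omega⟩
      nlinarith [Nat.zero_le (r * (2 * (i + 11 + 27) + 1 - 2 * r))]
  · obtain ⟨i, hi⟩ : ∃ i, j + 27 = r + i := ⟨j + 27 - r, by omega⟩
    have hi6 : i ≤ 6 := by omega
    have h3 : 2 * (j + 27) + 1 - 2 * r = 2 * i + 1 := by omega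
    rw [h3] at h
    interval_cases i
    all_goals
      rcases hs with ⟨hk, hs⟩ | ⟨hk, hs⟩
      · have hr' : r = j + 27 - (j + 27 - r) := by omega
        nlinarith
      · nlinarith

lemma rows_bad6 {m : Q → Q → Q} (h : IsQuasigroup m) {k : ℕ}
    (hcard : Fintype.card Q = 2 * k + 1)
    (hs : (27 ≤ k ∧ nonAssocTriples m + 83 ≤ 64 * k) ∨
      (38 ≤ k ∧ nonAssocTriples m + 99 ≤ 72 * k))
    (hgap : ∀ g : Perm Q, dd h g ≤ 6 ∨ k - 6 ≤ dd h g) : ((good h 6)ᶜ).card ≤ 6 := by
  have hgap' : ∀ g : Perm Q, dd h g ≤ 6 ∨ 2 * 6 < dd h g := by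
    intro g
    rcases hgap g with h1 | h1
    · exact Or.inl h1
    · right; omega
  have h1 := rows_lower h (good h 6) (good_ex h 6 hgap')
  have h2 := mix_lower h (good h 6) (k - 6) (by
    intro x hx
    rw [mem_good] at hx
    rcases hgap (Lp h x) with h1 | h1
    · exact absurd h1 hx
    · exact h1) (good_ex h 6 hgap')
  rw [hcard] at h1 h2
  rcases arith_gap6 hs h1 with h3 | h3
  · exact h3
  · exact (arith_mix6 hs h3 h2).elim

/-- the structure for a small number of non-associative triples -/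
theorem struct6 {m : Q → Q → Q} (h : IsQuasigroup m) {k : ℕ}
    (hcard : Fintype.card Q = 2 * k + 1)
    (hs : (27 ≤ k ∧ nonAssocTriples m + 83 ≤ 64 * k) ∨
      (38 ≤ k ∧ nonAssocTriples m + 99 ≤ 72 * k)) :
    ∃ _ : Group Q, (B0 m).card ≤ 6 ∧ (C0 m).card ≤ 6 := by
  have hgap : ∀ g : Perm Q, dd h g ≤ 6 ∨ k - 6 ≤ dd h g := by
    intro g
    have := gap h g
    rw [hcard] at this
    exact arith_gap6 hs this
  have hso : (27 ≤ k ∧ nonAssocTriples (opp m) + 83 ≤ 64 * k) ∨
      (38 ≤ k ∧ nonAssocTriples (opp m) + 99 ≤ 72 * k) := by rw [nonAssoc_opp]; exact hs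
  have hgapo : ∀ g : Perm Q, dd h.opp g ≤ 6 ∨ k - 6 ≤ dd h.opp g := by
    intro g
    have := gap h.opp g
    rw [hcard] at this
    exact arith_gap6 hso this
  have hr := rows_bad6 h hcard hs hgap
  have hr' := rows_bad6 h.opp hcard hso hgapo
  obtain ⟨G, B, B', hB, hB', hm⟩ := structure_thm h 6 (by omega) (by
    intro g
    rcases hgap g with h1 | h1
    · exact Or.inl h1
    · right; omega) hr hr'
  refine ⟨G, ?_, ?_⟩
  · refine (Finset.card_le_card ?_).trans hB
    intro x hx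
    obtain ⟨y, hy⟩ := mem_B0.1 hx
    by_contra hn
    exact hy (hm x y (Or.inl hn))
  · refine (Finset.card_le_card ?_).trans hB'
    intro y hy
    obtain ⟨x, hx⟩ := mem_C0.1 hy
    by_contra hn
    exact hx (hm x y (Or.inr hn))

theorem lower5' {m : Q → Q → Q} (h : IsQuasigroup m) (hn : 55 ≤ Fintype.card Q)
    (h2 : ¬ 2 ∣ Fintype.card Q) (h3 : ¬ 3 ∣ Fintype.card Q) (hpos : 0 < nonAssocTriples m) :
    32 * Fintype.card Q ≤ nonAssocTriples m + 114 := by
  by_contra hcon
  obtain ⟨k, hcard⟩ : ∃ k, Fintype.card Q = 2 * k + 1 := by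
    refine ⟨Fintype.card Q / 2, ?_⟩
    omega
  obtain ⟨G, hB, hC⟩ := struct6 h hcard (Or.inl ⟨by omega, by omega⟩)
  exact hcon (near_group5' h h2 h3 hn hB hC hpos)

theorem lower7 {m : Q → Q → Q} (h : IsQuasigroup m) (hn : 77 ≤ Fintype.card Q)
    (h2 : ¬ 2 ∣ Fintype.card Q) (h3 : ¬ 3 ∣ Fintype.card Q) (h5 : ¬ 5 ∣ Fintype.card Q)
    (hpos : 0 < nonAssocTriples m) :
    36 * Fintype.card Q ≤ nonAssocTriples m + 134 := by
  by_contra hcon
  obtain ⟨k, hcard⟩ : ∃ k, Fintype.card Q = 2 * k + 1 := by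
    refine ⟨Fintype.card Q / 2, ?_⟩
    omega
  obtain ⟨G, hB, hC⟩ := struct6 h hcard (Or.inr ⟨by omega, by omega⟩)
  exact hcon (near_group7 h h2 h3 h5 hn hB hC hpos)

end final

end Pool.Agent.Helper32.Q5
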