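import Pool.Agent.Helper60.Quas.UpperOdd
import Pool.Agent.Helper32.Q5.Lower5

/-!
The extremal examples on `ℤ/p × ℤ/k`.
-/

namespace Pool.Agent.Helper32.Q5

open Finset Pool.Agent.Helper60.Quas

set_option linter.unusedSimpArgs false

/-- the operation of `ℤ/p × ℤ/k` with the block over `(0, 0)` replaced by the table `H` -/
def opX {p : ℕ} (H : ZMod p → ZMod p → ZMod p) (k : ℕ) :
    ZMod p × ZMod k → ZMod p × ZMod k → ZMod p × ZMod k :=
  fun x y => (if x.2 = 0 ∧ y.2 = 0 then H x.1 y.1 else x.1 + y.1, x.2 + y.2)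

lemma opX_isQuasigroup {p : ℕ} [NeZero p] (H : ZMod p → ZMod p → ZMod p) (k : ℕ) [NeZero k]
    (hl : ∀ a, Function.Injective (H a)) (hr : ∀ b, Function.Injective (fun x => H x b)) :
    IsQuasigroup (opX H k) := by
  constructor
  · intro a
    rw [← Finite.injective_iff_bijective]
    intro x y hxy
    simp only [opX, Prod.mk.injEq, add_right_inj] at hxy
    obtain ⟨h1, h2⟩ := hxy
    rw [h2] at h1
    refine Prod.ext ?_ h2
    by_cases hc : a.2 = 0 ∧ y.2 = 0
    · rw [if_pos hc, if_pos hc] at h1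
      exact hl _ h1
    · rw [if_neg hc, if_neg hc] at h1
      exact add_left_cancel h1
  · intro a
    rw [← Finite.injective_iff_bijective]
    intro x y hxy
    simp only [opX, Prod.mk.injEq, add_left_inj] at hxy
    obtain ⟨h1, h2⟩ := hxy
    rw [h2] at h1
    refine Prod.ext ?_ h2
    by_cases hc : y.2 = 0 ∧ a.2 = 0
    · rw [if_pos hc, if_pos hc] at h1
      exact hr _ h1
    · rw [if_neg hc, if_neg hc] at h1
      exact add_right_cancel h1

/-- the number of non-associative triples over given second coordinates -/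
def GX {p : ℕ} [NeZero p] (H : ZMod p → ZMod p → ZMod p) (α β γ δ : Bool) : ℕ :=
  ∑ x : ZMod p, ∑ y : ZMod p, ∑ z : ZMod p,
    if (bif δ then H x (bif γ then H y z else y + z) else x + (bif γ then H y z else y + z)) ≠
      (bif β then H (bif α then H x y else x + y) z else (bif α then H x y else x + y) + z)
    then 1 else 0

/-- the finite checks for the example -/
structure Good {p : ℕ} [NeZero p] (H : ZMod p → ZMod p → ZMod p) (t C : ℕ) : Prop where
  hl : ∀ a, Function.Injective (H a)
  hr : ∀ b, Function.Injective (fun x => H x b)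
  g0 : GX H false false false false = 0
  g1 : GX H true false false false = t * p
  g2 : GX H false true false false = t * p
  g3 : GX H false false true false = t * p
  g4 : GX H false false false true = t * p
  g5 : GX H true true true true + C = 4 * (t * p)

lemma opX_count {p : ℕ} [NeZero p] (H : ZMod p → ZMod p → ZMod p) (k : ℕ) [NeZero k] :
    nonAssocTriples (opX H k) = ∑ x : ZMod k, ∑ y : ZMod k, ∑ z : ZMod k,
      GX H (decide (x = 0 ∧ y = 0)) (decide (x + y = 0 ∧ z = 0)) (decide (y = 0 ∧ z = 0))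
        (decide (x = 0 ∧ y + z = 0)) := by
  rw [nonAssoc_eq]
  have hF : ∀ x y z : ZMod p × ZMod k,
      (if opX H k x (opX H k y z) ≠ opX H k (opX H k x y) z then 1 else 0) =
      (fun (x1 : ZMod p) (x2 : ZMod k) (y1 : ZMod p) (y2 : ZMod k) (z1 : ZMod p) (z2 : ZMod k) =>
        if (if x2 = 0 ∧ y2 + z2 = 0 then
              H x1 (if y2 = 0 ∧ z2 = 0 then H y1 z1 else y1 + z1)
            else x1 + (if y2 = 0 ∧ z2 = 0 then H y1 z1 else y1 + z1)) ≠
          (if x2 + y2 = 0 ∧ z2 = 0 then H (if x2 = 0 ∧ y2 = 0 then H x1 y1 else x1 + y1) z1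
            else (if x2 = 0 ∧ y2 = 0 then H x1 y1 else x1 + y1) + z1)
        then 1 else 0) x.1 x.2 y.1 y.2 z.1 z.2 := by
    intro x y z
    refine if_congr ?_ rfl rfl
    unfold opX
    rw [ne_eq, ne_eq, not_iff_not, Prod.mk.injEq]
    constructor
    · rintro ⟨h1, -⟩
      exact h1
    · intro h1
      exact ⟨h1, by ring⟩
  simp only [hF]
  rw [sum_reorder (fun (x1 : ZMod p) (x2 : ZMod k) (y1 : ZMod p) (y2 : ZMod k) (z1 : ZMod p)
      (z2 : ZMod k) =>
        if (if x2 = 0 ∧ y2 + z2 = 0 then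
              H x1 (if y2 = 0 ∧ z2 = 0 then H y1 z1 else y1 + z1)
            else x1 + (if y2 = 0 ∧ z2 = 0 then H y1 z1 else y1 + z1)) ≠
          (if x2 + y2 = 0 ∧ z2 = 0 then H (if x2 = 0 ∧ y2 = 0 then H x1 y1 else x1 + y1) z1
            else (if x2 = 0 ∧ y2 = 0 then H x1 y1 else x1 + y1) + z1)
        then 1 else 0)]
  refine Finset.sum_congr rfl fun x2 _ => Finset.sum_congr rfl fun y2 _ =>
    Finset.sum_congr rfl fun z2 _ => ?_
  unfold GX
  simp only [Bool.cond_decide]

/-- the exact number of non-associative triples of the example -/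
theorem opX_exact {p : ℕ} [NeZero p] {H : ZMod p → ZMod p → ZMod p} {t C : ℕ} (K : Good H t C)
    (k : ℕ) [NeZero k] : nonAssocTriples (opX H k) + C = 4 * (t * p) * k := by
  have hpt : ∀ x y z : ZMod k,
      GX H (decide (x = 0 ∧ y = 0)) (decide (x + y = 0 ∧ z = 0)) (decide (y = 0 ∧ z = 0))
        (decide (x = 0 ∧ y + z = 0)) + C * (if x = 0 ∧ y = 0 ∧ z = 0 then 1 else 0) =
      t * p * ((if x = 0 ∧ y = 0 then 1 else 0) + (if x + y = 0 ∧ z = 0 then 1 else 0) +
      (if y = 0 ∧ z = 0 then 1 else 0) + (if x = 0 ∧ y + z = 0 then 1 else 0)) := by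
    intro x y z
    by_cases a1 : x = 0 <;> by_cases a2 : y = 0 <;> by_cases a3 : z = 0
    · subst a1 a2 a3
      simp only [add_zero, and_self, decide_true, if_true]
      have := K.g5
      omega
    · subst a1 a2
      simp [a3, K.g1]
    · subst a1 a3
      simp [a2, K.g0]
    · subst a1
      by_cases a4 : y + z = 0
      · simp [a2, a3, a4, K.g4]
      · simp [a2, a3, a4, K.g0]
    · subst a2 a3
      simp [a1, K.g3]
    · subst a2
      simp [a1, a3, K.g0]
    · subst a3
      by_cases a4 : x + y = 0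
      · simp [a1, a2, a4, K.g2]
      · simp [a1, a2, a4, K.g0]
    · simp [a1, a2, a3, K.g0]
  have hsum : ∑ x : ZMod k, ∑ y : ZMod k, ∑ z : ZMod k,
      (GX H (decide (x = 0 ∧ y = 0)) (decide (x + y = 0 ∧ z = 0)) (decide (y = 0 ∧ z = 0))
        (decide (x = 0 ∧ y + z = 0)) + C * (if x = 0 ∧ y = 0 ∧ z = 0 then 1 else 0)) =
      ∑ x : ZMod k, ∑ y : ZMod k, ∑ z : ZMod k,
      t * p * ((if x = 0 ∧ y = 0 then 1 else 0) + (if x + y = 0 ∧ z = 0 then 1 else 0) +
      (if y = 0 ∧ z = 0 then 1 else 0) + (if x = 0 ∧ y + z = 0 then 1 else 0)) :=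
    Finset.sum_congr rfl fun x _ => Finset.sum_congr rfl fun y _ =>
      Finset.sum_congr rfl fun z _ => hpt x y z
  simp only [Finset.sum_add_distrib, ← Finset.mul_sum] at hsum
  rw [← opX_count] at hsum
  have t1 : ∑ x : ZMod k, ∑ y : ZMod k, ∑ z : ZMod k,
      (if x = 0 ∧ y = 0 ∧ z = 0 then 1 else 0) = 1 := by
    simp [ite_and]
  have s1 : ∑ x : ZMod k, ∑ y : ZMod k, ∑ z : ZMod k, (if x = 0 ∧ y = 0 then 1 else 0) = k := by
    simp [ite_and]
  have s2 : ∑ x : ZMod k, ∑ y : ZMod k, ∑ z : ZMod k, (if x + y = 0 ∧ z = 0 then 1 else 0) = k := by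
    have : ∀ x y : ZMod k, x + y = 0 ↔ y = 0 - x := by
      intro x y; constructor
      · intro h; rw [← h]; ring
      · intro h; rw [h]; ring
    simp [ite_and, this]
  have s3 : ∑ x : ZMod k, ∑ y : ZMod k, ∑ z : ZMod k, (if y = 0 ∧ z = 0 then 1 else 0) = k := by
    simp [ite_and]
  have s4 : ∑ x : ZMod k, ∑ y : ZMod k, ∑ z : ZMod k, (if x = 0 ∧ y + z = 0 then 1 else 0) = k := by
    have : ∀ x y : ZMod k, x + y = 0 ↔ y = 0 - x := by
      intro x y; constructor
      · intro h; rw [← h]; ring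
      · intro h; rw [h]; ring
    simp [ite_and, this]
  rw [t1, s1, s2, s3, s4, mul_one] at hsum
  rw [hsum]; ring

/-- the table of the example of order five -/
def T5 : ZMod 5 → ZMod 5 → ZMod 5 := fun i j =>
  if i = 1 then (if j = 1 then 3 else if j = 2 then 0 else if j = 4 then 2 else i + j) else
  if i = 2 then (if j = 1 then 4 else if j = 2 then 3 else i + j) else
  if i = 3 then (if j = 1 then 2 else if j = 2 then 4 else if j = 4 then 0 else i + j) else
  i + j

theorem good5 : Good T5 8 114 where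
  hl := by unfold Function.Injective; decide +kernel
  hr := by unfold Function.Injective; decide +kernel
  g0 := by decide +kernel
  g1 := by decide +kernel
  g2 := by decide +kernel
  g3 := by decide +kernel
  g4 := by decide +kernel
  g5 := by decide +kernel

end Pool.Agent.Helper32.Q5
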