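import Pool.Agent.Helper32.Q5.Upper

/-!
The extremal table of order seven.
-/

namespace Pool.Agent.Helper32.Q5

/-- the table of the example of order seven -/
def T7 : ZMod 7 → ZMod 7 → ZMod 7 := fun i j =>
  if i = 1 then (if j = 2 then 4 else if j = 3 then 6 else if j = 5 then 3 else i + j) else
  if i = 2 then (if j = 1 then 4 else if j = 2 then 3 else i + j) else
  if i = 3 then (if j = 1 then 6 else if j = 3 then 4 else i + j) else
  if i = 5 then (if j = 1 then 3 else if j = 5 then 6 else i + j) else
  i + j

theorem good7 : Good T7 9 134 where
  hl := by unfold Function.Injective; decide +kernel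
  hr := by unfold Function.Injective; decide +kernel
  g0 := by decide +kernel
  g1 := by decide +kernel
  g2 := by decide +kernel
  g3 := by decide +kernel
  g4 := by decide +kernel
  g5 := by decide +kernel

end Pool.Agent.Helper32.Q5
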